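import Pool.Agent.Star.FO.Check

/-! Certificate `CertB` (computer generated). -/

set_option autoImplicit false
set_option maxRecDepth 100000

namespace Pool.Agent.Star.FO.CertB

/-- Literal `m`. -/
def M (i j : Nat) : Lit := .mk .mp i j
/-- Literal `not m`. -/
def m (i j : Nat) : Lit := .mk .mn i j
/-- Literal `=`. -/
def E (i j : Nat) : Lit := .mk .ep i j
/-- Literal `not =`. -/
def e (i j : Nat) : Lit := .mk .en i j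
/-- Literal `Far`. -/
def F (i j : Nat) : Lit := .mk .fp i j
/-- Literal `not Far`. -/
def f (i j : Nat) : Lit := .mk .fn i j
/-- Literal centre. -/
def C (i j : Nat) : Lit := .mk .cp i j
/-- Literal not centre. -/
def c (i j : Nat) : Lit := .mk .cn i j

/-- Defining pairs. -/
def ps : List (Nat × Nat) := [(2, 5), (0, 9), (2, 10), (2, 13), (1, 9), (3, 15), (0, 2), (0, 17), (2, 9), (3, 9), (2, 19), (3, 10), (3, 20), (5, 10), (5, 7), (3, 22), (5, 24)]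

/-- Facts on the base points. -/
def facts : List (List Lit) := [[F 4 0], [F 5 0], [F 5 4], [F 4 1], [F 6 1], [F 6 4], [F 2 1], [F 7 1], [F 7 2], [F 3 0], [F 8 0], [F 8 3], [m 2 0], [m 4 2], [m 5 2], [m 3 1], [m 4 3], [m 6 3], [m 1 0], [m 7 0], [m 8 1], [M 9 4], [m 10 4], [M 10 9], [C 0 0], [C 1 1], [C 2 2], [C 3 3], [C 4 4], [C 5 5], [C 6 6], [C 7 7], [C 8 8]]

/-- The context. -/
def ctx : Ctx := ⟨11, ps, facts⟩

/-- Part of the certificate. -/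
def e0 : List Entry := [
  .root (.ax (.refl 0) 0),
  .lem [m 4 0] [.ax (.fact 0) 0, .ax (.far 0 4 0) 3],
  .root (.ax (.refl 4) 0),
  .lem [e 4 0] [.ax (.em 4 0 4) 3],
  .lem [m 5 0] [.ax (.fact 1) 0, .ax (.far 0 5 0) 3],
  .root (.ax (.refl 1) 0),
  .lem [m 4 1] [.ax (.fact 3) 0, .ax (.far 1 4 1) 3],
  .lem [m 6 1] [.ax (.fact 4) 0, .ax (.far 1 6 1) 3],
  .lem [m 7 4, m 7 6] [.ax (.fact 5) 0, .ax (.far 4 6 7) 3],
  .lem [m 2 1] [.ax (.fact 6) 0, .ax (.far 1 2 1) 3],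
  .root (.ax (.refl 2) 0),
  .lem [e 2 1] [.ax (.em 2 1 2) 3]]

/-- Part of the certificate. -/
def e1 : List Entry := [
  .lem [m 3 0] [.ax (.fact 9) 0, .ax (.far 0 3 0) 3],
  .root (.ax (.refl 3) 0),
  .lem [e 3 0] [.ax (.em 3 0 3) 3],
  .lem [m 8 0] [.ax (.fact 10) 0, .ax (.far 0 8 0) 3],
  .lem [m 8 3] [.ax (.fact 11) 0, .ax (.far 3 8 3) 3],
  .lem [m 9 0, m 9 4] [.ax (.fact 0) 0, .ax (.far 0 4 9) 3],
  .lem [m 9 4, m 9 5] [.ax (.fact 2) 0, .ax (.far 4 5 9) 3],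
  .lem [m 9 1, m 9 4] [.ax (.fact 3) 0, .ax (.far 1 4 9) 3],
  .lem [m 9 4, m 9 6] [.ax (.fact 5) 0, .ax (.far 4 6 9) 3],
  .lem [m 9 3, m 9 8] [.ax (.fact 11) 0, .ax (.far 3 8 9) 3],
  .lem [m 10 0, m 10 5] [.ax (.fact 1) 0, .ax (.far 0 5 10) 3],
  .lem [m 10 0, m 10 3] [.ax (.fact 9) 0, .ax (.far 0 3 10) 3]]

/-- Part of the certificate. -/
def e2 : List Entry := [
  .lem [m 9 0] [.ax (.fact 21) 0, .lm 6 2],
  .lem [m 9 5] [.ax (.fact 21) 0, .lm 5 2],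
  .lem [m 9 1] [.ax (.fact 21) 0, .lm 4 2],
  .lem [m 9 6] [.ax (.fact 21) 0, .lm 3 2],
  .root (.ax (.refl 9) 0),
  .lem [e 9 0] [.ax (.em 9 0 9) 3],
  .lem [e 9 5] [.ax (.em 9 5 9) 3],
  .lem [e 9 6] [.ax (.em 9 6 9) 3],
  .root (.ax (.fact 24) 0),
  .root (.ax (.fact 27) 0),
  .root (.ax (.fact 32) 0),
  .lem [M 3 2, M 8 2] [.ax (.fact 9) 0, .ax (.fact 10) 0, .ax (.fact 11) 0, .ax (.fact 18) 0, .ax (.fact 15) 0, .ax (.fact 20) 0, .ax (.fact 12) 0, .ax (.un 0 3 8 1 2) 13]]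

/-- Part of the certificate. -/
def e3 : List Entry := [
  .root (.ax (.fact 28) 0),
  .root (.ax (.fact 29) 0),
  .lem [M 5 1] [.ax (.fact 0) 0, .ax (.fact 1) 0, .ax (.fact 2) 0, .ax (.fact 18) 0, .ax (.fact 12) 0, .ax (.fact 13) 0, .ax (.fact 14) 0, .ax (.un 0 4 5 1 2) 13],
  .root (.ax (.fact 25) 0),
  .root (.ax (.fact 26) 0),
  .root (.ax (.fact 31) 0),
  .lem [M 7 4] [.ax (.fact 6) 0, .ax (.fact 7) 0, .ax (.fact 8) 0, .ax (.fact 18) 0, .ax (.fact 12) 0, .ax (.fact 19) 0, .ax (.fact 13) 0, .ax (.un 1 2 7 0 4) 13],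
  .lem [m 7 6] [.lm 8 2],
  .root (.ax (.fact 30) 0),
  .lem [M 6 0] [.ax (.fact 3) 0, .ax (.fact 4) 0, .ax (.fact 5) 0, .ax (.fact 18) 0, .ax (.fact 15) 0, .ax (.fact 16) 0, .ax (.fact 17) 0, .ax (.un 1 4 6 0 3) 13],
  .lem [e 5 1, F 1 0] [.ax (.fact 1) 0, .ax (.ef 5 1 0) 3],
  .lem [M 10 0, M 10 3, M 10 8, E 10 1] [.ax (.fact 9) 0, .ax (.fact 10) 0, .ax (.fact 11) 0, .ax (.fact 18) 0, .ax (.fact 15) 0, .ax (.fact 20) 0, .ax (.un 0 3 8 1 10) 13]]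

/-- Part of the certificate. -/
def e4 : List Entry := [
  .lem [M 5 3, E 3 2] [.ax (.fact 0) 0, .ax (.fact 1) 0, .ax (.fact 2) 0, .ax (.fact 12) 0, .ax (.fact 13) 0, .ax (.fact 14) 0, .ax (.fact 16) 0, .ax (.un 0 4 5 2 3) 13],
  .lem [M 10 0, M 10 5, E 10 2] [.ax (.fact 0) 0, .ax (.fact 1) 0, .ax (.fact 2) 0, .ax (.fact 12) 0, .ax (.fact 13) 0, .ax (.fact 14) 0, .ax (.fact 22) 0, .ax (.un 0 4 5 2 10) 13],
  .lem [M 6 2, E 6 0] [.ax (.fact 6) 0, .ax (.fact 7) 0, .ax (.fact 8) 0, .ax (.fact 18) 0, .ax (.fact 12) 0, .ax (.fact 19) 0, .ax (.un 1 2 7 0 6) 13],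
  .lem [M 9 2, M 9 7] [.ax (.fact 6) 0, .ax (.fact 7) 0, .ax (.fact 8) 0, .ax (.fact 18) 0, .ax (.fact 12) 0, .ax (.fact 19) 0, .ax (.un 1 2 7 0 9) 13],
  .lem [M 6 2, E 3 2] [.ax (.fact 3) 0, .ax (.fact 4) 0, .ax (.fact 5) 0, .ax (.fact 13) 0, .ax (.fact 15) 0, .ax (.fact 16) 0, .ax (.fact 17) 0, .ax (.un 1 4 6 2 3) 13],
  .lem [M 10 1, M 10 6, E 10 3] [.ax (.fact 3) 0, .ax (.fact 4) 0, .ax (.fact 5) 0, .ax (.fact 15) 0, .ax (.fact 16) 0, .ax (.fact 17) 0, .ax (.fact 22) 0, .ax (.un 1 4 6 3 10) 13],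
  .lem [m 11 0, m 11 4] [.ax (.fact 0) 0, .ax (.far 0 4 11) 3],
  .lem [m 6 2, m 11 6] [.ax (.sk1 11) 0, .ax (.far 2 11 6) 3],
  .lem [m 8 2, m 11 8] [.ax (.sk1 11) 0, .ax (.far 2 11 8) 3],
  .lem [m 11 1] [.ax (.sk2 11) 0, .ax (.far 5 11 1) 3],
  .root (.ax (.refl 11) 0),
  .lem [e 11 1] [.ax (.em 11 1 11) 3]]

/-- Part of the certificate. -/
def e5 : List Entry := [
  .lem [m 5 3, m 11 3] [.ax (.sk2 11) 0, .ax (.far 5 11 3) 3],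
  .lem [M 11 0, M 11 3, M 11 8] [.ax (.fact 9) 0, .ax (.fact 10) 0, .ax (.fact 11) 0, .ax (.fact 18) 0, .ax (.fact 15) 0, .ax (.fact 20) 0, .ax (.un 0 3 8 1 11) 13],
  .lem [M 11 4, M 11 6, E 11 3] [.ax (.fact 3) 0, .ax (.fact 4) 0, .ax (.fact 5) 0, .ax (.fact 15) 0, .ax (.fact 16) 0, .ax (.fact 17) 0, .ax (.un 1 4 6 3 11) 13],
  .lem [e 3 2, F 3 1] [.ax (.fact 6) 0, .ax (.ef 2 3 1) 3],
  .lem [e 6 0, F 1 0] [.ax (.fact 4) 0, .ax (.ef 6 0 1) 3],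
  .lem [e 10 2, F 10 7] [.ax (.fact 8) 0, .ax (.ef 2 10 7) 3],
  .lem [f 1 0, E 3 2] [.ax (.fact 0) 0, .ax (.fact 3) 0, .ax (.fact 12) 0, .ax (.fact 13) 0, .ax (.fact 15) 0, .ax (.fact 16) 0, .ax (.un 0 1 4 2 3) 13],
  .lem [m 12 1, m 12 2] [.ax (.fact 6) 0, .ax (.far 1 2 12) 3],
  .lem [m 12 6] [.ax (.sk1 12) 0, .ax (.far 0 12 6) 3],
  .lem [m 9 3, m 12 3] [.ax (.sk2 12) 0, .ax (.far 9 12 3) 3],
  .lem [m 12 4] [.ax (.sk2 12) 0, .ax (.fact 21) 0, .ax (.far 9 12 4) 3],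
  .lem [m 12 10] [.ax (.sk2 12) 0, .ax (.fact 23) 0, .ax (.far 9 12 10) 3]]

/-- Part of the certificate. -/
def e6 : List Entry := [
  .lem [M 12 1, E 12 3] [.ax (.fact 3) 0, .ax (.fact 4) 0, .ax (.fact 5) 0, .ax (.fact 15) 0, .ax (.fact 16) 0, .ax (.fact 17) 0, .ax (.un 1 4 6 3 12) 13],
  .lem [e 12 3, F 9 3] [.ax (.sk2 12) 0, .ax (.ef 12 3 9) 3],
  .lem [e 12 3, m 10 3] [.ax (.em 3 12 10) 3],
  .lem [m 13 0, m 13 4] [.ax (.fact 0) 0, .ax (.far 0 4 13) 3],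
  .lem [m 13 4, m 13 5] [.ax (.fact 2) 0, .ax (.far 4 5 13) 3],
  .lem [m 13 0, m 13 12] [.ax (.sk1 12) 0, .ax (.far 0 12 13) 3],
  .lem [m 13 2] [.ax (.sk1 13) 0, .ax (.far 2 13 2) 3],
  .root (.ax (.refl 13) 0),
  .lem [e 13 2] [.ax (.em 13 2 13) 3],
  .lem [m 3 2, m 13 3] [.ax (.sk1 13) 0, .ax (.far 2 13 3) 3],
  .lem [m 6 2, m 13 6] [.ax (.sk1 13) 0, .ax (.far 2 13 6) 3],
  .lem [m 10 0, m 13 0] [.ax (.sk2 13) 0, .ax (.far 10 13 0) 3]]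

/-- Part of the certificate. -/
def e7 : List Entry := [
  .lem [m 10 1, m 13 1] [.ax (.sk2 13) 0, .ax (.far 10 13 1) 3],
  .lem [m 10 5, m 13 5] [.ax (.sk2 13) 0, .ax (.far 10 13 5) 3],
  .lem [m 10 8, m 13 8] [.ax (.sk2 13) 0, .ax (.far 10 13 8) 3],
  .lem [m 13 9] [.ax (.sk2 13) 0, .ax (.fact 23) 0, .ax (.far 10 13 9) 3],
  .lem [e 13 9] [.ax (.em 13 9 13) 3],
  .lem [M 13 0, M 13 3, M 13 8, E 13 1] [.ax (.fact 9) 0, .ax (.fact 10) 0, .ax (.fact 11) 0, .ax (.fact 18) 0, .ax (.fact 15) 0, .ax (.fact 20) 0, .ax (.un 0 3 8 1 13) 13],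
  .lem [M 13 0, M 13 4, M 13 5] [.ax (.fact 0) 0, .ax (.fact 1) 0, .ax (.fact 2) 0, .ax (.fact 12) 0, .ax (.fact 13) 0, .ax (.fact 14) 0, .ax (.un 0 4 5 2 13) 13],
  .lem [M 13 1, M 13 4, M 13 6, E 13 3] [.ax (.fact 3) 0, .ax (.fact 4) 0, .ax (.fact 5) 0, .ax (.fact 15) 0, .ax (.fact 16) 0, .ax (.fact 17) 0, .ax (.un 1 4 6 3 13) 13],
  .lem [e 10 3, m 12 3] [.ax (.em 3 10 12) 3],
  .lem [m 14 0, m 14 4] [.ax (.fact 0) 0, .ax (.far 0 4 14) 3],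
  .lem [m 14 0, m 14 5] [.ax (.fact 1) 0, .ax (.far 0 5 14) 3],
  .lem [m 14 4, m 14 5] [.ax (.fact 2) 0, .ax (.far 4 5 14) 3]]

/-- Part of the certificate. -/
def e8 : List Entry := [
  .lem [m 14 1, m 14 7] [.ax (.fact 7) 0, .ax (.far 1 7 14) 3],
  .lem [m 14 9, m 14 12] [.ax (.sk2 12) 0, .ax (.far 9 12 14) 3],
  .lem [m 3 2, m 14 3] [.ax (.sk1 14) 0, .ax (.far 2 14 3) 3],
  .lem [m 6 2, m 14 6] [.ax (.sk1 14) 0, .ax (.far 2 14 6) 3],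
  .lem [m 13 1, m 14 1] [.ax (.sk2 14) 0, .ax (.far 13 14 1) 3],
  .lem [m 13 4, m 14 4] [.ax (.sk2 14) 0, .ax (.far 13 14 4) 3],
  .lem [m 13 8, m 14 8] [.ax (.sk2 14) 0, .ax (.far 13 14 8) 3],
  .lem [M 14 0, M 14 3, M 14 8, E 14 1] [.ax (.fact 9) 0, .ax (.fact 10) 0, .ax (.fact 11) 0, .ax (.fact 18) 0, .ax (.fact 15) 0, .ax (.fact 20) 0, .ax (.un 0 3 8 1 14) 13],
  .lem [M 14 1, M 14 4, M 14 6, E 14 3] [.ax (.fact 3) 0, .ax (.fact 4) 0, .ax (.fact 5) 0, .ax (.fact 15) 0, .ax (.fact 16) 0, .ax (.fact 17) 0, .ax (.un 1 4 6 3 14) 13],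
  .root (.ax (.skc 13) 0),
  .root (.ax (.skc 14) 0),
  .lem [M 13 5, M 14 5, M 9 2, M 14 9] [.ax (.sk1 13) 0, .ax (.sk1 14) 0, .ax (.sk2 14) 0, .ax (.fact 14) 0, .ax (.un 2 13 14 5 9) 13]]

/-- Part of the certificate. -/
def e9 : List Entry := [
  .lem [M 13 5, M 14 5, M 12 2, M 13 12, M 14 12, E 12 5] [.ax (.sk1 13) 0, .ax (.sk1 14) 0, .ax (.sk2 14) 0, .ax (.fact 14) 0, .ax (.un 2 13 14 5 12) 13],
  .lem [e 12 5, m 10 5] [.ax (.em 5 12 10) 3],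
  .lem [m 15 0, m 15 3] [.ax (.fact 9) 0, .ax (.far 0 3 15) 3],
  .lem [m 15 1] [.ax (.sk1 15) 0, .ax (.far 1 15 1) 3],
  .lem [m 15 5] [.ax (.sk1 15) 0, .ax (.far 1 15 5) 3],
  .lem [m 9 2, m 15 2] [.ax (.sk2 15) 0, .ax (.far 9 15 2) 3],
  .lem [m 15 4] [.ax (.sk2 15) 0, .ax (.fact 21) 0, .ax (.far 9 15 4) 3],
  .lem [M 15 0, E 15 2] [.ax (.fact 0) 0, .ax (.fact 1) 0, .ax (.fact 2) 0, .ax (.fact 12) 0, .ax (.fact 13) 0, .ax (.fact 14) 0, .ax (.un 0 4 5 2 15) 13],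
  .lem [M 15 2, M 15 7, E 15 0] [.ax (.fact 6) 0, .ax (.fact 7) 0, .ax (.fact 8) 0, .ax (.fact 18) 0, .ax (.fact 12) 0, .ax (.fact 19) 0, .ax (.un 1 2 7 0 15) 13],
  .lem [e 14 1, F 13 1] [.ax (.sk2 14) 0, .ax (.ef 14 1 13) 3],
  .lem [e 15 2, F 15 7] [.ax (.fact 8) 0, .ax (.ef 2 15 7) 3],
  .lem [e 15 2, F 9 2] [.ax (.sk2 15) 0, .ax (.ef 15 2 9) 3]]

/-- Part of the certificate. -/
def e10 : List Entry := [
  .lem [f 10 7, m 9 7] [.ax (.fact 23) 0, .ax (.far 7 10 9) 3],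
  .lem [M 13 0, M 14 0, M 9 2, M 14 9] [.ax (.sk1 13) 0, .ax (.sk1 14) 0, .ax (.sk2 14) 0, .ax (.fact 12) 0, .ax (.un 2 13 14 0 9) 13],
  .lem [f 13 1, M 13 0, M 9 2] [.ax (.fact 6) 0, .ax (.sk1 13) 0, .ax (.fact 18) 0, .ax (.fact 12) 0, .ax (.un 1 2 13 0 9) 13],
  .lem [e 15 0, F 1 0] [.ax (.sk1 15) 0, .ax (.ef 15 0 1) 3],
  .lem [m 16 1, m 16 4] [.ax (.fact 3) 0, .ax (.far 1 4 16) 3],
  .lem [m 3 2, m 16 2] [.ax (.sk1 16) 0, .ax (.far 3 16 2) 3],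
  .lem [m 5 3, m 16 5] [.ax (.sk1 16) 0, .ax (.far 3 16 5) 3],
  .lem [m 15 0, m 16 0] [.ax (.sk2 16) 0, .ax (.far 15 16 0) 3],
  .lem [m 15 7, m 16 7] [.ax (.sk2 16) 0, .ax (.far 15 16 7) 3],
  .lem [M 16 0, M 16 4, M 16 5, E 16 2] [.ax (.fact 0) 0, .ax (.fact 1) 0, .ax (.fact 2) 0, .ax (.fact 12) 0, .ax (.fact 13) 0, .ax (.fact 14) 0, .ax (.un 0 4 5 2 16) 13],
  .lem [M 16 1, M 16 2, M 16 7, E 16 0] [.ax (.fact 6) 0, .ax (.fact 7) 0, .ax (.fact 8) 0, .ax (.fact 18) 0, .ax (.fact 12) 0, .ax (.fact 19) 0, .ax (.un 1 2 7 0 16) 13],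
  .lem [e 3 2, m 6 2] [.ax (.fact 17) 0, .ax (.em 2 3 6) 3]]

/-- Part of the certificate. -/
def e11 : List Entry := [
  .lem [f 1 0, f 3 1, E 8 4] [.ax (.fact 9) 0, .ax (.fact 16) 0, .ax (.fact 20) 0, .ax (.un 0 1 3 4 8) 13],
  .lem [f 1 0, f 3 1, M 9 3, E 9 4] [.ax (.fact 9) 0, .ax (.fact 16) 0, .ax (.un 0 1 3 4 9) 13],
  .lem [e 8 4, M 9 8] [.ax (.fact 21) 0, .ax (.em 4 8 9) 3],
  .lem [e 9 4] [.ax (.fact 23) 0, .ax (.fact 22) 0, .ax (.em 9 4 10) 3],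
  .lem [f 10 4] [.ax (.fact 21) 0, .ax (.fact 23) 0, .ax (.far 4 10 9) 3],
  .lem [e 10 1] [.ax (.fact 3) 0, .ax (.ef 1 10 4) 3],
  .lem [m 17 4, m 17 5] [.ax (.fact 2) 0, .ax (.far 4 5 17) 3],
  .lem [m 17 1, m 17 4] [.ax (.fact 3) 0, .ax (.far 1 4 17) 3],
  .lem [m 17 1, m 17 7] [.ax (.fact 7) 0, .ax (.far 1 7 17) 3],
  .lem [m 17 5, m 17 11] [.ax (.sk2 11) 0, .ax (.far 5 11 17) 3],
  .lem [m 17 0] [.ax (.sk1 17) 0, .ax (.far 0 17 0) 3],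
  .lem [m 17 6] [.ax (.sk1 17) 0, .ax (.far 0 17 6) 3]]

/-- Part of the certificate. -/
def e12 : List Entry := [
  .lem [m 14 0, m 17 14] [.ax (.sk1 17) 0, .ax (.far 0 17 14) 3],
  .lem [m 17 2] [.ax (.sk2 17) 0, .ax (.far 2 17 2) 3],
  .root (.ax (.refl 17) 0),
  .lem [e 17 2] [.ax (.em 17 2 17) 3],
  .lem [m 3 2, m 17 3] [.ax (.sk2 17) 0, .ax (.far 2 17 3) 3],
  .lem [M 17 4, M 17 5] [.ax (.fact 0) 0, .ax (.fact 1) 0, .ax (.fact 2) 0, .ax (.fact 12) 0, .ax (.fact 13) 0, .ax (.fact 14) 0, .ax (.un 0 4 5 2 17) 13],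
  .lem [M 17 1, M 17 4, E 17 3] [.ax (.fact 3) 0, .ax (.fact 4) 0, .ax (.fact 5) 0, .ax (.fact 15) 0, .ax (.fact 16) 0, .ax (.fact 17) 0, .ax (.un 1 4 6 3 17) 13],
  .lem [M 13 5, M 14 5, M 17 13, M 17 14, E 17 5] [.ax (.sk1 13) 0, .ax (.sk1 14) 0, .ax (.sk2 14) 0, .ax (.fact 14) 0, .ax (.un 2 13 14 5 17) 13],
  .lem [m 18 1, m 18 2] [.ax (.fact 6) 0, .ax (.far 1 2 18) 3],
  .lem [m 18 2, m 18 7] [.ax (.fact 8) 0, .ax (.far 2 7 18) 3],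
  .lem [m 18 2, m 18 11] [.ax (.sk1 11) 0, .ax (.far 2 11 18) 3],
  .lem [m 14 0, m 18 14] [.ax (.sk1 18) 0, .ax (.far 0 18 14) 3]]

/-- Part of the certificate. -/
def e13 : List Entry := [
  .lem [m 17 13, m 18 13] [.ax (.sk2 18) 0, .ax (.far 17 18 13) 3],
  .root (.ax (.skc 17) 0),
  .root (.ax (.skc 18) 0),
  .lem [M 17 1, M 18 1, M 17 5, M 18 5, E 5 1] [.ax (.sk1 17) 0, .ax (.sk1 18) 0, .ax (.sk2 18) 0, .ax (.fact 18) 0, .ax (.un 0 17 18 1 5) 13],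
  .lem [M 13 5, M 14 5, M 18 2, M 18 13, M 18 14, E 18 5] [.ax (.sk1 13) 0, .ax (.sk1 14) 0, .ax (.sk2 14) 0, .ax (.fact 14) 0, .ax (.un 2 13 14 5 18) 13],
  .lem [e 18 5, F 17 5] [.ax (.sk2 18) 0, .ax (.ef 18 5 17) 3],
  .lem [m 19 0, m 19 5] [.ax (.fact 1) 0, .ax (.far 0 5 19) 3],
  .lem [m 19 1, m 19 7] [.ax (.fact 7) 0, .ax (.far 1 7 19) 3],
  .lem [m 19 0, m 19 12] [.ax (.sk1 12) 0, .ax (.far 0 12 19) 3],
  .lem [m 3 2, m 19 3] [.ax (.sk1 19) 0, .ax (.far 2 19 3) 3],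
  .lem [m 6 2, m 19 6] [.ax (.sk1 19) 0, .ax (.far 2 19 6) 3],
  .lem [m 19 9] [.ax (.sk2 19) 0, .ax (.far 9 19 9) 3]]

/-- Part of the certificate. -/
def e14 : List Entry := [
  .lem [m 19 4] [.ax (.sk2 19) 0, .ax (.fact 21) 0, .ax (.far 9 19 4) 3],
  .lem [m 14 9, m 19 14] [.ax (.sk2 19) 0, .ax (.far 9 19 14) 3],
  .lem [M 19 0, M 19 3, M 19 8, E 19 1] [.ax (.fact 9) 0, .ax (.fact 10) 0, .ax (.fact 11) 0, .ax (.fact 18) 0, .ax (.fact 15) 0, .ax (.fact 20) 0, .ax (.un 0 3 8 1 19) 13],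
  .lem [M 19 1, M 19 6, E 19 3] [.ax (.fact 3) 0, .ax (.fact 4) 0, .ax (.fact 5) 0, .ax (.fact 15) 0, .ax (.fact 16) 0, .ax (.fact 17) 0, .ax (.un 1 4 6 3 19) 13],
  .lem [m 20 1, m 20 6] [.ax (.fact 4) 0, .ax (.far 1 6 20) 3],
  .lem [m 20 1, m 20 15] [.ax (.sk1 15) 0, .ax (.far 1 15 20) 3],
  .lem [m 3 2, m 20 2] [.ax (.sk1 20) 0, .ax (.far 3 20 2) 3],
  .lem [m 5 3, m 20 5] [.ax (.sk1 20) 0, .ax (.far 3 20 5) 3],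
  .lem [m 20 9] [.ax (.sk2 20) 0, .ax (.far 9 20 9) 3],
  .lem [m 20 4] [.ax (.sk2 20) 0, .ax (.fact 21) 0, .ax (.far 9 20 4) 3],
  .lem [m 20 10] [.ax (.sk2 20) 0, .ax (.fact 23) 0, .ax (.far 9 20 10) 3],
  .lem [M 20 0, M 20 5, E 20 2] [.ax (.fact 0) 0, .ax (.fact 1) 0, .ax (.fact 2) 0, .ax (.fact 12) 0, .ax (.fact 13) 0, .ax (.fact 14) 0, .ax (.un 0 4 5 2 20) 13]]

/-- Part of the certificate. -/
def e15 : List Entry := [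
  .lem [M 20 1, M 20 2, M 20 7, E 20 0] [.ax (.fact 6) 0, .ax (.fact 7) 0, .ax (.fact 8) 0, .ax (.fact 18) 0, .ax (.fact 12) 0, .ax (.fact 19) 0, .ax (.un 1 2 7 0 20) 13],
  .lem [e 20 0, m 10 0] [.ax (.em 0 20 10) 3],
  .lem [m 21 0, m 21 4] [.ax (.fact 0) 0, .ax (.far 0 4 21) 3],
  .lem [m 21 4, m 21 5] [.ax (.fact 2) 0, .ax (.far 4 5 21) 3],
  .lem [m 21 9, m 21 12] [.ax (.sk2 12) 0, .ax (.far 9 12 21) 3],
  .lem [m 3 2, m 21 3] [.ax (.sk1 21) 0, .ax (.far 2 21 3) 3],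
  .lem [m 6 2, m 21 6] [.ax (.sk1 21) 0, .ax (.far 2 21 6) 3],
  .lem [m 19 1, m 21 1] [.ax (.sk2 21) 0, .ax (.far 19 21 1) 3],
  .lem [m 19 8, m 21 8] [.ax (.sk2 21) 0, .ax (.far 19 21 8) 3],
  .lem [M 21 0, M 21 3, M 21 8, E 21 1] [.ax (.fact 9) 0, .ax (.fact 10) 0, .ax (.fact 11) 0, .ax (.fact 18) 0, .ax (.fact 15) 0, .ax (.fact 20) 0, .ax (.un 0 3 8 1 21) 13],
  .lem [M 21 1, M 21 4, M 21 6, E 21 3] [.ax (.fact 3) 0, .ax (.fact 4) 0, .ax (.fact 5) 0, .ax (.fact 15) 0, .ax (.fact 16) 0, .ax (.fact 17) 0, .ax (.un 1 4 6 3 21) 13],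
  .root (.ax (.skc 19) 0)]

/-- Part of the certificate. -/
def e16 : List Entry := [
  .root (.ax (.skc 21) 0),
  .lem [M 19 5, M 21 5, M 9 2, M 21 9] [.ax (.sk1 19) 0, .ax (.sk1 21) 0, .ax (.sk2 21) 0, .ax (.fact 14) 0, .ax (.un 2 19 21 5 9) 13],
  .lem [m 22 1, m 22 4] [.ax (.fact 3) 0, .ax (.far 1 4 22) 3],
  .lem [m 22 4, m 22 6] [.ax (.fact 5) 0, .ax (.far 4 6 22) 3],
  .lem [m 22 3] [.ax (.sk1 22) 0, .ax (.far 3 22 3) 3],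
  .lem [m 3 2, m 22 2] [.ax (.sk1 22) 0, .ax (.far 3 22 2) 3],
  .lem [m 5 3, m 22 5] [.ax (.sk1 22) 0, .ax (.far 3 22 5) 3],
  .root (.ax (.refl 10) 0),
  .lem [m 22 10] [.ax (.sk2 22) 0, .ax (.far 10 22 10) 3],
  .lem [m 10 0, m 22 0] [.ax (.sk2 22) 0, .ax (.far 10 22 0) 3],
  .lem [M 22 0, M 22 4, M 22 5, E 22 2] [.ax (.fact 0) 0, .ax (.fact 1) 0, .ax (.fact 2) 0, .ax (.fact 12) 0, .ax (.fact 13) 0, .ax (.fact 14) 0, .ax (.un 0 4 5 2 22) 13],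
  .lem [M 22 1, M 22 2, M 22 7, E 22 0] [.ax (.fact 6) 0, .ax (.fact 7) 0, .ax (.fact 8) 0, .ax (.fact 18) 0, .ax (.fact 12) 0, .ax (.fact 19) 0, .ax (.un 1 2 7 0 22) 13]]

/-- Part of the certificate. -/
def e17 : List Entry := [
  .lem [m 23 1, m 23 4] [.ax (.fact 3) 0, .ax (.far 1 4 23) 3],
  .lem [m 23 4, m 23 6] [.ax (.fact 5) 0, .ax (.far 4 6 23) 3],
  .lem [m 23 9, m 23 15] [.ax (.sk2 15) 0, .ax (.far 9 15 23) 3],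
  .lem [m 23 10, m 23 22] [.ax (.sk2 22) 0, .ax (.far 10 22 23) 3],
  .lem [m 3 2, m 23 2] [.ax (.sk1 23) 0, .ax (.far 3 23 2) 3],
  .lem [m 5 3, m 23 5] [.ax (.sk1 23) 0, .ax (.far 3 23 5) 3],
  .lem [m 20 0, m 23 0] [.ax (.sk2 23) 0, .ax (.far 20 23 0) 3],
  .lem [m 20 7, m 23 7] [.ax (.sk2 23) 0, .ax (.far 20 23 7) 3],
  .lem [M 23 0, M 23 4, M 23 5, E 23 2] [.ax (.fact 0) 0, .ax (.fact 1) 0, .ax (.fact 2) 0, .ax (.fact 12) 0, .ax (.fact 13) 0, .ax (.fact 14) 0, .ax (.un 0 4 5 2 23) 13],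
  .lem [M 23 1, M 23 2, M 23 7, E 23 0] [.ax (.fact 6) 0, .ax (.fact 7) 0, .ax (.fact 8) 0, .ax (.fact 18) 0, .ax (.fact 12) 0, .ax (.fact 19) 0, .ax (.un 1 2 7 0 23) 13],
  .root (.ax (.skc 20) 0),
  .root (.ax (.skc 23) 0)]

/-- Part of the certificate. -/
def e18 : List Entry := [
  .lem [M 20 6, M 23 6, M 9 3, M 23 9] [.ax (.sk1 20) 0, .ax (.sk1 23) 0, .ax (.sk2 23) 0, .ax (.fact 17) 0, .ax (.un 3 20 23 6 9) 13],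
  .lem [M 20 6, M 23 6, M 10 3, M 23 10, E 10 6] [.ax (.sk1 20) 0, .ax (.sk1 23) 0, .ax (.sk2 23) 0, .ax (.fact 17) 0, .ax (.un 3 20 23 6 10) 13],
  .lem [M 20 6, M 23 6, M 22 20, M 23 22, E 22 6] [.ax (.sk1 20) 0, .ax (.sk1 23) 0, .ax (.sk2 23) 0, .ax (.fact 17) 0, .ax (.un 3 20 23 6 22) 13],
  .lem [m 24 0, m 24 4] [.ax (.fact 0) 0, .ax (.far 0 4 24) 3],
  .lem [m 24 4, m 24 6] [.ax (.fact 5) 0, .ax (.far 4 6 24) 3],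
  .lem [m 24 13, m 24 14] [.ax (.sk2 14) 0, .ax (.far 13 14 24) 3],
  .lem [m 24 2, m 24 17] [.ax (.sk2 17) 0, .ax (.far 2 17 24) 3],
  .root (.ax (.refl 5) 0),
  .lem [m 24 5] [.ax (.sk1 24) 0, .ax (.far 5 24 5) 3],
  .lem [m 24 1] [.ax (.sk1 24) 0, .ax (.far 5 24 1) 3],
  .root (.ax (.refl 24) 0),
  .lem [e 24 1] [.ax (.em 24 1 24) 3]]

/-- Part of the certificate. -/
def e19 : List Entry := [
  .lem [m 5 3, m 24 3] [.ax (.sk1 24) 0, .ax (.far 5 24 3) 3],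
  .lem [m 18 5, m 24 18] [.ax (.sk1 24) 0, .ax (.far 5 24 18) 3],
  .lem [m 24 10] [.ax (.sk2 24) 0, .ax (.far 10 24 10) 3],
  .lem [m 10 0, m 24 0] [.ax (.sk2 24) 0, .ax (.far 10 24 0) 3],
  .lem [m 10 6, m 24 6] [.ax (.sk2 24) 0, .ax (.far 10 24 6) 3],
  .lem [m 10 8, m 24 8] [.ax (.sk2 24) 0, .ax (.far 10 24 8) 3],
  .lem [m 24 9] [.ax (.sk2 24) 0, .ax (.fact 23) 0, .ax (.far 10 24 9) 3],
  .lem [m 23 10, m 24 23] [.ax (.sk2 24) 0, .ax (.far 10 24 23) 3],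
  .lem [M 24 0, M 24 3, M 24 8] [.ax (.fact 9) 0, .ax (.fact 10) 0, .ax (.fact 11) 0, .ax (.fact 18) 0, .ax (.fact 15) 0, .ax (.fact 20) 0, .ax (.un 0 3 8 1 24) 13],
  .lem [M 24 0, M 24 4, E 24 2] [.ax (.fact 0) 0, .ax (.fact 1) 0, .ax (.fact 2) 0, .ax (.fact 12) 0, .ax (.fact 13) 0, .ax (.fact 14) 0, .ax (.un 0 4 5 2 24) 13],
  .lem [f 17 5, M 24 0, M 24 17, E 24 2] [.ax (.fact 1) 0, .ax (.sk1 17) 0, .ax (.fact 12) 0, .ax (.fact 14) 0, .ax (.un 0 5 17 2 24) 13],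
  .lem [M 24 2, M 24 7, E 24 0] [.ax (.fact 6) 0, .ax (.fact 7) 0, .ax (.fact 8) 0, .ax (.fact 18) 0, .ax (.fact 12) 0, .ax (.fact 19) 0, .ax (.un 1 2 7 0 24) 13]]

/-- Part of the certificate. -/
def e20 : List Entry := [
  .lem [M 24 4, M 24 6, E 24 3] [.ax (.fact 3) 0, .ax (.fact 4) 0, .ax (.fact 5) 0, .ax (.fact 15) 0, .ax (.fact 16) 0, .ax (.fact 17) 0, .ax (.un 1 4 6 3 24) 13],
  .lem [M 20 6, M 23 6, M 24 3, M 24 20, M 24 23, E 24 6] [.ax (.sk1 20) 0, .ax (.sk1 23) 0, .ax (.sk2 23) 0, .ax (.fact 17) 0, .ax (.un 3 20 23 6 24) 13],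
  .lem [m 25 2, m 25 14] [.ax (.sk1 14) 0, .ax (.far 2 14 25) 3],
  .lem [m 25 2, m 25 19] [.ax (.sk1 19) 0, .ax (.far 2 19 25) 3],
  .lem [m 25 1] [.ax (.sk1 25) 0, .ax (.far 5 25 1) 3],
  .root (.ax (.refl 7) 0),
  .lem [m 25 7] [.ax (.sk2 25) 0, .ax (.far 7 25 7) 3],
  .lem [M 25 2, E 25 0] [.ax (.fact 6) 0, .ax (.fact 7) 0, .ax (.fact 8) 0, .ax (.fact 18) 0, .ax (.fact 12) 0, .ax (.fact 19) 0, .ax (.un 1 2 7 0 25) 13],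
  .lem [e 25 0, F 7 0] [.ax (.sk2 25) 0, .ax (.ef 25 0 7) 3],
  .lem [e 19 1, F 9 1] [.ax (.sk2 19) 0, .ax (.ef 19 1 9) 3],
  .lem [M 17 7, M 18 7, M 11 0, M 17 11, M 18 11, E 11 7] [.ax (.sk1 17) 0, .ax (.sk1 18) 0, .ax (.sk2 18) 0, .ax (.fact 19) 0, .ax (.un 0 17 18 7 11) 13],
  .lem [e 11 7, F 7 5] [.ax (.sk2 11) 0, .ax (.ef 11 7 5) 3]]

/-- Part of the certificate. -/
def e21 : List Entry := [
  .root (.ax (.skc 25) 0),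
  .lem [f 7 5, M 14 5, M 14 7, M 25 14, M 19 5, M 19 7, M 25 19, E 19 14] [.ax (.sk1 25) 0, .ax (.sk2 25) 0, .ax (.un 5 7 25 14 19) 13],
  .lem [M 17 1, M 18 1, M 24 0, M 24 17, M 24 18] [.ax (.sk1 17) 0, .ax (.sk1 18) 0, .ax (.sk2 18) 0, .ax (.fact 18) 0, .ax (.un 0 17 18 1 24) 13],
  .lem [m 26 1, m 26 6] [.ax (.fact 4) 0, .ax (.far 1 6 26) 3],
  .lem [m 26 10, m 26 13] [.ax (.sk2 13) 0, .ax (.far 10 13 26) 3],
  .lem [m 3 2, m 26 2] [.ax (.sk1 26) 0, .ax (.far 3 26 2) 3],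
  .lem [m 22 7, m 26 7] [.ax (.sk2 26) 0, .ax (.far 22 26 7) 3],
  .lem [m 22 20, m 26 20] [.ax (.sk2 26) 0, .ax (.far 22 26 20) 3],
  .lem [M 26 1, M 26 2, M 26 7, E 26 0] [.ax (.fact 6) 0, .ax (.fact 7) 0, .ax (.fact 8) 0, .ax (.fact 18) 0, .ax (.fact 12) 0, .ax (.fact 19) 0, .ax (.un 1 2 7 0 26) 13],
  .root (.ax (.skc 22) 0),
  .root (.ax (.skc 26) 0),
  .lem [M 22 6, M 26 6, M 10 3, M 26 10, E 10 6] [.ax (.sk1 22) 0, .ax (.sk1 26) 0, .ax (.sk2 26) 0, .ax (.fact 17) 0, .ax (.un 3 22 26 6 10) 13]]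

/-- Part of the certificate. -/
def e22 : List Entry := [
  .lem [m 27 10, m 27 13] [.ax (.sk2 13) 0, .ax (.far 10 13 27) 3],
  .lem [m 27 2, m 27 14] [.ax (.sk1 14) 0, .ax (.far 2 14 27) 3],
  .lem [m 27 9, m 27 15] [.ax (.sk2 15) 0, .ax (.far 9 15 27) 3],
  .lem [m 27 1] [.ax (.sk1 27) 0, .ax (.far 5 27 1) 3],
  .root (.ax (.refl 27) 0),
  .lem [e 27 1] [.ax (.em 27 1 27) 3],
  .lem [m 5 3, m 27 3] [.ax (.sk1 27) 0, .ax (.far 5 27 3) 3],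
  .lem [m 24 4, m 27 4] [.ax (.sk2 27) 0, .ax (.far 24 27 4) 3],
  .lem [m 24 7, m 27 7] [.ax (.sk2 27) 0, .ax (.far 24 27 7) 3],
  .lem [m 24 8, m 27 8] [.ax (.sk2 27) 0, .ax (.far 24 27 8) 3],
  .lem [m 24 20, m 27 20] [.ax (.sk2 27) 0, .ax (.far 24 27 20) 3],
  .lem [M 27 0, M 27 3, M 27 8] [.ax (.fact 9) 0, .ax (.fact 10) 0, .ax (.fact 11) 0, .ax (.fact 18) 0, .ax (.fact 15) 0, .ax (.fact 20) 0, .ax (.un 0 3 8 1 27) 13]]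

/-- Part of the certificate. -/
def e23 : List Entry := [
  .lem [M 27 2, M 27 7, E 27 0] [.ax (.fact 6) 0, .ax (.fact 7) 0, .ax (.fact 8) 0, .ax (.fact 18) 0, .ax (.fact 12) 0, .ax (.fact 19) 0, .ax (.un 1 2 7 0 27) 13],
  .lem [M 27 4, M 27 6, E 27 3] [.ax (.fact 3) 0, .ax (.fact 4) 0, .ax (.fact 5) 0, .ax (.fact 15) 0, .ax (.fact 16) 0, .ax (.fact 17) 0, .ax (.un 1 4 6 3 27) 13],
  .root (.ax (.skc 15) 0),
  .lem [f 15 7, M 15 0, M 27 7, M 27 15, E 27 0] [.ax (.fact 7) 0, .ax (.sk1 15) 0, .ax (.fact 18) 0, .ax (.fact 19) 0, .ax (.un 1 7 15 0 27) 13],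
  .root (.ax (.skc 24) 0),
  .root (.ax (.skc 27) 0),
  .lem [M 27 9, M 10 5, M 27 10, E 10 9] [.ax (.sk1 24) 0, .ax (.sk1 27) 0, .ax (.sk2 27) 0, .ax (.un 5 24 27 9 10) 13],
  .lem [M 27 9, M 14 5, M 24 14, M 27 14, E 14 9] [.ax (.sk1 24) 0, .ax (.sk1 27) 0, .ax (.sk2 27) 0, .ax (.un 5 24 27 9 14) 13],
  .lem [e 10 9] [.ax (.fact 21) 0, .ax (.fact 22) 0, .ax (.em 9 10 4) 3],
  .lem [e 14 9, M 14 4] [.ax (.fact 21) 0, .ax (.em 9 14 4) 3],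
  .lem [M 27 9, M 13 5, M 24 13, M 27 13] [.ax (.sk1 24) 0, .ax (.sk1 27) 0, .ax (.sk2 27) 0, .ax (.un 5 24 27 9 13) 13],
  .lem [M 19 5, M 21 5, M 12 2, M 19 12, M 21 12, E 12 5] [.ax (.sk1 19) 0, .ax (.sk1 21) 0, .ax (.sk2 21) 0, .ax (.fact 14) 0, .ax (.un 2 19 21 5 12) 13]]

/-- Part of the certificate. -/
def e24 : List Entry := [
  .lem [M 20 6, M 23 6, M 15 3, M 20 15, M 23 15, E 15 6] [.ax (.sk1 20) 0, .ax (.sk1 23) 0, .ax (.sk2 23) 0, .ax (.fact 17) 0, .ax (.un 3 20 23 6 15) 13],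
  .lem [e 13 1, F 10 1] [.ax (.sk2 13) 0, .ax (.ef 13 1 10) 3],
  .lem [e 10 6] [.ax (.fact 5) 0, .ax (.ef 6 10 4) 3],
  .lem [f 1 0, f 3 1] [.lm 115 2, .lm 114 2, .lm 113 1, .lm 189 2],
  .lem [e 3 2] [.lm 172 1, .lm 117 1, .lm 182 1, .lm 171 1, .lm 0 2],
  .lem [M 5 3] [.lm 184 2],
  .lem [M 6 2] [.lm 180 2],
  .lem [f 1 0] [.lm 169 2],
  .lem [m 11 3] [.lm 175 2],
  .lem [m 16 5] [.lm 122 2],
  .lem [m 20 5] [.lm 85 2],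
  .lem [m 22 5] [.lm 68 2]]

/-- Part of the certificate. -/
def e25 : List Entry := [
  .lem [m 23 5] [.lm 59 2],
  .lem [m 24 3] [.lm 47 2],
  .lem [m 27 3] [.lm 16 2],
  .lem [m 11 6] [.lm 177 2],
  .lem [m 13 6] [.lm 159 2],
  .lem [m 14 6] [.lm 144 2],
  .lem [m 19 6] [.lm 92 2],
  .lem [m 21 6] [.lm 77 2],
  .lem [e 5 1] [.lm 186 2],
  .lem [e 15 0] [.lm 125 2],
  .lem [e 11 3] [.ax (.em 11 3 11) 3],
  .lem [e 24 3] [.ax (.em 24 3 24) 3]]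

/-- Part of the certificate. -/
def e26 : List Entry := [
  .lem [e 27 3] [.ax (.em 27 3 27) 3],
  .lem [M 11 4] [.lm 173 3],
  .lem [m 11 0] [.lm 178 2],
  .lem [M 11 8] [.lm 174 3],
  .lem [m 8 2] [.lm 176 2],
  .lem [M 3 2] [.lm 187 2],
  .lem [m 13 3] [.lm 160 2],
  .lem [m 14 3] [.lm 145 2],
  .lem [m 16 2] [.lm 123 2],
  .lem [m 17 3] [.lm 108 2],
  .lem [m 19 3] [.lm 93 2],
  .lem [m 20 2] [.lm 86 2]]

/-- Part of the certificate. -/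
def e27 : List Entry := [
  .lem [m 21 3] [.lm 78 2],
  .lem [m 22 2] [.lm 69 2],
  .lem [m 23 2] [.lm 60 2],
  .lem [m 26 2] [.lm 24 2],
  .lem [e 24 2] [.ax (.em 2 24 3) 3],
  .lem [e 13 3] [.ax (.em 13 3 13) 3],
  .root (.ax (.refl 14) 0),
  .lem [e 14 3] [.ax (.em 14 3 14) 3],
  .root (.ax (.refl 16) 0),
  .lem [e 16 2] [.ax (.em 16 2 16) 3],
  .lem [e 17 3] [.ax (.em 17 3 17) 3],
  .lem [e 17 5] [.ax (.em 5 17 3) 3]]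

/-- Part of the certificate. -/
def e28 : List Entry := [
  .root (.ax (.refl 19) 0),
  .lem [e 19 3] [.ax (.em 19 3 19) 3],
  .root (.ax (.refl 20) 0),
  .lem [e 20 2] [.ax (.em 20 2 20) 3],
  .root (.ax (.refl 21) 0),
  .lem [e 21 3] [.ax (.em 21 3 21) 3],
  .root (.ax (.refl 22) 0),
  .lem [e 22 2] [.ax (.em 22 2 22) 3],
  .root (.ax (.refl 23) 0),
  .lem [e 23 2] [.ax (.em 23 2 23) 3],
  .lem [M 19 1] [.lm 89 3],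
  .lem [M 20 0] [.lm 84 3]]

/-- Part of the certificate. -/
def e29 : List Entry := [
  .lem [m 19 7] [.lm 95 2],
  .lem [m 21 1] [.lm 76 2],
  .lem [m 23 0] [.lm 58 2],
  .lem [e 21 1] [.ax (.em 21 1 21) 3],
  .lem [M 21 4] [.lm 73 4],
  .lem [e 23 0] [.ax (.em 23 0 23) 3],
  .lem [M 23 4] [.lm 56 4],
  .lem [m 21 0] [.lm 81 2],
  .lem [m 21 5] [.lm 80 2],
  .lem [m 23 1] [.lm 64 2],
  .lem [m 23 6] [.lm 63 2],
  .lem [M 21 8] [.lm 74 4]]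

/-- Part of the certificate. -/
def e30 : List Entry := [
  .lem [M 23 7] [.lm 55 4],
  .lem [m 19 8] [.lm 75 2],
  .lem [m 20 7] [.lm 57 2],
  .lem [M 14 9, M 9 2, M 13 5] [.lm 138 1, .lm 149 0, .lm 148 0, .lm 127 0, .lm 139 0, .lm 163 1, .lm 143 0, .lm 152 4],
  .root (.ax (.refl 12) 0),
  .lem [m 14 4, M 14 12, M 10 6, m 10 5] [.lm 137 0, .lm 157 1, .lm 149 1, .lm 143 0, .lm 154 0, .lm 153 0, .lm 162 1, .lm 158 0, .lm 138 2, .lm 180 2, .lm 169 0, .lm 152 1, .lm 167 1, .ax (.em 12 3 12) 3],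
  .lem [M 9 2, M 10 6, m 10 5] [.lm 138 0, .lm 158 1, .lm 191 0, .lm 1 0, .lm 148 1, .lm 0 0, .lm 141 0, .lm 145 0, .ax (.far 1 9 14) 0, .lm 154 1, .lm 33 0, .lm 165 0, .lm 92 0, .lm 98 1, .lm 96 1, .lm 74 3, .lm 81 1, .lm 5 2, .lm 170 0, .lm 168 1, .ax (.em 12 3 12) 2, .lm 166 1, .lm 153 0, .lm 187 2, .lm 181 0, .lm 157 1, .ax (.far 1 10 1) 0, .lm 156 3, .lm 3 2],
  .lem [m 9 2] [.ax (.far 2 9 2) 0, .lm 137 1, .lm 132 0, .lm 135 1, .lm 136 0, .lm 123 1, .lm 124 1, .ax (.em 16 0 16) 0, .lm 122 1, .lm 121 0, .lm 127 2],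
  .lem [M 9 7] [.lm 184 2],
  .lem [f 10 7] [.lm 131 2],
  .lem [e 10 2] [.lm 173 2],
  .lem [m 19 0, m 10 5] [.lm 192 0, .lm 0 1, .lm 47 1, .lm 40 0, .lm 54 0, .lm 44 2, .lm 46 0, .lm 188 1, .lm 167 0, .lm 169 0, .lm 171 1, .lm 139 0, .lm 99 1, .lm 97 1, .lm 75 3, .lm 6 4, .lm 82 2]]

/-- Part of the certificate. -/
def e31 : List Entry := [
  .lem [m 10 5] [.lm 193 0, .lm 160 1, .lm 140 0, .lm 3 0, .lm 1 1, .lm 150 1, .lm 48 1, .lm 41 0, .lm 55 0, .lm 45 2, .lm 47 0, .lm 189 1, .lm 168 0, .lm 170 0, .lm 172 1, .lm 0 0, .lm 94 3, .lm 35 1, .ax (.far 1 9 14) 1, .lm 143 1, .lm 152 1, .lm 146 0, .lm 141 3, .lm 157 0, .lm 165 2],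
  .lem [M 10 0] [.lm 187 3],
  .lem [m 10 3] [.lm 192 2],
  .lem [m 13 0] [.lm 162 2],
  .lem [e 20 0] [.lm 86 2],
  .lem [m 22 0] [.lm 71 2],
  .lem [m 24 0] [.lm 49 2],
  .lem [f 13 1] [.lm 130 3],
  .lem [M 20 1] [.lm 87 4],
  .lem [e 22 0] [.ax (.em 22 0 22) 3],
  .lem [M 22 4] [.lm 70 4],
  .lem [e 24 0] [.ax (.em 24 0 24) 3]]

/-- Part of the certificate. -/
def e32 : List Entry := [
  .lem [M 24 8] [.lm 45 3],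
  .lem [M 24 4] [.lm 44 3],
  .lem [e 14 1] [.lm 135 2],
  .lem [m 20 6] [.lm 92 2],
  .lem [m 20 15] [.lm 91 2],
  .lem [m 22 1] [.lm 75 2],
  .lem [m 22 6] [.lm 74 2],
  .lem [m 27 8] [.lm 17 2],
  .lem [m 24 6] [.lm 54 2],
  .lem [m 27 4] [.lm 19 2],
  .lem [M 23 10] [.lm 57 5],
  .lem [M 22 7] [.lm 69 4]]

/-- Part of the certificate. -/
def e33 : List Entry := [
  .lem [e 22 6] [.ax (.em 22 6 22) 3],
  .lem [M 27 0] [.lm 15 3],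
  .lem [e 24 6] [.ax (.em 24 6 24) 3],
  .lem [M 27 6] [.lm 13 3],
  .lem [m 23 22] [.lm 65 2],
  .lem [m 24 23] [.lm 46 2],
  .lem [m 26 7] [.lm 27 2],
  .lem [M 24 20] [.lm 40 6],
  .lem [M 22 20] [.lm 56 5],
  .lem [m 27 20] [.lm 16 2],
  .lem [m 26 20] [.lm 26 2],
  .lem [e 27 0] [.ax (.em 0 27 20) 3]]

/-- Part of the certificate. -/
def e34 : List Entry := [
  .lem [e 26 0] [.ax (.em 0 26 20) 3],
  .lem [M 26 1] [.lm 25 4],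
  .lem [m 26 6] [.lm 30 2],
  .lem [M 26 10] [.lm 24 5],
  .lem [m 26 13] [.lm 29 2],
  .lem [e 13 1] [.ax (.em 1 13 26) 3],
  .lem [M 13 8] [.lm 158 4],
  .lem [m 14 8] [.lm 145 2],
  .lem [M 14 0] [.lm 144 4],
  .lem [m 14 4] [.lm 154 2],
  .lem [m 14 5] [.lm 153 2],
  .lem [m 17 14] [.lm 113 2]]

/-- Part of the certificate. -/
def e35 : List Entry := [
  .lem [m 18 14] [.lm 105 2],
  .lem [M 14 1] [.lm 143 4],
  .lem [e 14 9] [.lm 9 2],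
  .lem [m 14 7] [.lm 151 2],
  .lem [m 13 1] [.lm 147 2],
  .lem [M 13 4] [.lm 156 4],
  .lem [m 13 5] [.lm 166 2],
  .lem [M 14 9] [.lm 3 3],
  .lem [M 17 13] [.lm 109 5],
  .lem [m 19 14] [.lm 95 2],
  .lem [f 9 1] [.ax (.far 1 9 14) 3],
  .lem [m 18 13] [.lm 104 2]]

/-- Part of the certificate. -/
def e36 : List Entry := [
  .lem [e 19 14] [.ax (.em 19 14 19) 3],
  .lem [e 19 1] [.lm 35 2],
  .lem [M 19 0] [.lm 94 4],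
  .lem [m 19 5] [.lm 100 2],
  .lem [m 19 12] [.lm 98 2],
  .lem [M 21 9] [.lm 76 4],
  .lem [m 21 12] [.lm 83 2],
  .lem [M 17 5, M 18 5, M 18 1] [.lm 111 0, .lm 103 0, .lm 116 2],
  .lem [m 17 5, m 27 7] [.lm 19 0, .lm 43 0, .lm 53 1, .lm 44 0, .lm 102 0, .lm 103 2, .lm 107 1, .lm 108 1, .ax (.far 0 7 27) 0, .lm 37 0, .lm 38 0, .lm 39 1, .lm 40 1, .lm 33 0, .lm 34 0, .lm 118 0, .lm 115 1, .lm 111 0, .lm 35 0, .lm 116 2],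
  .lem [m 27 7] [.lm 20 0, .lm 44 0, .lm 54 1, .lm 45 0, .lm 103 0, .lm 104 2, .lm 110 0, .lm 0 0, .lm 113 0, .lm 1 1, .lm 118 0, .lm 52 1, .lm 33 5],
  .lem [M 27 2] [.lm 16 3],
  .lem [m 27 14] [.lm 24 2]]

/-- Part of the certificate. -/
def e37 : List Entry := [
  .lem [M 27 9, M 27 13] [.lm 10 2, .lm 12 2, .lm 55 2],
  .lem [M 15 0, M 27 15] [.lm 140 1, .lm 15 0, .lm 137 2],
  .lem [m 9 3] [.ax (.far 3 9 3) 0, .lm 175 1, .lm 173 0, .ax (.em 5 12 3) 0, .lm 174 0, .lm 11 2, .lm 176 2],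
  .lem [M 23 9] [.lm 62 4],
  .lem [m 23 15] [.lm 70 2],
  .lem [M 27 15] [.ax (.em 6 15 27) 0, .lm 0 0, .lm 10 2, .lm 143 2],
  .lem [m 27 9] [.lm 25 2],
  .lem [M 27 10] [.lm 15 4],
  .lem [M 27 13] [.lm 1 2],
  .lem [] [.lm 27 2]]

/-- The certificate. -/
def cert : List Entry :=
  e0 ++ (e1 ++ (e2 ++ (e3 ++ (e4 ++ (e5 ++ (e6 ++ (e7 ++ (e8 ++ (e9 ++ (e10 ++ (e11 ++ (e12 ++ (e13 ++ (e14 ++ (e15 ++ (e16 ++ (e17 ++ (e18 ++ (e19 ++ (e20 ++ (e21 ++ (e22 ++ (e23 ++ (e24 ++ (e25 ++ (e26 ++ (e27 ++ (e28 ++ (e29 ++ (e30 ++ (e31 ++ (e32 ++ (e33 ++ (e34 ++ (e35 ++ (e36 ++ (e37)))))))))))))))))))))))))))))))))))))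

theorem cert_ok : (bif okPs ctx.b ctx.ps then (bif Nat.blt 0 ctx.b then check ctx cert 0 [] else false)
    else false) = true := by decide +kernel

theorem config {V : Type*} {m : V → V → Prop} {C : V → Prop}
    (hrefl : ∀ x, m x x) (hsymm : ∀ x y, m x y → m y x)
    (hT : ∀ x y, ∃ z, C z ∧ Far m z x ∧ Far m z y)
    (hU : ∀ a b d, C a → C b → C d → Far m a b → Far m a d → Far m b d → ∀ x y,
      ¬ m a x → ¬ m b x → ¬ m d x → ¬ m a y → ¬ m b y → ¬ m d y → x = y)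
    (t z z1 t1 c c1 c2 r r1 g h : V)
    (h0 : Far m c t)
    (h1 : Far m c1 t)
    (h2 : Far m c1 c)
    (h3 : Far m c z)
    (h4 : Far m c2 z)
    (h5 : Far m c2 c)
    (h6 : Far m z1 z)
    (h7 : Far m r z)
    (h8 : Far m r z1)
    (h9 : Far m t1 t)
    (h10 : Far m r1 t)
    (h11 : Far m r1 t1)
    (h12 : ¬ m z1 t)
    (h13 : ¬ m c z1)
    (h14 : ¬ m c1 z1)
    (h15 : ¬ m t1 z)
    (h16 : ¬ m c t1)
    (h17 : ¬ m c2 t1)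
    (h18 : ¬ m z t)
    (h19 : ¬ m r t)
    (h20 : ¬ m r1 z)
    (h21 : m g c)
    (h22 : ¬ m h c)
    (h23 : m h g)
    (h24 : C t)
    (h25 : C z)
    (h26 : C z1)
    (h27 : C t1)
    (h28 : C c)
    (h29 : C c1)
    (h30 : C c2)
    (h31 : C r)
    (h32 : C r1)
    : False := by
  let base : Nat → V := fun n => match n with
    | 0 => t
    | 1 => z
    | 2 => z1
    | 3 => t1
    | 4 => c
    | 5 => c1
    | 6 => c2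
    | 7 => r
    | 8 => r1
    | 9 => g
    | 10 => h
    | _ => t
  refine refute ctx cert cert_ok hrefl hsymm hT hU base ?_
  intro p hp
  have p0 : p 0 = t := hp 0 (by decide)
  have p1 : p 1 = z := hp 1 (by decide)
  have p2 : p 2 = z1 := hp 2 (by decide)
  have p3 : p 3 = t1 := hp 3 (by decide)
  have p4 : p 4 = c := hp 4 (by decide)
  have p5 : p 5 = c1 := hp 5 (by decide)
  have p6 : p 6 = c2 := hp 6 (by decide)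
  have p7 : p 7 = r := hp 7 (by decide)
  have p8 : p 8 = r1 := hp 8 (by decide)
  have p9 : p 9 = g := hp 9 (by decide)
  have p10 : p 10 = h := hp 10 (by decide)
  have key : ∀ cl ∈ facts, CHolds m C p cl := by
    unfold facts
    intro cl hcl
    simp only [List.mem_cons, List.not_mem_nil, or_false] at hcl
    rcases hcl with rfl | rfl | rfl | rfl | rfl | rfl | rfl | rfl | rfl | rfl | rfl | rfl | rfl | rfl | rfl | rfl | rfl | rfl | rfl | rfl | rfl | rfl | rfl | rfl | rfl | rfl | rfl | rfl | rfl | rfl | rfl | rfl | rfl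
    · exact ⟨_, List.mem_cons_self, show Far m (p 4) (p 0) by rw [p0, p4]; exact h0⟩
    · exact ⟨_, List.mem_cons_self, show Far m (p 5) (p 0) by rw [p0, p5]; exact h1⟩
    · exact ⟨_, List.mem_cons_self, show Far m (p 5) (p 4) by rw [p4, p5]; exact h2⟩
    · exact ⟨_, List.mem_cons_self, show Far m (p 4) (p 1) by rw [p1, p4]; exact h3⟩
    · exact ⟨_, List.mem_cons_self, show Far m (p 6) (p 1) by rw [p1, p6]; exact h4⟩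
    · exact ⟨_, List.mem_cons_self, show Far m (p 6) (p 4) by rw [p4, p6]; exact h5⟩
    · exact ⟨_, List.mem_cons_self, show Far m (p 2) (p 1) by rw [p1, p2]; exact h6⟩
    · exact ⟨_, List.mem_cons_self, show Far m (p 7) (p 1) by rw [p1, p7]; exact h7⟩
    · exact ⟨_, List.mem_cons_self, show Far m (p 7) (p 2) by rw [p2, p7]; exact h8⟩
    · exact ⟨_, List.mem_cons_self, show Far m (p 3) (p 0) by rw [p0, p3]; exact h9⟩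
    · exact ⟨_, List.mem_cons_self, show Far m (p 8) (p 0) by rw [p0, p8]; exact h10⟩
    · exact ⟨_, List.mem_cons_self, show Far m (p 8) (p 3) by rw [p3, p8]; exact h11⟩
    · exact ⟨_, List.mem_cons_self, show ¬ m (p 2) (p 0) by rw [p0, p2]; exact h12⟩
    · exact ⟨_, List.mem_cons_self, show ¬ m (p 4) (p 2) by rw [p2, p4]; exact h13⟩
    · exact ⟨_, List.mem_cons_self, show ¬ m (p 5) (p 2) by rw [p2, p5]; exact h14⟩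
    · exact ⟨_, List.mem_cons_self, show ¬ m (p 3) (p 1) by rw [p1, p3]; exact h15⟩
    · exact ⟨_, List.mem_cons_self, show ¬ m (p 4) (p 3) by rw [p3, p4]; exact h16⟩
    · exact ⟨_, List.mem_cons_self, show ¬ m (p 6) (p 3) by rw [p3, p6]; exact h17⟩
    · exact ⟨_, List.mem_cons_self, show ¬ m (p 1) (p 0) by rw [p0, p1]; exact h18⟩
    · exact ⟨_, List.mem_cons_self, show ¬ m (p 7) (p 0) by rw [p0, p7]; exact h19⟩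
    · exact ⟨_, List.mem_cons_self, show ¬ m (p 8) (p 1) by rw [p1, p8]; exact h20⟩
    · exact ⟨_, List.mem_cons_self, show m (p 9) (p 4) by rw [p4, p9]; exact h21⟩
    · exact ⟨_, List.mem_cons_self, show ¬ m (p 10) (p 4) by rw [p4, p10]; exact h22⟩
    · exact ⟨_, List.mem_cons_self, show m (p 10) (p 9) by rw [p9, p10]; exact h23⟩
    · exact ⟨_, List.mem_cons_self, show C (p 0) ∧ C (p 0) by rw [p0]; exact ⟨h24, h24⟩⟩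
    · exact ⟨_, List.mem_cons_self, show C (p 1) ∧ C (p 1) by rw [p1]; exact ⟨h25, h25⟩⟩
    · exact ⟨_, List.mem_cons_self, show C (p 2) ∧ C (p 2) by rw [p2]; exact ⟨h26, h26⟩⟩
    · exact ⟨_, List.mem_cons_self, show C (p 3) ∧ C (p 3) by rw [p3]; exact ⟨h27, h27⟩⟩
    · exact ⟨_, List.mem_cons_self, show C (p 4) ∧ C (p 4) by rw [p4]; exact ⟨h28, h28⟩⟩
    · exact ⟨_, List.mem_cons_self, show C (p 5) ∧ C (p 5) by rw [p5]; exact ⟨h29, h29⟩⟩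
    · exact ⟨_, List.mem_cons_self, show C (p 6) ∧ C (p 6) by rw [p6]; exact ⟨h30, h30⟩⟩
    · exact ⟨_, List.mem_cons_self, show C (p 7) ∧ C (p 7) by rw [p7]; exact ⟨h31, h31⟩⟩
    · exact ⟨_, List.mem_cons_self, show C (p 8) ∧ C (p 8) by rw [p8]; exact ⟨h32, h32⟩⟩
  exact key

end Pool.Agent.Star.FO.CertB
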