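import Pool.Agent.Star.FO.Check

/-! Certificate `CertJ` (computer generated). -/

set_option autoImplicit false
set_option maxRecDepth 100000

namespace Pool.Agent.Star.FO.CertJ

/-- Literal `m`. -/
def M (i j : Nat) : Lit := .mk .mp i j
/-- Literal `not m`. -/
def m (i j : Nat) : Lit := .mk .mn i j
/-- Literal `=`. -/
def E (i j : Nat) : Lit := .mk .ep i j
/-- Literal `not =`. -/
def e (i j : Nat) : Lit := .mk .en i j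
/-- Literal `Far`. -/
def F (i j : Nat) : Lit := .mk .fp i j
/-- Literal `not Far`. -/
def f (i j : Nat) : Lit := .mk .fn i j
/-- Literal centre. -/
def C (i j : Nat) : Lit := .mk .cp i j
/-- Literal not centre. -/
def c (i j : Nat) : Lit := .mk .cn i j

/-- Defining pairs. -/
def ps : List (Nat × Nat) := [(0, 7), (3, 5), (3, 6), (4, 5), (4, 11), (0, 5), (5, 7), (3, 10), (1, 10), (1, 14), (3, 9), (10, 14), (1, 16), (1, 9), (10, 19), (0, 6), (10, 16), (0, 23), (1, 6), (7, 13), (3, 7), (1, 21), (1, 26), (3, 14)]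

/-- Facts on the base points. -/
def facts : List (List Lit) := [[F 2 0], [F 3 0], [F 3 2], [F 2 1], [F 4 1], [F 4 2], [m 1 0], [m 3 1], [m 4 0], [M 5 2], [M 6 5], [M 7 1], [m 7 0], [M 7 3], [e 7 1], [M 6 0], [M 6 1], [C 0 0], [C 1 1], [C 2 2], [C 3 3], [C 4 4]]

/-- The context. -/
def ctx : Ctx := ⟨8, ps, facts⟩

/-- Part of the certificate. -/
def e0 : List Entry := [
  .root (.ax (.refl 0) 0),
  .lem [m 2 0] [.ax (.fact 0) 0, .ax (.far 0 2 0) 3],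
  .lem [m 5 0, m 5 2] [.ax (.fact 0) 0, .ax (.far 0 2 5) 3],
  .lem [m 6 0, m 6 3] [.ax (.fact 1) 0, .ax (.far 0 3 6) 3],
  .lem [m 5 2, m 5 3] [.ax (.fact 2) 0, .ax (.far 2 3 5) 3],
  .root (.ax (.refl 1) 0),
  .lem [m 2 1] [.ax (.fact 3) 0, .ax (.far 1 2 1) 3],
  .lem [m 5 1, m 5 2] [.ax (.fact 3) 0, .ax (.far 1 2 5) 3],
  .lem [m 4 1] [.ax (.fact 4) 0, .ax (.far 1 4 1) 3],
  .root (.ax (.refl 4) 0),
  .lem [e 4 1] [.ax (.em 4 1 4) 3],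
  .lem [m 6 1, m 6 4] [.ax (.fact 4) 0, .ax (.far 1 4 6) 3]]

/-- Part of the certificate. -/
def e1 : List Entry := [
  .root (.ax (.refl 2) 0),
  .lem [m 4 2] [.ax (.fact 5) 0, .ax (.far 2 4 2) 3],
  .lem [m 5 2, m 5 4] [.ax (.fact 5) 0, .ax (.far 2 4 5) 3],
  .lem [m 5 0] [.ax (.fact 9) 0, .lm 5 2],
  .lem [m 5 3] [.ax (.fact 9) 0, .lm 3 2],
  .lem [m 5 1] [.ax (.fact 9) 0, .lm 2 2],
  .lem [m 5 4] [.ax (.fact 9) 0, .lm 0 2],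
  .root (.ax (.refl 5) 0),
  .lem [e 5 0] [.ax (.em 5 0 5) 3],
  .lem [e 5 1] [.ax (.em 5 1 5) 3],
  .lem [m 7 1, m 7 4] [.ax (.fact 4) 0, .ax (.far 1 4 7) 3],
  .lem [m 7 4] [.ax (.fact 11) 0, .lm 0 2]]

/-- Part of the certificate. -/
def e2 : List Entry := [
  .lem [m 6 3] [.ax (.fact 15) 0, .lm 5 2],
  .lem [m 6 4] [.ax (.fact 16) 0, .lm 2 2],
  .root (.ax (.fact 17) 0),
  .root (.ax (.fact 19) 0),
  .root (.ax (.fact 20) 0),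
  .lem [M 4 3] [.ax (.fact 0) 0, .ax (.fact 1) 0, .ax (.fact 2) 0, .ax (.fact 6) 0, .ax (.fact 7) 0, .ax (.fact 8) 0, .ax (.un 0 2 3 1 4) 13],
  .lem [m 8 2, m 8 4] [.ax (.fact 5) 0, .ax (.far 2 4 8) 3],
  .lem [m 8 0] [.ax (.sk1 8) 0, .ax (.far 0 8 0) 3],
  .lem [m 8 6] [.ax (.sk1 8) 0, .ax (.fact 15) 0, .ax (.far 0 8 6) 3],
  .root (.ax (.refl 8) 0),
  .lem [e 8 6] [.ax (.em 8 6 8) 3],
  .lem [m 8 1] [.ax (.sk2 8) 0, .ax (.fact 11) 0, .ax (.far 7 8 1) 3]]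

/-- Part of the certificate. -/
def e3 : List Entry := [
  .lem [e 8 1] [.ax (.em 8 1 8) 3],
  .lem [m 8 3] [.ax (.sk2 8) 0, .ax (.fact 13) 0, .ax (.far 7 8 3) 3],
  .lem [M 8 2] [.ax (.fact 0) 0, .ax (.fact 1) 0, .ax (.fact 2) 0, .ax (.fact 6) 0, .ax (.fact 7) 0, .ax (.un 0 2 3 1 8) 13],
  .lem [m 8 4] [.lm 0 2],
  .root (.ax (.refl 3) 0),
  .lem [m 9 3] [.ax (.sk1 9) 0, .ax (.far 3 9 3) 3],
  .lem [m 9 4] [.ax (.sk1 9) 0, .ax (.far 3 9 4) 3],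
  .lem [m 9 5] [.ax (.sk2 9) 0, .ax (.far 5 9 5) 3],
  .lem [m 9 2] [.ax (.sk2 9) 0, .ax (.fact 9) 0, .ax (.far 5 9 2) 3],
  .lem [m 9 6] [.ax (.sk2 9) 0, .ax (.fact 10) 0, .ax (.far 5 9 6) 3],
  .lem [M 9 0, E 9 1] [.ax (.fact 0) 0, .ax (.fact 1) 0, .ax (.fact 2) 0, .ax (.fact 6) 0, .ax (.fact 7) 0, .ax (.un 0 2 3 1 9) 13],
  .root (.ax (.fact 18) 0)]

/-- Part of the certificate. -/
def e4 : List Entry := [
  .root (.ax (.fact 21) 0),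
  .lem [M 9 1, E 9 0] [.ax (.fact 3) 0, .ax (.fact 4) 0, .ax (.fact 5) 0, .ax (.fact 6) 0, .ax (.fact 8) 0, .ax (.un 1 2 4 0 9) 13],
  .lem [e 9 0] [.ax (.fact 15) 0, .ax (.em 0 9 6) 3],
  .lem [M 9 1] [.lm 0 2],
  .lem [m 10 3] [.ax (.sk1 10) 0, .ax (.far 3 10 3) 3],
  .root (.ax (.refl 6) 0),
  .lem [m 10 6] [.ax (.sk2 10) 0, .ax (.far 6 10 6) 3],
  .lem [m 10 0] [.ax (.sk2 10) 0, .ax (.fact 15) 0, .ax (.far 6 10 0) 3],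
  .root (.ax (.refl 10) 0),
  .lem [e 10 0] [.ax (.em 10 0 10) 3],
  .lem [m 10 1] [.ax (.sk2 10) 0, .ax (.fact 16) 0, .ax (.far 6 10 1) 3],
  .lem [e 10 1] [.ax (.em 10 1 10) 3]]

/-- Part of the certificate. -/
def e5 : List Entry := [
  .lem [m 10 5] [.ax (.sk2 10) 0, .ax (.fact 10) 0, .ax (.far 6 10 5) 3],
  .lem [M 10 2] [.ax (.fact 0) 0, .ax (.fact 1) 0, .ax (.fact 2) 0, .ax (.fact 6) 0, .ax (.fact 7) 0, .ax (.un 0 2 3 1 10) 13],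
  .lem [m 11 0, m 11 8] [.ax (.sk1 8) 0, .ax (.far 0 8 11) 3],
  .lem [m 11 4] [.ax (.sk1 11) 0, .ax (.far 4 11 4) 3],
  .lem [m 11 3] [.ax (.sk1 11) 0, .ax (.far 4 11 3) 3],
  .lem [m 11 5] [.ax (.sk2 11) 0, .ax (.far 5 11 5) 3],
  .lem [m 11 2] [.ax (.sk2 11) 0, .ax (.fact 9) 0, .ax (.far 5 11 2) 3],
  .lem [m 11 6] [.ax (.sk2 11) 0, .ax (.fact 10) 0, .ax (.far 5 11 6) 3],
  .lem [M 11 0, E 11 1] [.ax (.fact 0) 0, .ax (.fact 1) 0, .ax (.fact 2) 0, .ax (.fact 6) 0, .ax (.fact 7) 0, .ax (.un 0 2 3 1 11) 13],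
  .lem [M 11 1, E 11 0] [.ax (.fact 3) 0, .ax (.fact 4) 0, .ax (.fact 5) 0, .ax (.fact 6) 0, .ax (.fact 8) 0, .ax (.un 1 2 4 0 11) 13],
  .lem [e 11 0] [.ax (.fact 15) 0, .ax (.em 0 11 6) 3],
  .lem [M 11 1] [.lm 0 2]]

/-- Part of the certificate. -/
def e6 : List Entry := [
  .lem [m 12 7, m 12 8] [.ax (.sk2 8) 0, .ax (.far 7 8 12) 3],
  .lem [m 11 0, m 12 0] [.ax (.sk2 12) 0, .ax (.far 11 12 0) 3],
  .lem [m 12 1] [.ax (.sk2 12) 0, .ax (.far 11 12 1) 3],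
  .root (.ax (.refl 12) 0),
  .lem [e 12 1] [.ax (.em 12 1 12) 3],
  .root (.ax (.skc 11) 0),
  .root (.ax (.skc 12) 0),
  .lem [M 12 5, M 12 6, E 6 5] [.ax (.sk1 11) 0, .ax (.sk1 12) 0, .ax (.sk2 12) 0, .ax (.un 4 11 12 5 6) 13],
  .lem [e 6 5] [.ax (.fact 15) 0, .ax (.em 6 5 0) 3],
  .lem [m 13 3, m 13 10] [.ax (.sk1 10) 0, .ax (.far 3 10 13) 3],
  .lem [m 13 0] [.ax (.sk1 13) 0, .ax (.far 0 13 0) 3],
  .lem [m 13 6] [.ax (.sk1 13) 0, .ax (.fact 15) 0, .ax (.far 0 13 6) 3]]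

/-- Part of the certificate. -/
def e7 : List Entry := [
  .root (.ax (.refl 13) 0),
  .lem [e 13 6] [.ax (.em 13 6 13) 3],
  .lem [m 11 0, m 13 11] [.ax (.sk1 13) 0, .ax (.far 0 13 11) 3],
  .lem [m 13 2] [.ax (.sk2 13) 0, .ax (.fact 9) 0, .ax (.far 5 13 2) 3],
  .lem [m 12 5, m 13 12] [.ax (.sk2 13) 0, .ax (.far 5 13 12) 3],
  .lem [M 13 3, E 13 1] [.ax (.fact 0) 0, .ax (.fact 1) 0, .ax (.fact 2) 0, .ax (.fact 6) 0, .ax (.fact 7) 0, .ax (.un 0 2 3 1 13) 13],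
  .lem [e 13 1] [.ax (.fact 16) 0, .ax (.em 1 13 6) 3],
  .lem [M 13 3] [.lm 0 2],
  .lem [m 13 10] [.lm 3 2],
  .lem [M 12 6, M 13 4, M 13 11, M 13 12] [.ax (.sk1 11) 0, .ax (.sk1 12) 0, .ax (.sk2 12) 0, .ax (.un 4 11 12 6 13) 13],
  .lem [e 11 1] [.ax (.fact 16) 0, .ax (.em 1 11 6) 3],
  .lem [M 11 0] [.lm 9 2]]

/-- Part of the certificate. -/
def e8 : List Entry := [
  .lem [m 11 8] [.lm 10 2],
  .lem [m 12 0] [.lm 6 2],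
  .lem [m 13 11] [.lm 3 2],
  .lem [m 14 4, m 14 11] [.ax (.sk1 11) 0, .ax (.far 4 11 14) 3],
  .lem [m 14 2] [.ax (.sk1 14) 0, .ax (.fact 9) 0, .ax (.far 5 14 2) 3],
  .lem [m 14 6] [.ax (.sk1 14) 0, .ax (.fact 10) 0, .ax (.far 5 14 6) 3],
  .root (.ax (.refl 14) 0),
  .lem [e 14 6] [.ax (.em 14 6 14) 3],
  .lem [m 14 1] [.ax (.sk2 14) 0, .ax (.fact 11) 0, .ax (.far 7 14 1) 3],
  .lem [e 14 1] [.ax (.em 14 1 14) 3],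
  .lem [m 14 3] [.ax (.sk2 14) 0, .ax (.fact 13) 0, .ax (.far 7 14 3) 3],
  .lem [M 14 0] [.ax (.fact 0) 0, .ax (.fact 1) 0, .ax (.fact 2) 0, .ax (.fact 6) 0, .ax (.fact 7) 0, .ax (.un 0 2 3 1 14) 13]]

/-- Part of the certificate. -/
def e9 : List Entry := [
  .lem [M 14 4, E 14 0] [.ax (.fact 3) 0, .ax (.fact 4) 0, .ax (.fact 5) 0, .ax (.fact 6) 0, .ax (.fact 8) 0, .ax (.un 1 2 4 0 14) 13],
  .lem [m 15 5, m 15 9] [.ax (.sk2 9) 0, .ax (.far 5 9 15) 3],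
  .lem [m 15 5, m 15 11] [.ax (.sk2 11) 0, .ax (.far 5 11 15) 3],
  .lem [m 15 5, m 15 14] [.ax (.sk1 14) 0, .ax (.far 5 14 15) 3],
  .lem [m 15 4] [.ax (.sk1 15) 0, .ax (.far 3 15 4) 3],
  .lem [m 15 2] [.ax (.sk2 15) 0, .ax (.far 10 15 2) 3],
  .lem [M 15 1, E 15 0] [.ax (.fact 3) 0, .ax (.fact 4) 0, .ax (.fact 5) 0, .ax (.fact 6) 0, .ax (.fact 8) 0, .ax (.un 1 2 4 0 15) 13],
  .lem [e 15 0, F 10 0] [.ax (.sk2 15) 0, .ax (.ef 15 0 10) 3],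
  .lem [m 16 0, m 16 3] [.ax (.fact 1) 0, .ax (.far 0 3 16) 3],
  .lem [m 16 5, m 16 14] [.ax (.sk1 14) 0, .ax (.far 5 14 16) 3],
  .lem [m 16 1] [.ax (.sk1 16) 0, .ax (.far 1 16 1) 3],
  .lem [m 16 9] [.ax (.sk1 16) 0, .ax (.far 1 16 9) 3]]

/-- Part of the certificate. -/
def e10 : List Entry := [
  .lem [m 15 1, m 16 15] [.ax (.sk1 16) 0, .ax (.far 1 16 15) 3],
  .lem [m 16 10] [.ax (.sk2 16) 0, .ax (.far 10 16 10) 3],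
  .lem [m 16 2] [.ax (.sk2 16) 0, .ax (.far 10 16 2) 3],
  .lem [m 14 10, m 16 14] [.ax (.sk2 16) 0, .ax (.far 10 16 14) 3],
  .lem [M 16 4, E 16 0] [.ax (.fact 3) 0, .ax (.fact 4) 0, .ax (.fact 5) 0, .ax (.fact 6) 0, .ax (.fact 8) 0, .ax (.un 1 2 4 0 16) 13],
  .lem [m 17 2, m 17 3] [.ax (.fact 2) 0, .ax (.far 2 3 17) 3],
  .lem [m 17 1] [.ax (.sk1 17) 0, .ax (.far 1 17 1) 3],
  .lem [m 17 6] [.ax (.sk1 17) 0, .ax (.fact 16) 0, .ax (.far 1 17 6) 3],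
  .lem [m 17 9] [.ax (.sk1 17) 0, .ax (.far 1 17 9) 3],
  .lem [m 15 1, m 17 15] [.ax (.sk1 17) 0, .ax (.far 1 17 15) 3],
  .lem [m 17 0] [.ax (.sk2 17) 0, .ax (.far 14 17 0) 3],
  .root (.ax (.refl 17) 0)]

/-- Part of the certificate. -/
def e11 : List Entry := [
  .lem [e 17 0] [.ax (.em 17 0 17) 3],
  .lem [m 14 4, m 17 4] [.ax (.sk2 17) 0, .ax (.far 14 17 4) 3],
  .lem [m 14 10, m 17 10] [.ax (.sk2 17) 0, .ax (.far 14 17 10) 3],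
  .lem [M 17 2, M 17 4] [.ax (.fact 3) 0, .ax (.fact 4) 0, .ax (.fact 5) 0, .ax (.fact 6) 0, .ax (.fact 8) 0, .ax (.un 1 2 4 0 17) 13],
  .root (.ax (.skc 10) 0),
  .root (.ax (.skc 15) 0),
  .lem [M 16 3, M 16 15, M 17 3, M 17 10, M 17 15, E 17 16] [.ax (.sk1 10) 0, .ax (.sk1 15) 0, .ax (.sk2 15) 0, .ax (.un 3 10 15 16 17) 13],
  .lem [e 14 0] [.ax (.fact 15) 0, .ax (.em 0 14 6) 3],
  .lem [M 14 4] [.lm 16 2],
  .lem [m 14 11] [.lm 17 2],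
  .lem [m 17 4] [.lm 3 2],
  .lem [e 14 11] [.ax (.em 14 11 14) 3]]

/-- Part of the certificate. -/
def e12 : List Entry := [
  .lem [M 17 2] [.lm 1 2],
  .lem [m 17 3] [.lm 5 2],
  .lem [e 17 16] [.ax (.em 17 16 2) 3],
  .lem [M 14 10, M 15 14, M 16 3, M 16 15, E 16 14] [.ax (.sk1 10) 0, .ax (.sk1 15) 0, .ax (.sk2 15) 0, .ax (.un 3 10 15 14 16) 13],
  .lem [m 18 5, m 18 14] [.ax (.sk1 14) 0, .ax (.far 5 14 18) 3],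
  .lem [m 18 14, m 18 17] [.ax (.sk2 17) 0, .ax (.far 14 17 18) 3],
  .lem [m 18 4] [.ax (.sk1 18) 0, .ax (.far 3 18 4) 3],
  .root (.ax (.refl 18) 0),
  .lem [e 18 4] [.ax (.em 18 4 18) 3],
  .lem [m 9 0, m 18 0] [.ax (.sk2 18) 0, .ax (.far 9 18 0) 3],
  .lem [e 9 1] [.ax (.fact 16) 0, .ax (.em 1 9 6) 3],
  .lem [M 9 0] [.lm 34 2]]

/-- Part of the certificate. -/
def e13 : List Entry := [
  .lem [m 18 0] [.lm 0 2],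
  .lem [m 19 5, m 19 13] [.ax (.sk2 13) 0, .ax (.far 5 13 19) 3],
  .lem [m 19 2] [.ax (.sk1 19) 0, .ax (.far 10 19 2) 3],
  .lem [m 11 10, m 19 11] [.ax (.sk1 19) 0, .ax (.far 10 19 11) 3],
  .lem [m 19 14] [.ax (.sk2 19) 0, .ax (.far 14 19 14) 3],
  .lem [m 19 0] [.ax (.sk2 19) 0, .ax (.far 14 19 0) 3],
  .root (.ax (.refl 19) 0),
  .lem [e 19 0] [.ax (.em 19 0 19) 3],
  .lem [m 19 4] [.ax (.sk2 19) 0, .ax (.far 14 19 4) 3],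
  .lem [M 19 3, E 19 1] [.ax (.fact 0) 0, .ax (.fact 1) 0, .ax (.fact 2) 0, .ax (.fact 6) 0, .ax (.fact 7) 0, .ax (.un 0 2 3 1 19) 13],
  .lem [M 19 1] [.ax (.fact 3) 0, .ax (.fact 4) 0, .ax (.fact 5) 0, .ax (.fact 6) 0, .ax (.fact 8) 0, .ax (.un 1 2 4 0 19) 13],
  .lem [e 19 1, F 10 1] [.ax (.sk1 19) 0, .ax (.ef 19 1 10) 3]]

/-- Part of the certificate. -/
def e14 : List Entry := [
  .lem [e 19 1, M 19 11] [.ax (.em 1 19 11) 3],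
  .lem [M 15 5, M 16 3, M 16 15, E 16 5] [.ax (.sk1 10) 0, .ax (.sk1 15) 0, .ax (.sk2 15) 0, .ax (.un 3 10 15 5 16) 13],
  .lem [M 12 6, M 12 8] [.ax (.sk1 11) 0, .ax (.sk1 12) 0, .ax (.sk2 12) 0, .ax (.un 4 11 12 6 8) 13],
  .lem [M 12 6, M 11 7, M 12 7, E 7 6] [.ax (.sk1 11) 0, .ax (.sk1 12) 0, .ax (.sk2 12) 0, .ax (.un 4 11 12 6 7) 13],
  .lem [e 7 6] [.ax (.fact 15) 0, .ax (.fact 12) 0, .ax (.em 6 7 0) 3],
  .lem [m 20 0, m 20 2] [.ax (.fact 0) 0, .ax (.far 0 2 20) 3],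
  .lem [m 20 1] [.ax (.sk1 20) 0, .ax (.far 1 20 1) 3],
  .lem [m 20 6] [.ax (.sk1 20) 0, .ax (.fact 16) 0, .ax (.far 1 20 6) 3],
  .lem [m 16 4, m 20 4] [.ax (.sk2 20) 0, .ax (.far 16 20 4) 3],
  .lem [M 20 2, M 20 4, E 20 0] [.ax (.fact 3) 0, .ax (.fact 4) 0, .ax (.fact 5) 0, .ax (.fact 6) 0, .ax (.fact 8) 0, .ax (.un 1 2 4 0 20) 13],
  .lem [e 20 0] [.ax (.fact 15) 0, .ax (.em 0 20 6) 3],
  .lem [f 7 0, m 11 7] [.ax (.far 0 7 11) 3]]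

/-- Part of the certificate. -/
def e15 : List Entry := [
  .root (.ax (.skc 16) 0),
  .root (.ax (.skc 20) 0),
  .lem [M 16 0, M 20 0, M 16 14, M 20 14] [.ax (.sk1 16) 0, .ax (.sk1 20) 0, .ax (.sk2 20) 0, .ax (.fact 6) 0, .ax (.un 1 16 20 0 14) 13],
  .lem [e 17 5] [.ax (.fact 10) 0, .ax (.em 5 17 6) 3],
  .lem [m 21 2, m 21 3] [.ax (.fact 2) 0, .ax (.far 2 3 21) 3],
  .lem [m 21 1] [.ax (.sk1 21) 0, .ax (.far 1 21 1) 3],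
  .lem [m 21 6] [.ax (.sk1 21) 0, .ax (.fact 16) 0, .ax (.far 1 21 6) 3],
  .lem [m 15 1, m 21 15] [.ax (.sk1 21) 0, .ax (.far 1 21 15) 3],
  .lem [m 21 0] [.ax (.sk2 21) 0, .ax (.far 9 21 0) 3],
  .root (.ax (.refl 21) 0),
  .lem [e 21 0] [.ax (.em 21 0 21) 3],
  .lem [m 10 9, m 21 10] [.ax (.sk2 21) 0, .ax (.far 9 21 10) 3]]

/-- Part of the certificate. -/
def e16 : List Entry := [
  .lem [m 14 9, m 21 14] [.ax (.sk2 21) 0, .ax (.far 9 21 14) 3],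
  .lem [M 21 2, M 21 4] [.ax (.fact 3) 0, .ax (.fact 4) 0, .ax (.fact 5) 0, .ax (.fact 6) 0, .ax (.fact 8) 0, .ax (.un 1 2 4 0 21) 13],
  .lem [M 15 5, M 21 3, M 21 10, M 21 15, E 21 5] [.ax (.sk1 10) 0, .ax (.sk1 15) 0, .ax (.sk2 15) 0, .ax (.un 3 10 15 5 21) 13],
  .lem [e 21 5] [.ax (.fact 10) 0, .ax (.em 5 21 6) 3],
  .root (.ax (.skc 9) 0),
  .root (.ax (.skc 18) 0),
  .lem [M 18 6, M 14 9, M 18 14] [.ax (.sk1 9) 0, .ax (.sk1 18) 0, .ax (.sk2 18) 0, .ax (.un 3 9 18 6 14) 13],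
  .lem [f 10 1, M 16 0, M 16 5] [.ax (.sk1 16) 0, .ax (.sk2 16) 0, .ax (.fact 6) 0, .ax (.un 1 10 16 0 5) 13],
  .lem [m 22 0, m 22 13] [.ax (.sk1 13) 0, .ax (.far 0 13 22) 3],
  .lem [m 22 5, m 22 14] [.ax (.sk1 14) 0, .ax (.far 5 14 22) 3],
  .lem [m 22 2] [.ax (.sk1 22) 0, .ax (.far 10 22 2) 3],
  .lem [m 22 1] [.ax (.sk2 22) 0, .ax (.far 19 22 1) 3]]

/-- Part of the certificate. -/
def e17 : List Entry := [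
  .root (.ax (.refl 22) 0),
  .lem [e 22 1] [.ax (.em 22 1 22) 3],
  .lem [m 19 3, m 22 3] [.ax (.sk2 22) 0, .ax (.far 19 22 3) 3],
  .lem [M 22 0, M 22 3] [.ax (.fact 0) 0, .ax (.fact 1) 0, .ax (.fact 2) 0, .ax (.fact 6) 0, .ax (.fact 7) 0, .ax (.un 0 2 3 1 22) 13],
  .lem [e 22 0, F 10 0] [.ax (.sk1 22) 0, .ax (.ef 22 0 10) 3],
  .root (.ax (.skc 19) 0),
  .root (.ax (.skc 22) 0),
  .lem [M 19 5, M 22 5, M 19 6, M 22 6] [.ax (.sk1 19) 0, .ax (.sk1 22) 0, .ax (.sk2 22) 0, .ax (.un 10 19 22 5 6) 13],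
  .lem [m 23 2, m 23 4] [.ax (.fact 5) 0, .ax (.far 2 4 23) 3],
  .lem [m 23 3, m 23 10] [.ax (.sk1 10) 0, .ax (.far 3 10 23) 3],
  .lem [m 23 0] [.ax (.sk1 23) 0, .ax (.far 0 23 0) 3],
  .lem [m 23 1] [.ax (.sk2 23) 0, .ax (.fact 16) 0, .ax (.far 6 23 1) 3]]

/-- Part of the certificate. -/
def e18 : List Entry := [
  .root (.ax (.refl 23) 0),
  .lem [e 23 1] [.ax (.em 23 1 23) 3],
  .lem [m 23 5] [.ax (.sk2 23) 0, .ax (.fact 10) 0, .ax (.far 6 23 5) 3],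
  .lem [m 12 6, m 23 12] [.ax (.sk2 23) 0, .ax (.far 6 23 12) 3],
  .lem [m 18 6, m 23 18] [.ax (.sk2 23) 0, .ax (.far 6 23 18) 3],
  .lem [m 19 6, m 23 19] [.ax (.sk2 23) 0, .ax (.far 6 23 19) 3],
  .lem [M 23 2, M 23 3] [.ax (.fact 0) 0, .ax (.fact 1) 0, .ax (.fact 2) 0, .ax (.fact 6) 0, .ax (.fact 7) 0, .ax (.un 0 2 3 1 23) 13],
  .lem [f 10 0] [.ax (.fact 1) 0, .ax (.sk1 10) 0, .ax (.fact 6) 0, .ax (.fact 7) 0, .ax (.un 0 3 10 1 5) 13],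
  .lem [e 15 0] [.lm 48 2],
  .lem [e 22 0] [.lm 7 2],
  .lem [M 15 1] [.lm 49 2],
  .lem [m 16 15] [.lm 45 2]]

/-- Part of the certificate. -/
def e19 : List Entry := [
  .lem [m 17 15] [.lm 41 2],
  .lem [m 21 15] [.lm 18 2],
  .lem [e 14 9] [.ax (.em 9 14 1) 3],
  .lem [m 24 5, m 24 9] [.ax (.sk2 9) 0, .ax (.far 5 9 24) 3],
  .lem [m 24 2] [.ax (.sk1 24) 0, .ax (.far 10 24 2) 3],
  .lem [m 16 3, m 24 3] [.ax (.sk2 24) 0, .ax (.far 16 24 3) 3],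
  .lem [M 24 0, M 24 3, E 24 1] [.ax (.fact 0) 0, .ax (.fact 1) 0, .ax (.fact 2) 0, .ax (.fact 6) 0, .ax (.fact 7) 0, .ax (.un 0 2 3 1 24) 13],
  .lem [e 24 1, F 10 1] [.ax (.sk1 24) 0, .ax (.ef 24 1 10) 3],
  .lem [m 25 1, m 25 2] [.ax (.fact 3) 0, .ax (.far 1 2 25) 3],
  .lem [m 25 1, m 25 4] [.ax (.fact 4) 0, .ax (.far 1 4 25) 3],
  .lem [m 25 3, m 25 10] [.ax (.sk1 10) 0, .ax (.far 3 10 25) 3],
  .lem [m 25 4, m 25 12] [.ax (.sk1 12) 0, .ax (.far 4 12 25) 3]]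

/-- Part of the certificate. -/
def e20 : List Entry := [
  .lem [m 25 5, m 25 13] [.ax (.sk2 13) 0, .ax (.far 5 13 25) 3],
  .lem [m 25 1, m 25 16] [.ax (.sk1 16) 0, .ax (.far 1 16 25) 3],
  .lem [m 25 3, m 25 18] [.ax (.sk1 18) 0, .ax (.far 3 18 25) 3],
  .lem [m 25 10, m 25 19] [.ax (.sk1 19) 0, .ax (.far 10 19 25) 3],
  .lem [m 25 0] [.ax (.sk1 25) 0, .ax (.far 0 25 0) 3],
  .root (.ax (.refl 25) 0),
  .lem [e 25 0] [.ax (.em 25 0 25) 3],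
  .lem [m 25 6] [.ax (.sk1 25) 0, .ax (.fact 15) 0, .ax (.far 0 25 6) 3],
  .lem [m 25 9] [.ax (.sk1 25) 0, .ax (.far 0 25 9) 3],
  .lem [e 25 9] [.ax (.em 25 9 25) 3],
  .lem [m 24 0, m 25 24] [.ax (.sk1 25) 0, .ax (.far 0 25 24) 3],
  .lem [m 23 2, m 25 2] [.ax (.sk2 25) 0, .ax (.far 23 25 2) 3]]

/-- Part of the certificate. -/
def e21 : List Entry := [
  .lem [m 23 3, m 25 3] [.ax (.sk2 25) 0, .ax (.far 23 25 3) 3],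
  .lem [M 25 2, M 25 3, E 25 1] [.ax (.fact 0) 0, .ax (.fact 1) 0, .ax (.fact 2) 0, .ax (.fact 6) 0, .ax (.fact 7) 0, .ax (.un 0 2 3 1 25) 13],
  .root (.ax (.skc 23) 0),
  .root (.ax (.skc 25) 0),
  .lem [M 25 1, M 25 5] [.ax (.sk1 23) 0, .ax (.sk1 25) 0, .ax (.sk2 25) 0, .ax (.fact 6) 0, .ax (.un 0 23 25 1 5) 13],
  .lem [M 25 1, M 23 7, M 25 7] [.ax (.sk1 23) 0, .ax (.sk1 25) 0, .ax (.sk2 25) 0, .ax (.fact 6) 0, .ax (.fact 12) 0, .ax (.fact 14) 0, .ax (.un 0 23 25 1 7) 13],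
  .lem [M 25 1, M 25 2, M 25 4] [.ax (.fact 3) 0, .ax (.fact 4) 0, .ax (.fact 5) 0, .ax (.fact 6) 0, .ax (.fact 8) 0, .ax (.un 1 2 4 0 25) 13],
  .root (.ax (.skc 24) 0),
  .lem [M 16 5, M 24 5, M 25 10, M 25 16, M 25 24, E 25 5] [.ax (.sk2 16) 0, .ax (.sk1 24) 0, .ax (.sk2 24) 0, .ax (.un 10 16 24 5 25) 13],
  .lem [e 25 1] [.ax (.fact 16) 0, .ax (.em 1 25 6) 3],
  .lem [e 25 5] [.ax (.fact 10) 0, .ax (.em 5 25 6) 3],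
  .lem [m 26 2, m 26 3] [.ax (.fact 2) 0, .ax (.far 2 3 26) 3]]

/-- Part of the certificate. -/
def e22 : List Entry := [
  .lem [m 26 3, m 26 10] [.ax (.sk1 10) 0, .ax (.far 3 10 26) 3],
  .lem [m 26 1] [.ax (.sk1 26) 0, .ax (.far 1 26 1) 3],
  .lem [m 26 9] [.ax (.sk1 26) 0, .ax (.far 1 26 9) 3],
  .lem [m 26 15] [.ax (.sk1 26) 0, .ax (.far 1 26 15) 3],
  .lem [m 26 0] [.ax (.sk2 26) 0, .ax (.fact 15) 0, .ax (.far 6 26 0) 3],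
  .root (.ax (.refl 26) 0),
  .lem [e 26 0] [.ax (.em 26 0 26) 3],
  .lem [m 26 5] [.ax (.sk2 26) 0, .ax (.fact 10) 0, .ax (.far 6 26 5) 3],
  .lem [e 26 5] [.ax (.em 26 5 26) 3],
  .lem [m 18 6, m 26 18] [.ax (.sk2 26) 0, .ax (.far 6 26 18) 3],
  .lem [m 22 6, m 26 22] [.ax (.sk2 26) 0, .ax (.far 6 26 22) 3],
  .lem [M 26 2, M 26 4] [.ax (.fact 3) 0, .ax (.fact 4) 0, .ax (.fact 5) 0, .ax (.fact 6) 0, .ax (.fact 8) 0, .ax (.un 1 2 4 0 26) 13]]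

/-- Part of the certificate. -/
def e23 : List Entry := [
  .lem [M 15 5, M 26 3, M 26 10] [.ax (.sk1 10) 0, .ax (.sk1 15) 0, .ax (.sk2 15) 0, .ax (.un 3 10 15 5 26) 13],
  .lem [M 19 6, M 22 6, M 19 13, M 22 13] [.ax (.sk1 19) 0, .ax (.sk1 22) 0, .ax (.sk2 22) 0, .ax (.un 10 19 22 6 13) 13],
  .lem [M 25 1, M 23 19, M 25 19, E 19 1] [.ax (.sk1 23) 0, .ax (.sk1 25) 0, .ax (.sk2 25) 0, .ax (.fact 6) 0, .ax (.un 0 23 25 1 19) 13],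
  .lem [M 10 9, M 15 9, M 14 10, M 15 14] [.ax (.sk1 10) 0, .ax (.sk1 15) 0, .ax (.sk2 15) 0, .ax (.un 3 10 15 9 14) 13],
  .lem [M 25 1, M 23 10, M 25 10] [.ax (.sk1 23) 0, .ax (.sk1 25) 0, .ax (.sk2 25) 0, .ax (.fact 6) 0, .ax (.un 0 23 25 1 10) 13],
  .lem [M 11 10, M 15 11, M 14 10, M 15 14] [.ax (.sk1 10) 0, .ax (.sk1 15) 0, .ax (.sk2 15) 0, .ax (.un 3 10 15 11 14) 13],
  .lem [M 25 1, M 23 12, M 25 12] [.ax (.sk1 23) 0, .ax (.sk1 25) 0, .ax (.sk2 25) 0, .ax (.fact 6) 0, .ax (.un 0 23 25 1 12) 13],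
  .lem [M 10 9, M 24 9, M 25 10, M 25 16, M 25 24] [.ax (.sk2 16) 0, .ax (.sk1 24) 0, .ax (.sk2 24) 0, .ax (.un 10 16 24 9 25) 13],
  .lem [M 25 1, M 23 13, M 25 13] [.ax (.sk1 23) 0, .ax (.sk1 25) 0, .ax (.sk2 25) 0, .ax (.fact 6) 0, .ax (.un 0 23 25 1 13) 13],
  .lem [m 27 0, m 27 2] [.ax (.fact 0) 0, .ax (.far 0 2 27) 3],
  .lem [m 27 1] [.ax (.sk1 27) 0, .ax (.fact 11) 0, .ax (.far 7 27 1) 3],
  .root (.ax (.refl 27) 0)]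

/-- Part of the certificate. -/
def e24 : List Entry := [
  .lem [e 27 1] [.ax (.em 27 1 27) 3],
  .lem [m 25 7, m 27 25] [.ax (.sk1 27) 0, .ax (.far 7 27 25) 3],
  .lem [m 13 4, m 27 4] [.ax (.sk2 27) 0, .ax (.far 13 27 4) 3],
  .lem [m 23 13, m 27 23] [.ax (.sk2 27) 0, .ax (.far 13 27 23) 3],
  .lem [M 25 1, M 27 0, M 27 23, M 27 25] [.ax (.sk1 23) 0, .ax (.sk1 25) 0, .ax (.sk2 25) 0, .ax (.fact 6) 0, .ax (.un 0 23 25 1 27) 13],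
  .lem [M 27 2, M 27 4, E 27 0] [.ax (.fact 3) 0, .ax (.fact 4) 0, .ax (.fact 5) 0, .ax (.fact 6) 0, .ax (.fact 8) 0, .ax (.un 1 2 4 0 27) 13],
  .lem [e 27 0, F 7 0] [.ax (.sk1 27) 0, .ax (.ef 27 0 7) 3],
  .lem [m 28 0, m 28 2] [.ax (.fact 0) 0, .ax (.far 0 2 28) 3],
  .lem [m 28 4] [.ax (.sk1 28) 0, .ax (.far 3 28 4) 3],
  .lem [m 25 3, m 28 25] [.ax (.sk1 28) 0, .ax (.far 3 28 25) 3],
  .lem [m 28 1] [.ax (.sk2 28) 0, .ax (.fact 11) 0, .ax (.far 7 28 1) 3],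
  .root (.ax (.refl 28) 0)]

/-- Part of the certificate. -/
def e25 : List Entry := [
  .lem [e 28 1] [.ax (.em 28 1 28) 3],
  .lem [m 23 7, m 28 23] [.ax (.sk2 28) 0, .ax (.far 7 28 23) 3],
  .lem [M 25 1, M 28 0, M 28 23, M 28 25] [.ax (.sk1 23) 0, .ax (.sk1 25) 0, .ax (.sk2 25) 0, .ax (.fact 6) 0, .ax (.un 0 23 25 1 28) 13],
  .lem [M 28 2, E 28 0] [.ax (.fact 3) 0, .ax (.fact 4) 0, .ax (.fact 5) 0, .ax (.fact 6) 0, .ax (.fact 8) 0, .ax (.un 1 2 4 0 28) 13],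
  .lem [e 28 0, F 7 0] [.ax (.sk2 28) 0, .ax (.ef 28 0 7) 3],
  .lem [m 29 0, m 29 2] [.ax (.fact 0) 0, .ax (.far 0 2 29) 3],
  .lem [m 29 1] [.ax (.sk1 29) 0, .ax (.far 1 29 1) 3],
  .lem [m 29 6] [.ax (.sk1 29) 0, .ax (.fact 16) 0, .ax (.far 1 29 6) 3],
  .lem [m 21 4, m 29 4] [.ax (.sk2 29) 0, .ax (.far 21 29 4) 3],
  .lem [M 29 2, M 29 4, E 29 0] [.ax (.fact 3) 0, .ax (.fact 4) 0, .ax (.fact 5) 0, .ax (.fact 6) 0, .ax (.fact 8) 0, .ax (.un 1 2 4 0 29) 13],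
  .lem [m 30 0, m 30 2] [.ax (.fact 0) 0, .ax (.far 0 2 30) 3],
  .lem [m 30 0, m 30 3] [.ax (.fact 1) 0, .ax (.far 0 3 30) 3]]

/-- Part of the certificate. -/
def e26 : List Entry := [
  .lem [m 30 5, m 30 14] [.ax (.sk1 14) 0, .ax (.far 5 14 30) 3],
  .lem [m 30 10, m 30 22] [.ax (.sk1 22) 0, .ax (.far 10 22 30) 3],
  .lem [m 30 1] [.ax (.sk1 30) 0, .ax (.far 1 30 1) 3],
  .lem [m 30 6] [.ax (.sk1 30) 0, .ax (.fact 16) 0, .ax (.far 1 30 6) 3],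
  .root (.ax (.refl 30) 0),
  .lem [e 30 6] [.ax (.em 30 6 30) 3],
  .lem [m 30 9] [.ax (.sk1 30) 0, .ax (.far 1 30 9) 3],
  .lem [m 30 15] [.ax (.sk1 30) 0, .ax (.far 1 30 15) 3],
  .lem [m 26 4, m 30 4] [.ax (.sk2 30) 0, .ax (.far 26 30 4) 3],
  .lem [m 26 10, m 30 10] [.ax (.sk2 30) 0, .ax (.far 26 30 10) 3],
  .lem [m 26 18, m 30 18] [.ax (.sk2 30) 0, .ax (.far 26 30 18) 3],
  .lem [M 30 2, M 30 4, E 30 0] [.ax (.fact 3) 0, .ax (.fact 4) 0, .ax (.fact 5) 0, .ax (.fact 6) 0, .ax (.fact 8) 0, .ax (.un 1 2 4 0 30) 13]]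

/-- Part of the certificate. -/
def e27 : List Entry := [
  .root (.ax (.skc 26) 0),
  .root (.ax (.skc 30) 0),
  .lem [M 30 0, M 30 5] [.ax (.sk1 26) 0, .ax (.sk1 30) 0, .ax (.sk2 30) 0, .ax (.fact 6) 0, .ax (.un 1 26 30 0 5) 13],
  .lem [M 18 6, M 30 3, M 30 18] [.ax (.sk1 9) 0, .ax (.sk1 18) 0, .ax (.sk2 18) 0, .ax (.un 3 9 18 6 30) 13],
  .lem [M 15 5, M 30 3, M 30 10, E 30 5] [.ax (.sk1 10) 0, .ax (.sk1 15) 0, .ax (.sk2 15) 0, .ax (.un 3 10 15 5 30) 13],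
  .lem [e 29 0] [.ax (.fact 15) 0, .ax (.em 0 29 6) 3],
  .lem [M 30 0, M 26 14, M 30 14] [.ax (.sk1 26) 0, .ax (.sk1 30) 0, .ax (.sk2 30) 0, .ax (.fact 6) 0, .ax (.un 1 26 30 0 14) 13],
  .lem [M 14 9, M 18 14, M 26 3, M 26 18, E 26 14] [.ax (.sk1 9) 0, .ax (.sk1 18) 0, .ax (.sk2 18) 0, .ax (.un 3 9 18 14 26) 13],
  .lem [M 19 6, M 22 6, M 14 10, M 22 14] [.ax (.sk1 19) 0, .ax (.sk1 22) 0, .ax (.sk2 22) 0, .ax (.un 10 19 22 6 14) 13],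
  .lem [e 30 0] [.ax (.fact 15) 0, .ax (.em 0 30 6) 3],
  .root (.ax (.skc 21) 0),
  .root (.ax (.skc 29) 0)]

/-- Part of the certificate. -/
def e28 : List Entry := [
  .lem [M 29 0, M 21 14, M 29 14] [.ax (.sk1 21) 0, .ax (.sk1 29) 0, .ax (.sk2 29) 0, .ax (.fact 6) 0, .ax (.un 1 21 29 0 14) 13],
  .lem [M 30 0, M 26 22, M 30 22] [.ax (.sk1 26) 0, .ax (.sk1 30) 0, .ax (.sk2 30) 0, .ax (.fact 6) 0, .ax (.un 1 26 30 0 22) 13],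
  .lem [e 26 14] [.ax (.em 14 26 0) 3],
  .lem [e 30 5] [.ax (.fact 10) 0, .ax (.em 5 30 6) 3],
  .lem [m 31 1, m 31 2] [.ax (.fact 3) 0, .ax (.far 1 2 31) 3],
  .lem [m 31 3] [.ax (.sk1 31) 0, .ax (.far 3 31 3) 3],
  .lem [m 31 7] [.ax (.sk1 31) 0, .ax (.fact 13) 0, .ax (.far 3 31 7) 3],
  .lem [m 16 3, m 31 16] [.ax (.sk1 31) 0, .ax (.far 3 31 16) 3],
  .lem [m 21 3, m 31 21] [.ax (.sk1 31) 0, .ax (.far 3 31 21) 3],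
  .lem [m 30 3, m 31 30] [.ax (.sk1 31) 0, .ax (.far 3 31 30) 3],
  .lem [m 31 0] [.ax (.sk2 31) 0, .ax (.far 14 31 0) 3],
  .root (.ax (.refl 31) 0)]

/-- Part of the certificate. -/
def e29 : List Entry := [
  .lem [e 31 0] [.ax (.em 31 0 31) 3],
  .lem [m 16 14, m 31 16] [.ax (.sk2 31) 0, .ax (.far 14 31 16) 3],
  .lem [m 20 14, m 31 20] [.ax (.sk2 31) 0, .ax (.far 14 31 20) 3],
  .lem [m 26 14, m 31 26] [.ax (.sk2 31) 0, .ax (.far 14 31 26) 3],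
  .lem [m 29 14, m 31 29] [.ax (.sk2 31) 0, .ax (.far 14 31 29) 3],
  .lem [M 31 2, E 31 1] [.ax (.fact 0) 0, .ax (.fact 1) 0, .ax (.fact 2) 0, .ax (.fact 6) 0, .ax (.fact 7) 0, .ax (.un 0 2 3 1 31) 13],
  .lem [M 16 0, M 20 0, M 31 1, M 31 16, M 31 20] [.ax (.sk1 16) 0, .ax (.sk1 20) 0, .ax (.sk2 20) 0, .ax (.fact 6) 0, .ax (.un 1 16 20 0 31) 13],
  .lem [M 29 0, M 31 1, M 31 21, M 31 29] [.ax (.sk1 21) 0, .ax (.sk1 29) 0, .ax (.sk2 29) 0, .ax (.fact 6) 0, .ax (.un 1 21 29 0 31) 13],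
  .lem [M 30 0, M 31 1, M 31 26, M 31 30] [.ax (.sk1 26) 0, .ax (.sk1 30) 0, .ax (.sk2 30) 0, .ax (.fact 6) 0, .ax (.un 1 26 30 0 31) 13],
  .lem [e 31 1] [.ax (.fact 11) 0, .ax (.em 1 31 7) 3],
  .lem [M 31 2] [.lm 3 2],
  .lem [m 31 1] [.lm 11 2]]

/-- Part of the certificate. -/
def e30 : List Entry := [
  .lem [e 16 5] [.ax (.fact 9) 0, .ax (.em 5 16 2) 3],
  .lem [M 23 4, M 25 4, M 23 18, M 25 18] [.ax (.sk1 23) 0, .ax (.sk1 25) 0, .ax (.sk2 25) 0, .ax (.fact 8) 0, .ax (.un 0 23 25 4 18) 13],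
  .lem [M 14 10, M 15 14, M 21 3, M 21 10, E 21 14] [.ax (.sk1 10) 0, .ax (.sk1 15) 0, .ax (.sk2 15) 0, .ax (.un 3 10 15 14 21) 13],
  .lem [M 30 0, M 26 10, M 30 10] [.ax (.sk1 26) 0, .ax (.sk1 30) 0, .ax (.sk2 30) 0, .ax (.fact 6) 0, .ax (.un 1 26 30 0 10) 13],
  .lem [M 18 5, M 18 17] [.ax (.sk1 9) 0, .ax (.sk1 18) 0, .ax (.sk2 18) 0, .ax (.un 3 9 18 5 17) 13],
  .root (.ax (.refl 16) 0),
  .lem [m 31 16] [.lm 14 0, .lm 11 0, .lm 119 3, .lm 109 0, .ax (.em 16 14 16) 0, .lm 121 0, .lm 132 1, .lm 118 5],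
  .lem [m 18 14] [.lm 117 0, .lm 116 1, .lm 0 2],
  .lem [M 14 10, E 21 14, m 15 5, M 21 3] [.lm 132 1, .lm 134 1, .lm 53 0, .lm 2 3, .lm 99 2],
  .lem [m 14 10, M 20 14] [.lm 127 1, .lm 122 1, .lm 120 0, .lm 130 0, .ax (.em 16 0 16) 0, .lm 103 1, .lm 126 0, .lm 107 1, .lm 106 1, .lm 105 3],
  .lem [m 26 3, M 30 10] [.lm 63 0, .lm 62 1, .lm 59 1, .lm 3 0, .lm 29 1, .lm 33 1, .lm 26 3],
  .lem [M 30 10, M 14 10, M 21 3, M 30 3] [.lm 24 0, .lm 2 1, .ax (.em 21 14 21) 2, .lm 101 0, .lm 98 0, .lm 0 0, .lm 62 1, .lm 22 5]]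

/-- Part of the certificate. -/
def e31 : List Entry := [
  .lem [M 26 3, M 26 18, M 26 10, M 14 10, M 21 3] [.lm 23 0, .lm 60 0, .lm 102 1, .lm 3 1, .ax (.em 21 14 21) 3],
  .lem [M 30 0, M 26 14] [.lm 28 1, .lm 25 2, .lm 34 2],
  .lem [m 26 18, M 30 3] [.lm 65 0, .lm 31 1, .lm 28 3],
  .lem [M 14 10, M 21 3, M 26 3, M 30 3] [.lm 0 0, .lm 3 0, .lm 2 2, .lm 33 2],
  .lem [m 14 10] [.lm 129 1, .lm 6 1, .lm 127 0, .lm 18 1, .lm 137 0, .ax (.em 16 0 16) 0, .lm 14 1, .lm 133 0, .lm 114 1, .lm 113 1, .lm 112 3],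
  .lem [M 26 3, M 29 14, M 30 3] [.lm 1 0, .lm 27 0, .lm 106 1, .lm 25 0, .lm 42 1, .lm 40 1, .lm 41 0, .lm 105 0, .lm 109 1, .lm 0 4],
  .lem [M 19 6, M 22 13, M 22 6] [.lm 64 2, .lm 27 3, .lm 123 0, .lm 101 0, .lm 97 4],
  .lem [m 25 2, M 23 19, E 19 1] [.lm 87 0, .lm 78 0, .lm 64 2, .lm 92 1, .lm 80 0, .lm 96 1, .lm 62 3],
  .lem [M 25 1, M 25 2] [.lm 77 1, .lm 50 1, .lm 76 1, .lm 74 2, .lm 84 1, .lm 85 1, .lm 59 1, .lm 61 1, .lm 55 1, .lm 96 0, .lm 153 0, .lm 119 1, .lm 150 1, .lm 155 0, .lm 148 1, .lm 118 1, .lm 56 1, .lm 114 0, .lm 52 0, .lm 46 0, .lm 53 0, .lm 47 0, .lm 58 0, .lm 51 0, .lm 54 3, .lm 48 2, .lm 57 0, .lm 49 0, .lm 75 3],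
  .lem [M 15 5, M 21 3, M 22 6] [.lm 121 1, .lm 108 2, .lm 141 0, .lm 92 1, .lm 111 0, .ax (.em 16 0 16) 0, .lm 137 0, .lm 117 1, .lm 116 0, .lm 118 0, .lm 18 4, .lm 22 0, .lm 114 2, .lm 140 0, .lm 106 0, .lm 123 0, .lm 90 0, .lm 124 0, .lm 91 0, .lm 103 1, .lm 81 1, .lm 102 0, .lm 105 1, .lm 2 0, .lm 95 1, .lm 1 0, .lm 78 1, .lm 87 1, .lm 0 0, .lm 84 1, .lm 61 1, .lm 74 1, .lm 93 2],
  .lem [M 21 3, M 22 6] [.lm 0 0, .lm 146 1, .lm 145 1, .lm 12 1, .lm 64 0, .ax (.em 21 14 21) 2, .lm 126 1, .lm 111 0, .lm 123 0, .lm 108 0, .lm 125 0, .lm 97 1, .lm 104 1, .lm 103 0, .lm 106 1, .lm 3 0, .lm 96 1, .lm 2 0, .lm 79 1, .lm 1 0, .lm 84 1, .lm 80 0, .lm 89 1, .lm 95 0, .lm 16 0, .lm 100 2],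
  .lem [M 25 2, M 23 18] [.lm 80 1, .lm 2 0, .lm 85 1, .lm 81 0, .lm 90 1, .lm 96 0, .lm 17 0, .lm 101 2]]

/-- Part of the certificate. -/
def e32 : List Entry := [
  .lem [m 15 5, M 11 10] [.lm 148 1, .lm 147 1, .lm 66 4],
  .lem [e 19 1] [.lm 127 1, .lm 126 1, .lm 129 0, .lm 0 0, .lm 125 1, .lm 145 0, .ax (.em 16 0 16) 0, .lm 110 2, .lm 141 0, .lm 144 1, .lm 121 1, .lm 120 0, .lm 122 0, .lm 22 4, .lm 118 3, .lm 26 2],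
  .lem [M 19 3] [.lm 128 2],
  .lem [m 22 3] [.lm 107 2],
  .lem [M 22 0] [.lm 106 2],
  .lem [m 22 13] [.lm 109 2],
  .lem [M 22 6] [.lm 2 0, .lm 6 0, .lm 117 0, .lm 29 1, .lm 99 1, .lm 113 1, .lm 5 0, .lm 49 1, .lm 1 1, .lm 48 0, .lm 100 0, .lm 50 0, .lm 111 1, .lm 21 3, .lm 114 1, .lm 24 0, .lm 33 3],
  .lem [m 26 22] [.lm 74 2],
  .lem [m 26 3] [.lm 77 0, .lm 13 1, .lm 73 1, .lm 44 1, .lm 43 1, .lm 32 0, .lm 40 0, .lm 47 2],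
  .lem [M 30 3] [.lm 8 1, .lm 7 1, .lm 117 0, .lm 29 1, .lm 24 1, .lm 113 1, .lm 21 0, .lm 49 1, .lm 50 1, .lm 48 3],
  .lem [m 30 0] [.lm 46 2],
  .lem [m 31 30] [.lm 28 2]]

/-- Part of the certificate. -/
def e33 : List Entry := [
  .lem [M 31 26] [.lm 20 4],
  .lem [M 26 14] [.lm 10 2],
  .lem [] [.lm 25 2]]

/-- The certificate. -/
def cert : List Entry :=
  e0 ++ (e1 ++ (e2 ++ (e3 ++ (e4 ++ (e5 ++ (e6 ++ (e7 ++ (e8 ++ (e9 ++ (e10 ++ (e11 ++ (e12 ++ (e13 ++ (e14 ++ (e15 ++ (e16 ++ (e17 ++ (e18 ++ (e19 ++ (e20 ++ (e21 ++ (e22 ++ (e23 ++ (e24 ++ (e25 ++ (e26 ++ (e27 ++ (e28 ++ (e29 ++ (e30 ++ (e31 ++ (e32 ++ (e33)))))))))))))))))))))))))))))))))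

theorem cert_ok : (bif okPs ctx.b ctx.ps then (bif Nat.blt 0 ctx.b then check ctx cert 0 [] else false)
    else false) = true := by decide +kernel

theorem config {V : Type*} {m : V → V → Prop} {C : V → Prop}
    (hrefl : ∀ x, m x x) (hsymm : ∀ x y, m x y → m y x)
    (hT : ∀ x y, ∃ z, C z ∧ Far m z x ∧ Far m z y)
    (hU : ∀ a b d, C a → C b → C d → Far m a b → Far m a d → Far m b d → ∀ x y,
      ¬ m a x → ¬ m b x → ¬ m d x → ¬ m a y → ¬ m b y → ¬ m d y → x = y)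
    (t z c c1 c2 g h a0 : V)
    (h0 : Far m c t)
    (h1 : Far m c1 t)
    (h2 : Far m c1 c)
    (h3 : Far m c z)
    (h4 : Far m c2 z)
    (h5 : Far m c2 c)
    (h6 : ¬ m z t)
    (h7 : ¬ m c1 z)
    (h8 : ¬ m c2 t)
    (h9 : m g c)
    (h10 : m h g)
    (h11 : m a0 z)
    (h12 : ¬ m a0 t)
    (h13 : m a0 c1)
    (h14 : ¬ (a0 = z))
    (h15 : m h t)
    (h16 : m h z)
    (h17 : C t)
    (h18 : C z)
    (h19 : C c)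
    (h20 : C c1)
    (h21 : C c2)
    : False := by
  let base : Nat → V := fun n => match n with
    | 0 => t
    | 1 => z
    | 2 => c
    | 3 => c1
    | 4 => c2
    | 5 => g
    | 6 => h
    | 7 => a0
    | _ => t
  refine refute ctx cert cert_ok hrefl hsymm hT hU base ?_
  intro p hp
  have p0 : p 0 = t := hp 0 (by decide)
  have p1 : p 1 = z := hp 1 (by decide)
  have p2 : p 2 = c := hp 2 (by decide)
  have p3 : p 3 = c1 := hp 3 (by decide)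
  have p4 : p 4 = c2 := hp 4 (by decide)
  have p5 : p 5 = g := hp 5 (by decide)
  have p6 : p 6 = h := hp 6 (by decide)
  have p7 : p 7 = a0 := hp 7 (by decide)
  have key : ∀ cl ∈ facts, CHolds m C p cl := by
    unfold facts
    intro cl hcl
    simp only [List.mem_cons, List.not_mem_nil, or_false] at hcl
    rcases hcl with rfl | rfl | rfl | rfl | rfl | rfl | rfl | rfl | rfl | rfl | rfl | rfl | rfl | rfl | rfl | rfl | rfl | rfl | rfl | rfl | rfl | rfl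
    · exact ⟨_, List.mem_cons_self, show Far m (p 2) (p 0) by rw [p0, p2]; exact h0⟩
    · exact ⟨_, List.mem_cons_self, show Far m (p 3) (p 0) by rw [p0, p3]; exact h1⟩
    · exact ⟨_, List.mem_cons_self, show Far m (p 3) (p 2) by rw [p2, p3]; exact h2⟩
    · exact ⟨_, List.mem_cons_self, show Far m (p 2) (p 1) by rw [p1, p2]; exact h3⟩
    · exact ⟨_, List.mem_cons_self, show Far m (p 4) (p 1) by rw [p1, p4]; exact h4⟩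
    · exact ⟨_, List.mem_cons_self, show Far m (p 4) (p 2) by rw [p2, p4]; exact h5⟩
    · exact ⟨_, List.mem_cons_self, show ¬ m (p 1) (p 0) by rw [p0, p1]; exact h6⟩
    · exact ⟨_, List.mem_cons_self, show ¬ m (p 3) (p 1) by rw [p1, p3]; exact h7⟩
    · exact ⟨_, List.mem_cons_self, show ¬ m (p 4) (p 0) by rw [p0, p4]; exact h8⟩
    · exact ⟨_, List.mem_cons_self, show m (p 5) (p 2) by rw [p2, p5]; exact h9⟩
    · exact ⟨_, List.mem_cons_self, show m (p 6) (p 5) by rw [p5, p6]; exact h10⟩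
    · exact ⟨_, List.mem_cons_self, show m (p 7) (p 1) by rw [p1, p7]; exact h11⟩
    · exact ⟨_, List.mem_cons_self, show ¬ m (p 7) (p 0) by rw [p0, p7]; exact h12⟩
    · exact ⟨_, List.mem_cons_self, show m (p 7) (p 3) by rw [p3, p7]; exact h13⟩
    · exact ⟨_, List.mem_cons_self, show ¬ ((p 7) = (p 1)) by rw [p1, p7]; exact h14⟩
    · exact ⟨_, List.mem_cons_self, show m (p 6) (p 0) by rw [p0, p6]; exact h15⟩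
    · exact ⟨_, List.mem_cons_self, show m (p 6) (p 1) by rw [p1, p6]; exact h16⟩
    · exact ⟨_, List.mem_cons_self, show C (p 0) ∧ C (p 0) by rw [p0]; exact ⟨h17, h17⟩⟩
    · exact ⟨_, List.mem_cons_self, show C (p 1) ∧ C (p 1) by rw [p1]; exact ⟨h18, h18⟩⟩
    · exact ⟨_, List.mem_cons_self, show C (p 2) ∧ C (p 2) by rw [p2]; exact ⟨h19, h19⟩⟩
    · exact ⟨_, List.mem_cons_self, show C (p 3) ∧ C (p 3) by rw [p3]; exact ⟨h20, h20⟩⟩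
    · exact ⟨_, List.mem_cons_self, show C (p 4) ∧ C (p 4) by rw [p4]; exact ⟨h21, h21⟩⟩
  exact key

end Pool.Agent.Star.FO.CertJ
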