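import Pool.Agent.Star.FO.Check

/-! Certificate `CertZ` (computer generated). -/

set_option autoImplicit false
set_option maxRecDepth 100000

namespace Pool.Agent.Star.FO.CertZ

/-- Literal `m`. -/
def M (i j : Nat) : Lit := .mk .mp i j
/-- Literal `not m`. -/
def m (i j : Nat) : Lit := .mk .mn i j
/-- Literal `=`. -/
def E (i j : Nat) : Lit := .mk .ep i j
/-- Literal `not =`. -/
def e (i j : Nat) : Lit := .mk .en i j
/-- Literal `Far`. -/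
def F (i j : Nat) : Lit := .mk .fp i j
/-- Literal `not Far`. -/
def f (i j : Nat) : Lit := .mk .fn i j
/-- Literal centre. -/
def C (i j : Nat) : Lit := .mk .cp i j
/-- Literal not centre. -/
def c (i j : Nat) : Lit := .mk .cn i j

/-- Defining pairs. -/
def ps : List (Nat × Nat) := [(0, 6), (1, 5), (1, 9), (0, 8), (4, 7), (7, 9), (0, 9)]

/-- Facts on the base points. -/
def facts : List (List Lit) := [[F 2 0], [F 3 0], [F 3 2], [F 2 1], [F 4 1], [F 4 2], [m 1 0], [m 3 1], [m 4 0], [M 5 2], [M 6 5], [M 7 1], [m 7 0], [M 7 3], [e 7 1], [M 6 3], [M 6 4], [C 0 0], [C 1 1], [C 2 2], [C 3 3], [C 4 4]]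

/-- The context. -/
def ctx : Ctx := ⟨8, ps, facts⟩

/-- Part of the certificate. -/
def e0 : List Entry := [
  .root (.ax (.refl 0) 0),
  .lem [m 2 0] [.ax (.fact 0) 0, .ax (.far 0 2 0) 3],
  .lem [m 3 0] [.ax (.fact 1) 0, .ax (.far 0 3 0) 3],
  .lem [m 6 0, m 6 3] [.ax (.fact 1) 0, .ax (.far 0 3 6) 3],
  .root (.ax (.refl 2) 0),
  .lem [m 3 2] [.ax (.fact 2) 0, .ax (.far 2 3 2) 3],
  .lem [m 5 2, m 5 3] [.ax (.fact 2) 0, .ax (.far 2 3 5) 3],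
  .root (.ax (.refl 1) 0),
  .lem [m 2 1] [.ax (.fact 3) 0, .ax (.far 1 2 1) 3],
  .lem [m 4 1] [.ax (.fact 4) 0, .ax (.far 1 4 1) 3],
  .root (.ax (.refl 4) 0),
  .lem [e 4 1] [.ax (.em 4 1 4) 3]]

/-- Part of the certificate. -/
def e1 : List Entry := [
  .lem [m 6 1, m 6 4] [.ax (.fact 4) 0, .ax (.far 1 4 6) 3],
  .lem [m 4 2] [.ax (.fact 5) 0, .ax (.far 2 4 2) 3],
  .lem [m 5 3] [.ax (.fact 9) 0, .lm 1 2],
  .lem [m 7 1, m 7 2] [.ax (.fact 3) 0, .ax (.far 1 2 7) 3],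
  .lem [m 7 1, m 7 4] [.ax (.fact 4) 0, .ax (.far 1 4 7) 3],
  .lem [m 7 2] [.ax (.fact 11) 0, .lm 1 2],
  .lem [m 7 4] [.ax (.fact 11) 0, .lm 0 2],
  .lem [m 6 0] [.ax (.fact 15) 0, .lm 4 2],
  .root (.ax (.refl 6) 0),
  .lem [e 6 0] [.ax (.em 6 0 6) 3],
  .lem [m 6 1] [.ax (.fact 16) 0, .lm 2 2],
  .lem [m 8 1, m 8 2] [.ax (.fact 3) 0, .ax (.far 1 2 8) 3]]

/-- Part of the certificate. -/
def e2 : List Entry := [
  .lem [m 8 0] [.ax (.sk1 8) 0, .ax (.far 0 8 0) 3],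
  .root (.ax (.refl 8) 0),
  .lem [e 8 0] [.ax (.em 8 0 8) 3],
  .lem [m 8 3] [.ax (.sk2 8) 0, .ax (.fact 15) 0, .ax (.far 6 8 3) 3],
  .lem [e 8 3] [.ax (.em 8 3 8) 3],
  .lem [m 8 4] [.ax (.sk2 8) 0, .ax (.fact 16) 0, .ax (.far 6 8 4) 3],
  .root (.ax (.fact 17) 0),
  .root (.ax (.fact 19) 0),
  .root (.ax (.fact 20) 0),
  .lem [M 8 2, E 8 1] [.ax (.fact 0) 0, .ax (.fact 1) 0, .ax (.fact 2) 0, .ax (.fact 6) 0, .ax (.fact 7) 0, .ax (.un 0 2 3 1 8) 13],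
  .lem [e 8 1, F 1 0] [.ax (.sk1 8) 0, .ax (.ef 8 1 0) 3],
  .lem [m 9 0, m 9 3] [.ax (.fact 1) 0, .ax (.far 0 3 9) 3]]

/-- Part of the certificate. -/
def e3 : List Entry := [
  .lem [m 9 0, m 9 8] [.ax (.sk1 8) 0, .ax (.far 0 8 9) 3],
  .lem [m 9 1] [.ax (.sk1 9) 0, .ax (.far 1 9 1) 3],
  .root (.ax (.refl 9) 0),
  .lem [e 9 1] [.ax (.em 9 1 9) 3],
  .lem [m 9 7] [.ax (.sk1 9) 0, .ax (.fact 11) 0, .ax (.far 1 9 7) 3],
  .lem [m 9 2] [.ax (.sk2 9) 0, .ax (.fact 9) 0, .ax (.far 5 9 2) 3],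
  .lem [m 9 6] [.ax (.sk2 9) 0, .ax (.fact 10) 0, .ax (.far 5 9 6) 3],
  .lem [M 9 0, M 9 3] [.ax (.fact 0) 0, .ax (.fact 1) 0, .ax (.fact 2) 0, .ax (.fact 6) 0, .ax (.fact 7) 0, .ax (.un 0 2 3 1 9) 13],
  .root (.ax (.fact 18) 0),
  .root (.ax (.fact 21) 0),
  .lem [M 9 4, E 9 0] [.ax (.fact 3) 0, .ax (.fact 4) 0, .ax (.fact 5) 0, .ax (.fact 6) 0, .ax (.fact 8) 0, .ax (.un 1 2 4 0 9) 13],
  .lem [e 9 0, F 1 0] [.ax (.sk1 9) 0, .ax (.ef 9 0 1) 3]]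

/-- Part of the certificate. -/
def e4 : List Entry := [
  .lem [m 10 0, m 10 2] [.ax (.fact 0) 0, .ax (.far 0 2 10) 3],
  .lem [m 10 2, m 10 3] [.ax (.fact 2) 0, .ax (.far 2 3 10) 3],
  .lem [m 10 6, m 10 8] [.ax (.sk2 8) 0, .ax (.far 6 8 10) 3],
  .lem [m 10 1] [.ax (.sk1 10) 0, .ax (.far 1 10 1) 3],
  .lem [m 9 4, m 10 4] [.ax (.sk2 10) 0, .ax (.far 9 10 4) 3],
  .lem [M 10 2, M 10 4, E 10 0] [.ax (.fact 3) 0, .ax (.fact 4) 0, .ax (.fact 5) 0, .ax (.fact 6) 0, .ax (.fact 8) 0, .ax (.un 1 2 4 0 10) 13],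
  .lem [e 10 4, F 9 4] [.ax (.sk2 10) 0, .ax (.ef 10 4 9) 3],
  .lem [f 1 0, E 4 3] [.ax (.fact 0) 0, .ax (.fact 3) 0, .ax (.fact 7) 0, .ax (.fact 8) 0, .ax (.un 0 1 2 3 4) 13],
  .lem [e 4 3] [.ax (.fact 13) 0, .ax (.em 3 4 7) 3],
  .lem [f 1 0] [.lm 0 2],
  .lem [e 8 1] [.lm 12 2],
  .lem [e 9 0] [.lm 7 2]]

/-- Part of the certificate. -/
def e5 : List Entry := [
  .lem [M 8 2] [.lm 13 2],
  .lem [M 9 4] [.lm 8 2],
  .lem [m 8 1] [.lm 14 2],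
  .lem [f 9 4] [.ax (.far 4 9 4) 3],
  .lem [m 10 4] [.lm 3 2],
  .lem [e 10 4] [.lm 1 2],
  .lem [e 6 3] [.ax (.fact 10) 0, .ax (.em 6 3 5) 3],
  .root (.ax (.skc 9) 0),
  .root (.ax (.skc 10) 0),
  .lem [M 9 3, M 10 3, M 9 8, M 10 8] [.ax (.sk1 9) 0, .ax (.sk1 10) 0, .ax (.sk2 10) 0, .ax (.fact 7) 0, .ax (.un 1 9 10 3 8) 13],
  .lem [M 9 3, M 10 3, M 10 6] [.ax (.sk1 9) 0, .ax (.sk1 10) 0, .ax (.sk2 10) 0, .ax (.fact 7) 0, .ax (.un 1 9 10 3 6) 13],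
  .lem [M 9 0, M 10 0, M 9 8, M 10 8] [.ax (.sk1 9) 0, .ax (.sk1 10) 0, .ax (.sk2 10) 0, .ax (.fact 6) 0, .ax (.un 1 9 10 0 8) 13]]

/-- Part of the certificate. -/
def e6 : List Entry := [
  .lem [M 9 0, M 10 0, M 10 6] [.ax (.sk1 9) 0, .ax (.sk1 10) 0, .ax (.sk2 10) 0, .ax (.fact 6) 0, .ax (.un 1 9 10 0 6) 13],
  .lem [e 10 0] [.ax (.sk1 10) 0, .ax (.ef 10 0 1) 3],
  .lem [M 10 2] [.lm 6 3],
  .lem [m 10 0] [.lm 10 2],
  .lem [m 10 3] [.lm 9 2],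
  .lem [m 11 1, m 11 4] [.ax (.fact 4) 0, .ax (.far 1 4 11) 3],
  .lem [m 11 1, m 11 10] [.ax (.sk1 10) 0, .ax (.far 1 10 11) 3],
  .root (.ax (.skc 8) 0),
  .root (.ax (.skc 11) 0),
  .lem [M 11 1, M 11 4] [.ax (.sk1 8) 0, .ax (.sk1 11) 0, .ax (.sk2 11) 0, .ax (.fact 6) 0, .ax (.fact 8) 0, .ax (.un 0 8 11 1 4) 13],
  .lem [M 11 1, M 8 7, M 11 7] [.ax (.sk1 8) 0, .ax (.sk1 11) 0, .ax (.sk2 11) 0, .ax (.fact 6) 0, .ax (.fact 12) 0, .ax (.fact 14) 0, .ax (.un 0 8 11 1 7) 13],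
  .lem [M 11 4, M 10 8, M 11 10] [.ax (.sk1 8) 0, .ax (.sk1 11) 0, .ax (.sk2 11) 0, .ax (.fact 8) 0, .ax (.un 0 8 11 4 10) 13]]

/-- Part of the certificate. -/
def e7 : List Entry := [
  .lem [m 12 0, m 12 2] [.ax (.fact 0) 0, .ax (.far 0 2 12) 3],
  .lem [m 12 4] [.ax (.sk1 12) 0, .ax (.far 4 12 4) 3],
  .lem [m 12 9] [.ax (.sk1 12) 0, .ax (.far 4 12 9) 3],
  .lem [m 11 4, m 12 11] [.ax (.sk1 12) 0, .ax (.far 4 12 11) 3],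
  .lem [m 12 1] [.ax (.sk2 12) 0, .ax (.fact 11) 0, .ax (.far 7 12 1) 3],
  .root (.ax (.refl 12) 0),
  .lem [e 12 1] [.ax (.em 12 1 12) 3],
  .lem [m 8 7, m 12 8] [.ax (.sk2 12) 0, .ax (.far 7 12 8) 3],
  .lem [M 11 1, M 12 0, M 12 8, M 12 11] [.ax (.sk1 8) 0, .ax (.sk1 11) 0, .ax (.sk2 11) 0, .ax (.fact 6) 0, .ax (.un 0 8 11 1 12) 13],
  .lem [M 12 2, E 12 0] [.ax (.fact 3) 0, .ax (.fact 4) 0, .ax (.fact 5) 0, .ax (.fact 6) 0, .ax (.fact 8) 0, .ax (.un 1 2 4 0 12) 13],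
  .lem [e 12 0, F 4 0] [.ax (.sk1 12) 0, .ax (.ef 12 0 4) 3],
  .lem [f 4 0] [.ax (.fact 0) 0, .ax (.fact 5) 0, .ax (.fact 6) 0, .ax (.fact 12) 0, .ax (.fact 14) 0, .ax (.un 0 2 4 1 7) 13]]

/-- Part of the certificate. -/
def e8 : List Entry := [
  .lem [e 12 0] [.lm 0 2],
  .lem [M 12 2] [.lm 1 2],
  .lem [m 12 0] [.lm 5 2],
  .lem [m 13 0, m 13 2] [.ax (.fact 0) 0, .ax (.far 0 2 13) 3],
  .root (.ax (.refl 7) 0),
  .lem [m 13 7] [.ax (.sk1 13) 0, .ax (.far 7 13 7) 3],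
  .lem [m 13 1] [.ax (.sk1 13) 0, .ax (.fact 11) 0, .ax (.far 7 13 1) 3],
  .root (.ax (.refl 13) 0),
  .lem [e 13 1] [.ax (.em 13 1 13) 3],
  .lem [m 11 7, m 13 11] [.ax (.sk1 13) 0, .ax (.far 7 13 11) 3],
  .lem [m 13 4] [.ax (.sk2 13) 0, .ax (.far 9 13 4) 3],
  .lem [m 9 8, m 13 8] [.ax (.sk2 13) 0, .ax (.far 9 13 8) 3]]

/-- Part of the certificate. -/
def e9 : List Entry := [
  .lem [M 11 1, M 13 0, M 13 8, M 13 11] [.ax (.sk1 8) 0, .ax (.sk1 11) 0, .ax (.sk2 11) 0, .ax (.fact 6) 0, .ax (.un 0 8 11 1 13) 13],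
  .lem [M 13 2, E 13 0] [.ax (.fact 3) 0, .ax (.fact 4) 0, .ax (.fact 5) 0, .ax (.fact 6) 0, .ax (.fact 8) 0, .ax (.un 1 2 4 0 13) 13],
  .lem [e 13 0, F 9 0] [.ax (.sk2 13) 0, .ax (.ef 13 0 9) 3],
  .lem [m 14 1, m 14 2] [.ax (.fact 3) 0, .ax (.far 1 2 14) 3],
  .lem [m 14 7, m 14 12] [.ax (.sk2 12) 0, .ax (.far 7 12 14) 3],
  .lem [m 14 0] [.ax (.sk1 14) 0, .ax (.far 0 14 0) 3],
  .lem [m 9 3, m 14 3] [.ax (.sk2 14) 0, .ax (.far 9 14 3) 3],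
  .lem [e 13 0, F 14 13] [.ax (.sk1 14) 0, .ax (.ef 0 13 14) 3],
  .lem [M 14 2, M 14 3, E 14 1] [.ax (.fact 0) 0, .ax (.fact 1) 0, .ax (.fact 2) 0, .ax (.fact 6) 0, .ax (.fact 7) 0, .ax (.un 0 2 3 1 14) 13],
  .lem [e 14 1] [.ax (.sk1 14) 0, .ax (.ef 14 1 0) 3],
  .root (.ax (.skc 13) 0),
  .root (.ax (.skc 14) 0)]

/-- Part of the certificate. -/
def e10 : List Entry := [
  .lem [f 14 13, M 14 1, M 14 7] [.ax (.sk2 13) 0, .ax (.sk2 14) 0, .ax (.fact 14) 0, .ax (.un 9 13 14 1 7) 13],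
  .lem [f 9 0, M 14 1, M 14 12] [.ax (.sk1 14) 0, .ax (.sk2 14) 0, .ax (.fact 6) 0, .ax (.un 0 9 14 1 12) 13],
  .lem [M 10 6] [.lm 24 0, .lm 26 0, .lm 39 2],
  .lem [m 10 8] [.lm 32 2],
  .lem [m 11 1] [.lm 23 1, .lm 22 1, .lm 19 3],
  .lem [M 11 4] [.lm 21 2],
  .lem [m 12 11] [.lm 17 2],
  .lem [M 12 8] [.lm 15 4],
  .lem [m 8 7] [.lm 16 2],
  .lem [M 11 7] [.lm 20 3],
  .lem [m 13 11] [.lm 11 2],
  .lem [M 9 8] [.lm 25 0, .lm 27 0, .lm 39 2]]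

/-- Part of the certificate. -/
def e11 : List Entry := [
  .lem [m 9 0] [.lm 38 2],
  .lem [m 13 8] [.lm 10 2],
  .lem [M 9 3] [.lm 37 2],
  .lem [M 13 0] [.lm 9 4],
  .lem [m 14 3] [.lm 4 2],
  .lem [m 13 2] [.lm 12 2],
  .lem [M 14 2] [.lm 2 3],
  .lem [E 13 0] [.lm 8 2],
  .lem [m 14 1] [.lm 6 2],
  .lem [F 9 0] [.lm 7 2],
  .lem [M 14 12] [.lm 0 3],
  .lem [m 14 7] [.lm 5 2]]

/-- Part of the certificate. -/
def e12 : List Entry := [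
  .lem [F 14 13] [.lm 3 2],
  .lem [] [.lm 1 3]]

/-- The certificate. -/
def cert : List Entry :=
  e0 ++ (e1 ++ (e2 ++ (e3 ++ (e4 ++ (e5 ++ (e6 ++ (e7 ++ (e8 ++ (e9 ++ (e10 ++ (e11 ++ (e12))))))))))))

theorem cert_ok : (bif okPs ctx.b ctx.ps then (bif Nat.blt 0 ctx.b then check ctx cert 0 [] else false)
    else false) = true := by decide +kernel

theorem config {V : Type*} {m : V → V → Prop} {C : V → Prop}
    (hrefl : ∀ x, m x x) (hsymm : ∀ x y, m x y → m y x)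
    (hT : ∀ x y, ∃ z, C z ∧ Far m z x ∧ Far m z y)
    (hU : ∀ a b d, C a → C b → C d → Far m a b → Far m a d → Far m b d → ∀ x y,
      ¬ m a x → ¬ m b x → ¬ m d x → ¬ m a y → ¬ m b y → ¬ m d y → x = y)
    (t z c c1 c2 g h a0 : V)
    (h0 : Far m c t)
    (h1 : Far m c1 t)
    (h2 : Far m c1 c)
    (h3 : Far m c z)
    (h4 : Far m c2 z)
    (h5 : Far m c2 c)
    (h6 : ¬ m z t)
    (h7 : ¬ m c1 z)
    (h8 : ¬ m c2 t)
    (h9 : m g c)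
    (h10 : m h g)
    (h11 : m a0 z)
    (h12 : ¬ m a0 t)
    (h13 : m a0 c1)
    (h14 : ¬ (a0 = z))
    (h15 : m h c1)
    (h16 : m h c2)
    (h17 : C t)
    (h18 : C z)
    (h19 : C c)
    (h20 : C c1)
    (h21 : C c2)
    : False := by
  let base : Nat → V := fun n => match n with
    | 0 => t
    | 1 => z
    | 2 => c
    | 3 => c1
    | 4 => c2
    | 5 => g
    | 6 => h
    | 7 => a0
    | _ => t
  refine refute ctx cert cert_ok hrefl hsymm hT hU base ?_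
  intro p hp
  have p0 : p 0 = t := hp 0 (by decide)
  have p1 : p 1 = z := hp 1 (by decide)
  have p2 : p 2 = c := hp 2 (by decide)
  have p3 : p 3 = c1 := hp 3 (by decide)
  have p4 : p 4 = c2 := hp 4 (by decide)
  have p5 : p 5 = g := hp 5 (by decide)
  have p6 : p 6 = h := hp 6 (by decide)
  have p7 : p 7 = a0 := hp 7 (by decide)
  have key : ∀ cl ∈ facts, CHolds m C p cl := by
    unfold facts
    intro cl hcl
    simp only [List.mem_cons, List.not_mem_nil, or_false] at hcl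
    rcases hcl with rfl | rfl | rfl | rfl | rfl | rfl | rfl | rfl | rfl | rfl | rfl | rfl | rfl | rfl | rfl | rfl | rfl | rfl | rfl | rfl | rfl | rfl
    · exact ⟨_, List.mem_cons_self, show Far m (p 2) (p 0) by rw [p0, p2]; exact h0⟩
    · exact ⟨_, List.mem_cons_self, show Far m (p 3) (p 0) by rw [p0, p3]; exact h1⟩
    · exact ⟨_, List.mem_cons_self, show Far m (p 3) (p 2) by rw [p2, p3]; exact h2⟩
    · exact ⟨_, List.mem_cons_self, show Far m (p 2) (p 1) by rw [p1, p2]; exact h3⟩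
    · exact ⟨_, List.mem_cons_self, show Far m (p 4) (p 1) by rw [p1, p4]; exact h4⟩
    · exact ⟨_, List.mem_cons_self, show Far m (p 4) (p 2) by rw [p2, p4]; exact h5⟩
    · exact ⟨_, List.mem_cons_self, show ¬ m (p 1) (p 0) by rw [p0, p1]; exact h6⟩
    · exact ⟨_, List.mem_cons_self, show ¬ m (p 3) (p 1) by rw [p1, p3]; exact h7⟩
    · exact ⟨_, List.mem_cons_self, show ¬ m (p 4) (p 0) by rw [p0, p4]; exact h8⟩
    · exact ⟨_, List.mem_cons_self, show m (p 5) (p 2) by rw [p2, p5]; exact h9⟩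
    · exact ⟨_, List.mem_cons_self, show m (p 6) (p 5) by rw [p5, p6]; exact h10⟩
    · exact ⟨_, List.mem_cons_self, show m (p 7) (p 1) by rw [p1, p7]; exact h11⟩
    · exact ⟨_, List.mem_cons_self, show ¬ m (p 7) (p 0) by rw [p0, p7]; exact h12⟩
    · exact ⟨_, List.mem_cons_self, show m (p 7) (p 3) by rw [p3, p7]; exact h13⟩
    · exact ⟨_, List.mem_cons_self, show ¬ ((p 7) = (p 1)) by rw [p1, p7]; exact h14⟩
    · exact ⟨_, List.mem_cons_self, show m (p 6) (p 3) by rw [p3, p6]; exact h15⟩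
    · exact ⟨_, List.mem_cons_self, show m (p 6) (p 4) by rw [p4, p6]; exact h16⟩
    · exact ⟨_, List.mem_cons_self, show C (p 0) ∧ C (p 0) by rw [p0]; exact ⟨h17, h17⟩⟩
    · exact ⟨_, List.mem_cons_self, show C (p 1) ∧ C (p 1) by rw [p1]; exact ⟨h18, h18⟩⟩
    · exact ⟨_, List.mem_cons_self, show C (p 2) ∧ C (p 2) by rw [p2]; exact ⟨h19, h19⟩⟩
    · exact ⟨_, List.mem_cons_self, show C (p 3) ∧ C (p 3) by rw [p3]; exact ⟨h20, h20⟩⟩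
    · exact ⟨_, List.mem_cons_self, show C (p 4) ∧ C (p 4) by rw [p4]; exact ⟨h21, h21⟩⟩
  exact key

end Pool.Agent.Star.FO.CertZ
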