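import Pool.Agent.Star.FO.CertT
import Pool.Agent.Star.FO.CertZ
import Pool.Agent.Star.FO.CertJ
import Pool.Agent.Star.FO.CertB

/-!
# The two base configurations for `s = 3` and at most one uncovered point

`m` is a reflexive symmetric relation (closed adjacency), `C` a set of centres; any two points have
a common far centre, and three pairwise far centres miss at most one point.

`config_a`: if the packing `t, c, c1` misses the centre `z` and the packing `z, c, c2` misses `t`,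
and `z` has a neighbour other than itself that is not a neighbour of `t`, then no edge leaves the
closed neighbourhood of `c`.

`config_b`: the same conclusion for a centre `c` far from `t` and `z` with packings `t, c, c1`
missing `z1`, `z, c, c2` missing `t1`, `z, z1, r` missing `t` and `t, t1, r1` missing `z`.
-/

set_option autoImplicit false

namespace Pool.Agent.Star.FO

variable {V : Type*} {m : V → V → Prop} {C : V → Prop}

theorem config_a (hrefl : ∀ x, m x x) (hsymm : ∀ x y, m x y → m y x)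
    (hT : ∀ x y, ∃ z, C z ∧ Far m z x ∧ Far m z y)
    (hU : ∀ a b d, C a → C b → C d → Far m a b → Far m a d → Far m b d → ∀ x y,
      ¬ m a x → ¬ m b x → ¬ m d x → ¬ m a y → ¬ m b y → ¬ m d y → x = y)
    {t z c c1 c2 a0 g h : V} (ct : C t) (cz : C z) (cc : C c) (cc1 : C c1) (cc2 : C c2)
    (ftc : Far m t c) (ftc1 : Far m t c1) (fcc1 : Far m c c1)
    (fzc : Far m z c) (fzc2 : Far m z c2) (fcc2 : Far m c c2)
    (ntz : ¬ m t z) (nc1z : ¬ m c1 z) (nc2t : ¬ m c2 t)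
    (ha0 : m z a0) (ha0t : ¬ m t a0) (ha0z : a0 ≠ z)
    (hg : m c g) (hh : ¬ m c h) (hgh : m g h) : False := by
  have hcz : ¬ m c z := fun hcz => fzc z ⟨hrefl z, hcz⟩
  have hct : ¬ m c t := fun hct => ftc t ⟨hrefl t, hct⟩
  have ns : ∀ {x y}, ¬ m x y → ¬ m y x := fun h h' => h (hsymm _ _ h')
  have a0c1 : m c1 a0 := by
    by_contra hcon
    exact ha0z (hU t c c1 ct cc cc1 ftc ftc1 fcc1 a0 z ha0t (fun h' => fzc a0 ⟨ha0, h'⟩) hcon
      ntz hcz nc1z)
  have hz : h ≠ z := by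
    rintro rfl
    exact fzc g ⟨hsymm _ _ hgh, hg⟩
  have ht : h ≠ t := by
    rintro rfl
    exact ftc g ⟨hsymm _ _ hgh, hg⟩
  have h1 : m t h ∨ m c1 h := by
    by_contra hcon
    rw [not_or] at hcon
    exact hz (hU t c c1 ct cc cc1 ftc ftc1 fcc1 h z hcon.1 hh hcon.2 ntz hcz nc1z)
  have h2 : m z h ∨ m c2 h := by
    by_contra hcon
    rw [not_or] at hcon
    exact ht (hU z c c2 cz cc cc2 fzc fzc2 fcc2 h t hcon.1 hh hcon.2 (ns ntz) hct nc2t)
  by_cases hth : m t h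
  · by_cases hzh : m z h
    · exact CertJ.config hrefl hsymm hT hU t z c c1 c2 g h a0 (far_symm ftc) (far_symm ftc1)
        (far_symm fcc1) (far_symm fzc) (far_symm fzc2) (far_symm fcc2) (ns ntz) nc1z nc2t
        (hsymm _ _ hg) (hsymm _ _ hgh) (hsymm _ _ ha0) (ns ha0t) (hsymm _ _ a0c1) ha0z
        (hsymm _ _ hth) (hsymm _ _ hzh) ct cz cc cc1 cc2
    · exact CertT.config hrefl hsymm hT hU t z c c1 c2 g h (far_symm ftc) (far_symm ftc1)
        (far_symm fcc1) (far_symm fzc) (far_symm fzc2) (far_symm fcc2) (ns ntz) nc1z nc2t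
        (hsymm _ _ hg) (ns hh) (hsymm _ _ hgh) (hsymm _ _ hth) (ns hzh) ct cz cc cc1 cc2
  · have hc1h : m c1 h := h1.resolve_left hth
    by_cases hzh : m z h
    · exact CertT.config hrefl hsymm hT hU z t c c2 c1 g h (far_symm fzc) (far_symm fzc2)
        (far_symm fcc2) (far_symm ftc) (far_symm ftc1) (far_symm fcc1) ntz nc2t nc1z
        (hsymm _ _ hg) (ns hh) (hsymm _ _ hgh) (hsymm _ _ hzh) (ns hth) cz ct cc cc2 cc1
    · exact CertZ.config hrefl hsymm hT hU t z c c1 c2 g h a0 (far_symm ftc) (far_symm ftc1)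
        (far_symm fcc1) (far_symm fzc) (far_symm fzc2) (far_symm fcc2) (ns ntz) nc1z nc2t
        (hsymm _ _ hg) (hsymm _ _ hgh) (hsymm _ _ ha0) (ns ha0t) (hsymm _ _ a0c1) ha0z
        (hsymm _ _ hc1h) (hsymm _ _ (h2.resolve_left hzh)) ct cz cc cc1 cc2

theorem config_b (hrefl : ∀ x, m x x) (hsymm : ∀ x y, m x y → m y x)
    (hT : ∀ x y, ∃ z, C z ∧ Far m z x ∧ Far m z y)
    (hU : ∀ a b d, C a → C b → C d → Far m a b → Far m a d → Far m b d → ∀ x y,
      ¬ m a x → ¬ m b x → ¬ m d x → ¬ m a y → ¬ m b y → ¬ m d y → x = y)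
    {t z z1 t1 c c1 c2 r r1 g h : V} (ct : C t) (cz : C z) (cz1 : C z1) (ct1 : C t1) (cc : C c)
    (cc1 : C c1) (cc2 : C c2) (cr : C r) (cr1 : C r1)
    (ftc : Far m t c) (ftc1 : Far m t c1) (fcc1 : Far m c c1)
    (fzc : Far m z c) (fzc2 : Far m z c2) (fcc2 : Far m c c2)
    (fzz1 : Far m z z1) (fzr : Far m z r) (fz1r : Far m z1 r)
    (ftt1 : Far m t t1) (ftr1 : Far m t r1) (ft1r1 : Far m t1 r1)
    (nz1t : ¬ m z1 t) (ncz1 : ¬ m c z1) (nc1z1 : ¬ m c1 z1)
    (nt1z : ¬ m t1 z) (nct1 : ¬ m c t1) (nc2t1 : ¬ m c2 t1)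
    (nzt : ¬ m z t) (nrt : ¬ m r t) (nr1z : ¬ m r1 z)
    (hg : m c g) (hh : ¬ m c h) (hgh : m g h) : False := by
  have ns : ∀ {x y}, ¬ m x y → ¬ m y x := fun h h' => h (hsymm _ _ h')
  exact CertB.config hrefl hsymm hT hU t z z1 t1 c c1 c2 r r1 g h (far_symm ftc) (far_symm ftc1)
    (far_symm fcc1) (far_symm fzc) (far_symm fzc2) (far_symm fcc2) (far_symm fzz1)
    (far_symm fzr) (far_symm fz1r) (far_symm ftt1) (far_symm ftr1) (far_symm ft1r1)
    nz1t ncz1 nc1z1 nt1z nct1 nc2t1 nzt nrt nr1z (hsymm _ _ hg) (ns hh) (hsymm _ _ hgh)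
    ct cz cz1 ct1 cc cc1 cc2 cr cr1

end Pool.Agent.Star.FO
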