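import Pool.Agent.Star.FO.Check

/-! Certificate `CertT` (computer generated). -/

set_option autoImplicit false
set_option maxRecDepth 100000

namespace Pool.Agent.Star.FO.CertT

/-- Literal `m`. -/
def M (i j : Nat) : Lit := .mk .mp i j
/-- Literal `not m`. -/
def m (i j : Nat) : Lit := .mk .mn i j
/-- Literal `=`. -/
def E (i j : Nat) : Lit := .mk .ep i j
/-- Literal `not =`. -/
def e (i j : Nat) : Lit := .mk .en i j
/-- Literal `Far`. -/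
def F (i j : Nat) : Lit := .mk .fp i j
/-- Literal `not Far`. -/
def f (i j : Nat) : Lit := .mk .fn i j
/-- Literal centre. -/
def C (i j : Nat) : Lit := .mk .cp i j
/-- Literal not centre. -/
def c (i j : Nat) : Lit := .mk .cn i j

/-- Defining pairs. -/
def ps : List (Nat × Nat) := [(1, 5), (1, 7), (3, 6), (3, 9), (4, 6)]

/-- Facts on the base points. -/
def facts : List (List Lit) := [[F 2 0], [F 3 0], [F 3 2], [F 2 1], [F 4 1], [F 4 2], [m 1 0], [m 3 1], [m 4 0], [M 5 2], [m 6 2], [M 6 5], [M 6 0], [m 6 1], [C 0 0], [C 1 1], [C 2 2], [C 3 3], [C 4 4]]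

/-- The context. -/
def ctx : Ctx := ⟨7, ps, facts⟩

/-- Part of the certificate. -/
def e0 : List Entry := [
  .root (.ax (.refl 0) 0),
  .lem [m 2 0] [.ax (.fact 0) 0, .ax (.far 0 2 0) 3],
  .lem [m 5 0, m 5 2] [.ax (.fact 0) 0, .ax (.far 0 2 5) 3],
  .lem [m 3 0] [.ax (.fact 1) 0, .ax (.far 0 3 0) 3],
  .lem [m 6 0, m 6 3] [.ax (.fact 1) 0, .ax (.far 0 3 6) 3],
  .root (.ax (.refl 1) 0),
  .lem [m 2 1] [.ax (.fact 3) 0, .ax (.far 1 2 1) 3],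
  .lem [m 5 1, m 5 2] [.ax (.fact 3) 0, .ax (.far 1 2 5) 3],
  .lem [m 4 1] [.ax (.fact 4) 0, .ax (.far 1 4 1) 3],
  .root (.ax (.refl 4) 0),
  .lem [e 4 1] [.ax (.em 4 1 4) 3],
  .root (.ax (.refl 2) 0)]

/-- Part of the certificate. -/
def e1 : List Entry := [
  .lem [m 4 2] [.ax (.fact 5) 0, .ax (.far 2 4 2) 3],
  .lem [m 5 0] [.ax (.fact 9) 0, .lm 2 2],
  .lem [m 5 1] [.ax (.fact 9) 0, .lm 0 2],
  .lem [m 6 3] [.ax (.fact 12) 0, .lm 1 2],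
  .root (.ax (.refl 6) 0),
  .lem [e 6 3] [.ax (.em 6 3 6) 3],
  .root (.ax (.fact 14) 0),
  .root (.ax (.fact 16) 0),
  .root (.ax (.fact 17) 0),
  .lem [M 4 3] [.ax (.fact 0) 0, .ax (.fact 1) 0, .ax (.fact 2) 0, .ax (.fact 6) 0, .ax (.fact 7) 0, .ax (.fact 8) 0, .ax (.un 0 2 3 1 4) 13],
  .root (.ax (.fact 15) 0),
  .root (.ax (.fact 18) 0)]

/-- Part of the certificate. -/
def e2 : List Entry := [
  .lem [M 6 4, E 6 0] [.ax (.fact 3) 0, .ax (.fact 4) 0, .ax (.fact 5) 0, .ax (.fact 6) 0, .ax (.fact 8) 0, .ax (.fact 13) 0, .ax (.fact 10) 0, .ax (.un 1 2 4 0 6) 13],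
  .lem [e 6 0] [.ax (.fact 11) 0, .ax (.em 6 0 5) 3],
  .lem [M 6 4] [.lm 0 2],
  .lem [m 7 0, m 7 3] [.ax (.fact 1) 0, .ax (.far 0 3 7) 3],
  .lem [m 7 1] [.ax (.sk1 7) 0, .ax (.far 1 7 1) 3],
  .root (.ax (.refl 5) 0),
  .lem [m 7 5] [.ax (.sk2 7) 0, .ax (.far 5 7 5) 3],
  .lem [m 7 2] [.ax (.sk2 7) 0, .ax (.fact 9) 0, .ax (.far 5 7 2) 3],
  .lem [m 7 6] [.ax (.sk2 7) 0, .ax (.fact 11) 0, .ax (.far 5 7 6) 3],
  .lem [M 7 4, E 7 0] [.ax (.fact 3) 0, .ax (.fact 4) 0, .ax (.fact 5) 0, .ax (.fact 6) 0, .ax (.fact 8) 0, .ax (.un 1 2 4 0 7) 13],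
  .lem [e 7 0] [.ax (.fact 12) 0, .ax (.em 0 7 6) 3],
  .lem [M 7 4] [.lm 0 2]]

/-- Part of the certificate. -/
def e3 : List Entry := [
  .lem [m 8 0, m 8 2] [.ax (.fact 0) 0, .ax (.far 0 2 8) 3],
  .lem [m 8 2, m 8 3] [.ax (.fact 2) 0, .ax (.far 2 3 8) 3],
  .lem [m 8 1] [.ax (.sk1 8) 0, .ax (.far 1 8 1) 3],
  .lem [m 8 4] [.ax (.sk2 8) 0, .ax (.far 7 8 4) 3],
  .lem [M 8 2, E 8 0] [.ax (.fact 3) 0, .ax (.fact 4) 0, .ax (.fact 5) 0, .ax (.fact 6) 0, .ax (.fact 8) 0, .ax (.un 1 2 4 0 8) 13],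
  .root (.ax (.skc 7) 0),
  .root (.ax (.skc 8) 0),
  .lem [M 8 2, M 8 5, E 5 2] [.ax (.sk1 7) 0, .ax (.sk1 8) 0, .ax (.sk2 8) 0, .ax (.un 1 7 8 2 5) 13],
  .lem [M 7 3, M 8 3, M 8 6] [.ax (.sk1 7) 0, .ax (.sk1 8) 0, .ax (.sk2 8) 0, .ax (.fact 7) 0, .ax (.fact 13) 0, .ax (.un 1 7 8 3 6) 13],
  .lem [M 7 0, M 8 0, M 8 6] [.ax (.sk1 7) 0, .ax (.sk1 8) 0, .ax (.sk2 8) 0, .ax (.fact 6) 0, .ax (.fact 13) 0, .ax (.un 1 7 8 0 6) 13],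
  .lem [m 9 1, m 9 2] [.ax (.fact 3) 0, .ax (.far 1 2 9) 3],
  .root (.ax (.refl 3) 0)]

/-- Part of the certificate. -/
def e4 : List Entry := [
  .lem [m 9 3] [.ax (.sk1 9) 0, .ax (.far 3 9 3) 3],
  .root (.ax (.refl 9) 0),
  .lem [e 9 3] [.ax (.em 9 3 9) 3],
  .lem [m 7 3, m 9 7] [.ax (.sk1 9) 0, .ax (.far 3 9 7) 3],
  .lem [m 9 6] [.ax (.sk2 9) 0, .ax (.far 6 9 6) 3],
  .lem [m 9 0] [.ax (.sk2 9) 0, .ax (.fact 12) 0, .ax (.far 6 9 0) 3],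
  .lem [e 9 0] [.ax (.em 9 0 9) 3],
  .lem [m 8 6, m 9 8] [.ax (.sk2 9) 0, .ax (.far 6 9 8) 3],
  .lem [M 9 2, E 9 1] [.ax (.fact 0) 0, .ax (.fact 1) 0, .ax (.fact 2) 0, .ax (.fact 6) 0, .ax (.fact 7) 0, .ax (.un 0 2 3 1 9) 13],
  .lem [M 7 0, M 8 0, M 9 1, M 9 7, M 9 8] [.ax (.sk1 7) 0, .ax (.sk1 8) 0, .ax (.sk2 8) 0, .ax (.fact 6) 0, .ax (.un 1 7 8 0 9) 13],
  .lem [e 9 1, F 3 1] [.ax (.sk1 9) 0, .ax (.ef 9 1 3) 3],
  .lem [f 3 1] [.ax (.fact 3) 0, .ax (.fact 2) 0, .ax (.fact 6) 0, .ax (.fact 13) 0, .ax (.fact 10) 0, .ax (.un 1 2 3 0 6) 13]]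

/-- Part of the certificate. -/
def e5 : List Entry := [
  .lem [e 9 1] [.lm 0 2],
  .lem [M 9 2] [.lm 2 2],
  .lem [m 9 1] [.lm 5 2],
  .lem [e 8 0, m 8 5] [.ax (.em 8 0 5) 3],
  .lem [e 5 2] [.ax (.fact 11) 0, .ax (.fact 10) 0, .ax (.em 5 2 6) 3],
  .lem [M 7 3, M 8 3, M 9 7, M 9 8] [.ax (.sk1 7) 0, .ax (.sk1 8) 0, .ax (.sk2 8) 0, .ax (.fact 7) 0, .ax (.un 1 7 8 3 9) 13],
  .lem [m 10 1, m 10 8] [.ax (.sk1 8) 0, .ax (.far 1 8 10) 3],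
  .lem [m 10 3] [.ax (.sk1 10) 0, .ax (.far 3 10 3) 3],
  .root (.ax (.refl 10) 0),
  .lem [e 10 3] [.ax (.em 10 3 10) 3],
  .lem [m 10 4] [.ax (.sk1 10) 0, .ax (.far 3 10 4) 3],
  .lem [m 10 2] [.ax (.sk2 10) 0, .ax (.far 9 10 2) 3]]

/-- Part of the certificate. -/
def e6 : List Entry := [
  .lem [m 9 7, m 10 7] [.ax (.sk2 10) 0, .ax (.far 9 10 7) 3],
  .lem [M 10 1, E 10 0] [.ax (.fact 3) 0, .ax (.fact 4) 0, .ax (.fact 5) 0, .ax (.fact 6) 0, .ax (.fact 8) 0, .ax (.un 1 2 4 0 10) 13],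
  .lem [M 7 3, M 8 3, M 10 1, M 10 7, M 10 8] [.ax (.sk1 7) 0, .ax (.sk1 8) 0, .ax (.sk2 8) 0, .ax (.fact 7) 0, .ax (.un 1 7 8 3 10) 13],
  .root (.ax (.skc 9) 0),
  .root (.ax (.skc 10) 0),
  .lem [M 10 6, M 8 3, M 9 8, M 10 8, E 8 6] [.ax (.sk1 9) 0, .ax (.sk1 10) 0, .ax (.sk2 10) 0, .ax (.un 3 9 10 6 8) 13],
  .lem [e 8 6] [.ax (.em 6 8 4) 3],
  .lem [m 11 1, m 11 2] [.ax (.fact 3) 0, .ax (.far 1 2 11) 3],
  .lem [m 11 3] [.ax (.sk1 11) 0, .ax (.far 4 11 3) 3],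
  .root (.ax (.refl 11) 0),
  .lem [e 11 3] [.ax (.em 11 3 11) 3],
  .lem [m 11 7] [.ax (.sk1 11) 0, .ax (.far 4 11 7) 3]]

/-- Part of the certificate. -/
def e7 : List Entry := [
  .lem [m 11 0] [.ax (.sk2 11) 0, .ax (.fact 12) 0, .ax (.far 6 11 0) 3],
  .lem [m 8 6, m 11 8] [.ax (.sk2 11) 0, .ax (.far 6 11 8) 3],
  .lem [M 11 2, E 11 1] [.ax (.fact 0) 0, .ax (.fact 1) 0, .ax (.fact 2) 0, .ax (.fact 6) 0, .ax (.fact 7) 0, .ax (.un 0 2 3 1 11) 13],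
  .lem [M 7 3, M 8 3, M 11 1, M 11 8] [.ax (.sk1 7) 0, .ax (.sk1 8) 0, .ax (.sk2 8) 0, .ax (.fact 7) 0, .ax (.un 1 7 8 3 11) 13],
  .lem [e 11 1, F 6 1] [.ax (.sk2 11) 0, .ax (.ef 11 1 6) 3],
  .lem [M 8 2] [.lm 21 1, .lm 20 1, .lm 11 2],
  .lem [m 8 0] [.lm 23 2],
  .lem [m 8 3] [.lm 22 2],
  .lem [M 8 6] [.lm 18 0, .lm 19 0, .lm 25 2],
  .lem [m 9 8] [.lm 15 2],
  .lem [m 11 8] [.lm 3 2],
  .lem [m 7 3] [.lm 25 0, .lm 16 1, .lm 13 5]]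

/-- Part of the certificate. -/
def e8 : List Entry := [
  .lem [M 11 1] [.lm 1 4],
  .lem [M 9 7] [.lm 10 4],
  .lem [m 11 2] [.lm 4 2],
  .lem [m 10 7] [.lm 8 2],
  .lem [E 11 1] [.lm 2 2],
  .lem [F 6 1] [.lm 0 2],
  .lem [m 10 8] [.lm 9 0, .ax (.em 10 0 8) 0, .lm 7 2],
  .lem [M 10 6] [.lm 5 5],
  .lem [M 10 1] [.lm 6 5],
  .lem [] [.ax (.far 1 6 10) 3]]

/-- The certificate. -/
def cert : List Entry :=
  e0 ++ (e1 ++ (e2 ++ (e3 ++ (e4 ++ (e5 ++ (e6 ++ (e7 ++ (e8))))))))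

theorem cert_ok : (bif okPs ctx.b ctx.ps then (bif Nat.blt 0 ctx.b then check ctx cert 0 [] else false)
    else false) = true := by decide +kernel

theorem config {V : Type*} {m : V → V → Prop} {C : V → Prop}
    (hrefl : ∀ x, m x x) (hsymm : ∀ x y, m x y → m y x)
    (hT : ∀ x y, ∃ z, C z ∧ Far m z x ∧ Far m z y)
    (hU : ∀ a b d, C a → C b → C d → Far m a b → Far m a d → Far m b d → ∀ x y,
      ¬ m a x → ¬ m b x → ¬ m d x → ¬ m a y → ¬ m b y → ¬ m d y → x = y)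
    (t z c c1 c2 g h : V)
    (h0 : Far m c t)
    (h1 : Far m c1 t)
    (h2 : Far m c1 c)
    (h3 : Far m c z)
    (h4 : Far m c2 z)
    (h5 : Far m c2 c)
    (h6 : ¬ m z t)
    (h7 : ¬ m c1 z)
    (h8 : ¬ m c2 t)
    (h9 : m g c)
    (h10 : ¬ m h c)
    (h11 : m h g)
    (h12 : m h t)
    (h13 : ¬ m h z)
    (h14 : C t)
    (h15 : C z)
    (h16 : C c)
    (h17 : C c1)
    (h18 : C c2)
    : False := by
  let base : Nat → V := fun n => match n with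
    | 0 => t
    | 1 => z
    | 2 => c
    | 3 => c1
    | 4 => c2
    | 5 => g
    | 6 => h
    | _ => t
  refine refute ctx cert cert_ok hrefl hsymm hT hU base ?_
  intro p hp
  have p0 : p 0 = t := hp 0 (by decide)
  have p1 : p 1 = z := hp 1 (by decide)
  have p2 : p 2 = c := hp 2 (by decide)
  have p3 : p 3 = c1 := hp 3 (by decide)
  have p4 : p 4 = c2 := hp 4 (by decide)
  have p5 : p 5 = g := hp 5 (by decide)
  have p6 : p 6 = h := hp 6 (by decide)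
  have key : ∀ cl ∈ facts, CHolds m C p cl := by
    unfold facts
    intro cl hcl
    simp only [List.mem_cons, List.not_mem_nil, or_false] at hcl
    rcases hcl with rfl | rfl | rfl | rfl | rfl | rfl | rfl | rfl | rfl | rfl | rfl | rfl | rfl | rfl | rfl | rfl | rfl | rfl | rfl
    · exact ⟨_, List.mem_cons_self, show Far m (p 2) (p 0) by rw [p0, p2]; exact h0⟩
    · exact ⟨_, List.mem_cons_self, show Far m (p 3) (p 0) by rw [p0, p3]; exact h1⟩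
    · exact ⟨_, List.mem_cons_self, show Far m (p 3) (p 2) by rw [p2, p3]; exact h2⟩
    · exact ⟨_, List.mem_cons_self, show Far m (p 2) (p 1) by rw [p1, p2]; exact h3⟩
    · exact ⟨_, List.mem_cons_self, show Far m (p 4) (p 1) by rw [p1, p4]; exact h4⟩
    · exact ⟨_, List.mem_cons_self, show Far m (p 4) (p 2) by rw [p2, p4]; exact h5⟩
    · exact ⟨_, List.mem_cons_self, show ¬ m (p 1) (p 0) by rw [p0, p1]; exact h6⟩
    · exact ⟨_, List.mem_cons_self, show ¬ m (p 3) (p 1) by rw [p1, p3]; exact h7⟩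
    · exact ⟨_, List.mem_cons_self, show ¬ m (p 4) (p 0) by rw [p0, p4]; exact h8⟩
    · exact ⟨_, List.mem_cons_self, show m (p 5) (p 2) by rw [p2, p5]; exact h9⟩
    · exact ⟨_, List.mem_cons_self, show ¬ m (p 6) (p 2) by rw [p2, p6]; exact h10⟩
    · exact ⟨_, List.mem_cons_self, show m (p 6) (p 5) by rw [p5, p6]; exact h11⟩
    · exact ⟨_, List.mem_cons_self, show m (p 6) (p 0) by rw [p0, p6]; exact h12⟩
    · exact ⟨_, List.mem_cons_self, show ¬ m (p 6) (p 1) by rw [p1, p6]; exact h13⟩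
    · exact ⟨_, List.mem_cons_self, show C (p 0) ∧ C (p 0) by rw [p0]; exact ⟨h14, h14⟩⟩
    · exact ⟨_, List.mem_cons_self, show C (p 1) ∧ C (p 1) by rw [p1]; exact ⟨h15, h15⟩⟩
    · exact ⟨_, List.mem_cons_self, show C (p 2) ∧ C (p 2) by rw [p2]; exact ⟨h16, h16⟩⟩
    · exact ⟨_, List.mem_cons_self, show C (p 3) ∧ C (p 3) by rw [p3]; exact ⟨h17, h17⟩⟩
    · exact ⟨_, List.mem_cons_self, show C (p 4) ∧ C (p 4) by rw [p4]; exact ⟨h18, h18⟩⟩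
  exact key

end Pool.Agent.Star.FO.CertT
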