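import Mathlib

/-!
# A kernel-evaluated checker for grounded first-order refutations

The theory: a reflexive symmetric relation `m` (closed adjacency), a predicate `C` (centres),
`Far m a b` (no common `m`-neighbour); any two points have a common far centre; three pairwise far
centres miss at most one point.

Points `p 0, ..., p (b-1)` are base points, every later point `p k` is a centre far from the two
earlier points `p (par k).1`, `p (par k).2`.  A certificate is a list of clauses over the named
points, each derived by unit propagation (with hints) from axiom instances and earlier clauses.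
The state of the propagation is one natural number, used as a bit mask.
-/

set_option autoImplicit false

namespace Pool.Agent.Star.FO

/-- `a` and `b` have no common `m`-neighbour. -/
def Far {V : Type*} (m : V → V → Prop) (a b : V) : Prop := ∀ x, ¬ (m a x ∧ m b x)

lemma ble_true {a b : Nat} (h : a ≤ b) : Nat.ble a b = true := Nat.ble_eq_true_of_le h

lemma ble_false {a b : Nat} (h : ¬ a ≤ b) : Nat.ble a b = false := by
  cases hh : Nat.ble a b
  · rfl
  · exact absurd (Nat.le_of_ble_eq_true hh) h

/-- Code of an unordered pair. -/
def ix (i j : Nat) : Nat :=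
  bif Nat.ble i j then Nat.add (Nat.mul j j) i else Nat.add (Nat.mul i i) j

lemma ix_eq (i j : Nat) : ix i j = (max i j) * (max i j) + min i j := by
  unfold ix
  rcases Nat.le_total i j with h | h
  · rw [ble_true h]
    simp only [cond_true, max_eq_right h, min_eq_left h]
    rfl
  · rcases Nat.lt_or_ge j i with h1 | h1
    · rw [ble_false (by omega)]
      simp only [cond_false, max_eq_left h, min_eq_right h]
      rfl
    · have h2 : i = j := le_antisymm h1 h
      subst h2
      rw [ble_true le_rfl]
      simp only [cond_true, max_self, min_self]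
      rfl

lemma sq_add_inj {a b c d : Nat} (hb : b ≤ a) (hd : d ≤ c) (h : a * a + b = c * c + d) :
    a = c ∧ b = d := by
  have h1 : a = c := by
    rcases Nat.lt_trichotomy a c with h1 | h1 | h1
    · exfalso
      have : (a + 1) * (a + 1) ≤ c * c := Nat.mul_le_mul h1 h1
      nlinarith
    · exact h1
    · exfalso
      have : (c + 1) * (c + 1) ≤ a * a := Nat.mul_le_mul h1 h1
      nlinarith
  subst h1
  exact ⟨rfl, by omega⟩

lemma ix_inj {i j i' j' : Nat} (h : ix i j = ix i' j') :
    (i = i' ∧ j = j') ∨ (i = j' ∧ j = i') := by
  rw [ix_eq, ix_eq] at h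
  obtain ⟨h1, h2⟩ := sq_add_inj (min_le_max) (min_le_max) h
  omega

/-- Kinds of literals. -/
inductive Kd where
  | mp | mn | ep | en | fp | fn | cp | cn

/-- Number of a kind. -/
noncomputable def Kd.n (k : Kd) : Nat :=
  Kd.rec (motive := fun _ => Nat) 0 1 2 3 4 5 6 7 k

/-- The opposite kind. -/
noncomputable def Kd.neg (k : Kd) : Kd :=
  Kd.rec (motive := fun _ => Kd) .mn .mp .en .ep .fn .fp .cn .cp k

lemma Kd.n_inj {k k' : Kd} (h : k.n = k'.n) : k = k' := by
  cases k <;> cases k' <;> first | rfl | (exfalso; revert h; decide)

lemma Kd.n_lt (k : Kd) : k.n < 8 := by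
  cases k <;> decide

/-- A literal. -/
inductive Lit where
  | mk (k : Kd) (i j : Nat)

/-- Code of a literal. -/
noncomputable def Lit.code (l : Lit) : Nat :=
  Lit.rec (motive := fun _ => Nat) (fun k i j => Nat.add (Nat.mul (ix i j) 8) k.n) l

/-- The opposite literal. -/
noncomputable def Lit.neg (l : Lit) : Lit :=
  Lit.rec (motive := fun _ => Lit) (fun k i j => .mk k.neg i j) l

section sem
variable {V : Type*} (m : V → V → Prop) (C : V → Prop) (p : Nat → V)

/-- Truth of a literal. -/
def Lit.holds : Lit → Prop
  | .mk .mp i j => m (p i) (p j)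
  | .mk .mn i j => ¬ m (p i) (p j)
  | .mk .ep i j => p i = p j
  | .mk .en i j => ¬ (p i = p j)
  | .mk .fp i j => Far m (p i) (p j)
  | .mk .fn i j => ¬ Far m (p i) (p j)
  | .mk .cp i j => C (p i) ∧ C (p j)
  | .mk .cn i j => ¬ (C (p i) ∧ C (p j))

end sem

/-- Test of a bit. -/
def tb (s n : Nat) : Bool := Nat.beq (Nat.land (Nat.shiftRight s n) 1) 1

lemma tb_eq (s n : Nat) : tb s n = s.testBit n := by
  unfold tb
  have h : Nat.land (Nat.shiftRight s n) 1 = (s >>> n) &&& 1 := rfl
  rw [h, Nat.and_one_is_mod, Nat.testBit_eq_decide_div_mod_eq, Nat.shiftRight_eq_div_pow]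
  by_cases h2 : s / 2 ^ n % 2 = 1
  · rw [h2]; rfl
  · simp only [h2, decide_false]
    have h3 : s / 2 ^ n % 2 = 0 := by omega
    rw [h3]; rfl

/-- Does the state contain the literal? -/
noncomputable def has (s : Nat) (l : Lit) : Bool := tb s l.code

/-- Add a literal to the state. -/
noncomputable def add (s : Nat) (l : Lit) : Nat := Nat.lor s (Nat.shiftLeft 1 l.code)

lemma has_add {s : Nat} {l l' : Lit} (h : has (add s l) l' = true) :
    has s l' = true ∨ l'.code = l.code := by
  unfold has add at h
  rw [tb_eq] at h
  have h1 : Nat.lor s (Nat.shiftLeft 1 l.code) = s ||| (1 <<< l.code) := rfl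
  rw [h1, Nat.testBit_or, Bool.or_eq_true] at h
  rcases h with h | h
  · left
    unfold has
    rw [tb_eq]
    exact h
  · right
    rw [Nat.one_shiftLeft, Nat.testBit_two_pow] at h
    simpa using (of_decide_eq_true h).symm

/-- Force the evaluation of a natural number. -/
noncomputable def force (n : Nat) (f : Nat → Bool) : Bool :=
  Nat.rec (motive := fun _ => Bool) (f 0) (fun k _ => f (Nat.succ k)) n

lemma force_eq (n : Nat) (f : Nat → Bool) : force n f = f n := by
  cases n <;> rfl

/-- Axiom instances. -/
inductive Ax where
  | refl (i : Nat)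
  | erefl (i : Nat)
  | sk1 (k : Nat)
  | sk2 (k : Nat)
  | skc (k : Nat)
  | far (a b x : Nat)
  | un (a b c x y : Nat)
  | em (x y z : Nat)
  | ef (x y z : Nat)
  | ec (x y : Nat)
  | et (x y z : Nat)
  | fact (n : Nat)

/-- The defining pairs of the points, and the given facts. -/
structure Ctx where
  b : Nat
  ps : List (Nat × Nat)
  facts : List (List Lit)

/-- `n`-th element of a list. -/
noncomputable def nth {α : Type*} (d : α) (l : List α) : Nat → α :=
  List.rec (motive := fun _ => Nat → α) (fun _ => d)
    (fun a _ ih n => Nat.rec (motive := fun _ => α) a (fun k _ => ih k) n) l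

lemma nth_mem {α : Type*} (d : α) (l : List α) (n : Nat) : nth d l n = d ∨ nth d l n ∈ l := by
  induction l generalizing n with
  | nil => left; rfl
  | cons a l ih =>
    cases n with
    | zero => right; exact List.mem_cons_self
    | succ n =>
      rcases ih n with h | h
      · left; exact h
      · right; exact List.mem_cons_of_mem _ h

/-- The defining pair of a point. -/
noncomputable def Ctx.par (c : Ctx) (k : Nat) : Nat × Nat := nth (0, 0) c.ps (Nat.sub k c.b)

/-- The clause of an axiom instance. -/
noncomputable def Ax.cl (c : Ctx) (a : Ax) : List Lit :=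
  match a with
  | .refl i => [.mk .mp i i]
  | .erefl i => [.mk .ep i i]
  | .sk1 k => bif Nat.ble c.b k then [.mk .fp k (c.par k).1] else [.mk .ep k k]
  | .sk2 k => bif Nat.ble c.b k then [.mk .fp k (c.par k).2] else [.mk .ep k k]
  | .skc k => bif Nat.ble c.b k then [.mk .cp k k] else [.mk .ep k k]
  | .far a b x => [.mk .fn a b, .mk .mn a x, .mk .mn b x]
  | .un a b c x y => [.mk .cn a a, .mk .cn b b, .mk .cn c c, .mk .fn a b, .mk .fn a c, .mk .fn b c,
      .mk .mp a x, .mk .mp b x, .mk .mp c x, .mk .mp a y, .mk .mp b y, .mk .mp c y, .mk .ep x y]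
  | .em x y z => [.mk .en x y, .mk .mn x z, .mk .mp y z]
  | .ef x y z => [.mk .en x y, .mk .fn x z, .mk .fp y z]
  | .ec x y => [.mk .en x y, .mk .cn x x, .mk .cp y y]
  | .et x y z => [.mk .en x y, .mk .en y z, .mk .ep x z]
  | .fact n => nth [.mk .ep 0 0] c.facts n

/-- A hint: a clause (axiom instance or earlier lemma, counted from the latest one) and the position
of the literal it yields. -/
inductive Hint where
  | ax (a : Ax) (pos : Nat)
  | lm (n pos : Nat)

/-- The clause of a hint. -/
noncomputable def Hint.cl (c : Ctx) (lems : List (List Lit)) (h : Hint) : List Lit :=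
  match h with
  | .ax a _ => a.cl c
  | .lm n _ => nth [.mk .ep 0 0] lems n

/-- The position of a hint. -/
def Hint.pos (h : Hint) : Nat :=
  match h with
  | .ax _ p => p
  | .lm _ p => p

/-- All literals are false. -/
noncomputable def allF (s : Nat) (cl : List Lit) : Bool :=
  List.rec (motive := fun _ => Bool) true (fun l _ ih => bif has s l.neg then ih else false) cl

/-- Unit propagation: all literals but the one in position `pos` are false; then go on with that
literal (with success if there is none). -/
noncomputable def prop (s : Nat) (cl : List Lit) (k : Lit → Bool) : Nat → Bool :=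
  List.rec (motive := fun _ => Nat → Bool) (fun _ => true)
    (fun l t ih n => Nat.rec (motive := fun _ => Bool)
      (bif allF s t then k l else false)
      (fun n' _ => bif has s l.neg then ih n' else false) n) cl

/-- Run a list of hints until a conflict. -/
noncomputable def run (c : Ctx) (lems : List (List Lit)) (hs : List Hint) : Nat → Bool :=
  List.rec (motive := fun _ => Nat → Bool) (fun _ => false)
    (fun h _ ih s => prop s (h.cl c lems) (fun l => force (add s l) ih) h.pos) hs

/-- Add the negations of the literals of a clause. -/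
noncomputable def addNegs (s : Nat) (cl : List Lit) : Nat :=
  List.rec (motive := fun _ => Nat → Nat) (fun s => s) (fun l _ ih s => ih (add s l.neg)) cl s

/-- Entries of a certificate. -/
inductive Entry where
  | root (h : Hint)
  | lem (cl : List Lit) (hs : List Hint)

/-- Use of a proved clause: success if it is empty, `one` if it is a unit clause. -/
def after (cl : List Lit) (one : Lit → Bool) (many : Bool) : Bool :=
  match cl with
  | [] => true
  | [l] => one l
  | _ => many

/-- The checker. -/
noncomputable def check (c : Ctx) (es : List Entry) : Nat → List (List Lit) → Bool :=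
  List.rec (motive := fun _ => Nat → List (List Lit) → Bool) (fun _ _ => false)
    (fun e _ ih s lems =>
      match e with
      | .root h => prop s (h.cl c lems) (fun l => force (add s l) (fun s' => ih s' lems)) h.pos
      | .lem cl hs => bif force (addNegs s cl) (run c lems hs) then
          after cl (fun l => force (add s l) (fun s' => ih s' lems)) (ih s (cl :: lems))
          else false) es

section sound
variable {V : Type*} {m : V → V → Prop} {C : V → Prop} {p : Nat → V}

lemma Lit.holds_neg (l : Lit) : l.neg.holds m C p ↔ ¬ l.holds m C p := by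
  obtain ⟨k, i, j⟩ := l
  cases k <;> simp [Lit.neg, Kd.neg, Lit.holds]

lemma far_symm {a b : V} (h : Far m a b) : Far m b a := fun x hx => h x ⟨hx.2, hx.1⟩

lemma Lit.holds_of_code (hsymm : ∀ x y, m x y → m y x) {l l' : Lit} (h : l'.code = l.code)
    (hl : l.holds m C p) : l'.holds m C p := by
  obtain ⟨k, i, j⟩ := l
  obtain ⟨k', i', j'⟩ := l'
  have h' : ix i' j' * 8 + k'.n = ix i j * 8 + k.n := h
  have hk := Kd.n_lt k
  have hk' := Kd.n_lt k'
  have h1 : ix i' j' = ix i j := by omega
  have h2 : k' = k := Kd.n_inj (by omega)
  subst h2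
  rcases ix_inj h1 with ⟨rfl, rfl⟩ | ⟨rfl, rfl⟩
  · exact hl
  · have hm : m (p i') (p j') ↔ m (p j') (p i') := ⟨hsymm _ _, hsymm _ _⟩
    have hf : Far m (p i') (p j') ↔ Far m (p j') (p i') := ⟨far_symm, far_symm⟩
    cases k' <;> simp only [Lit.holds] at hl ⊢
    · exact hm.2 hl
    · exact fun h => hl (hm.1 h)
    · exact hl.symm
    · exact fun h => hl h.symm
    · exact hf.2 hl
    · exact fun h => hl (hf.1 h)
    · exact hl.symm
    · exact fun h => hl h.symm

/-- All literals in the state hold. -/
def Sat (m : V → V → Prop) (C : V → Prop) (p : Nat → V) (s : Nat) : Prop :=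
  ∀ l : Lit, has s l = true → l.holds m C p

/-- Some literal of the clause holds. -/
def CHolds (m : V → V → Prop) (C : V → Prop) (p : Nat → V) (cl : List Lit) : Prop :=
  ∃ l ∈ cl, Lit.holds m C p l

lemma Sat.add (hsymm : ∀ x y, m x y → m y x) {s : Nat} (hs : Sat m C p s) {l : Lit}
    (hl : l.holds m C p) : Sat m C p (add s l) := by
  intro l' h
  rcases has_add h with h | h
  · exact hs l' h
  · exact Lit.holds_of_code hsymm h hl

lemma allF_sound {s : Nat} (hs : Sat m C p s) {cl : List Lit} (h : allF s cl = true) :
    ∀ l ∈ cl, ¬ l.holds m C p := by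
  induction cl with
  | nil => simp
  | cons a t ih =>
    have h1 : (bif has s a.neg then allF s t else false) = true := h
    cases h2 : has s a.neg with
    | false => rw [h2] at h1; simp at h1
    | true =>
      rw [h2] at h1
      intro l hl
      rcases List.mem_cons.1 hl with rfl | hl
      · exact (Lit.holds_neg l).1 (hs _ h2)
      · exact ih h1 l hl

lemma prop_sound {s : Nat} (hs : Sat m C p s) {cl : List Lit} {k : Lit → Bool} {n : Nat}
    (h : prop s cl k n = true) (hcl : CHolds m C p cl) :
    ∃ l, l.holds m C p ∧ k l = true := by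
  induction cl generalizing n with
  | nil => obtain ⟨l, hl, -⟩ := hcl; simp at hl
  | cons a t ih =>
    cases n with
    | zero =>
      have h1 : (bif allF s t then k a else false) = true := h
      cases h2 : allF s t with
      | false => rw [h2] at h1; simp at h1
      | true =>
        rw [h2] at h1
        obtain ⟨l, hl, hl2⟩ := hcl
        rcases List.mem_cons.1 hl with rfl | hl
        · exact ⟨l, hl2, h1⟩
        · exact absurd hl2 (allF_sound hs h2 l hl)
    | succ n =>
      have h1 : (bif has s a.neg then prop s t k n else false) = true := h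
      cases h2 : has s a.neg with
      | false => rw [h2] at h1; simp at h1
      | true =>
        rw [h2] at h1
        obtain ⟨l, hl, hl2⟩ := hcl
        rcases List.mem_cons.1 hl with rfl | hl
        · exact absurd hl2 ((Lit.holds_neg l).1 (hs _ h2))
        · exact ih h1 ⟨l, hl, hl2⟩

/-- The hypotheses on the structure and on the named points. -/
structure Mod (m : V → V → Prop) (C : V → Prop) (p : Nat → V) (c : Ctx) : Prop where
  refl : ∀ x, m x x
  symm : ∀ x y, m x y → m y x
  un : ∀ a b d, C a → C b → C d → Far m a b → Far m a d → Far m b d → ∀ x y,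
    ¬ m a x → ¬ m b x → ¬ m d x → ¬ m a y → ¬ m b y → ¬ m d y → x = y
  sk : ∀ k, c.b ≤ k → C (p k) ∧ Far m (p k) (p (c.par k).1) ∧ Far m (p k) (p (c.par k).2)
  facts : ∀ cl ∈ c.facts, CHolds m C p cl

lemma Ax.sound {c : Ctx} (M : Mod m C p c) (a : Ax) : CHolds m C p (a.cl c) := by
  cases a with
  | refl i => exact ⟨_, List.mem_cons_self, M.refl _⟩
  | erefl i => exact ⟨.mk .ep i i, List.mem_cons_self, rfl⟩
  | sk1 k =>
    simp only [Ax.cl]
    by_cases hb : c.b ≤ k
    · rw [ble_true hb]
      exact ⟨_, List.mem_cons_self, (M.sk k hb).2.1⟩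
    · rw [ble_false hb]
      exact ⟨.mk .ep k k, List.mem_cons_self, rfl⟩
  | sk2 k =>
    simp only [Ax.cl]
    by_cases hb : c.b ≤ k
    · rw [ble_true hb]
      exact ⟨_, List.mem_cons_self, (M.sk k hb).2.2⟩
    · rw [ble_false hb]
      exact ⟨.mk .ep k k, List.mem_cons_self, rfl⟩
  | skc k =>
    simp only [Ax.cl]
    by_cases hb : c.b ≤ k
    · rw [ble_true hb]
      exact ⟨_, List.mem_cons_self, (M.sk k hb).1, (M.sk k hb).1⟩
    · rw [ble_false hb]
      exact ⟨.mk .ep k k, List.mem_cons_self, rfl⟩
  | far a b x =>
    by_contra hcon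
    have h : ∀ l ∈ Ax.cl c (.far a b x), ¬ l.holds m C p := fun l hl h => hcon ⟨l, hl, h⟩
    simp only [Ax.cl, List.mem_cons, List.not_mem_nil, or_false, forall_eq_or_imp, forall_eq,
      Lit.holds, not_not] at h
    exact h.1 (p x) ⟨h.2.1, h.2.2⟩
  | un a b d x y =>
    by_contra hcon
    have h : ∀ l ∈ Ax.cl c (.un a b d x y), ¬ l.holds m C p := fun l hl h => hcon ⟨l, hl, h⟩
    simp only [Ax.cl, List.mem_cons, List.not_mem_nil, or_false, forall_eq_or_imp, forall_eq,
      Lit.holds, not_not] at h
    obtain ⟨h1, h2, h3, h4, h5, h6, h7, h8, h9, h10, h11, h12, h13⟩ := h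
    exact h13 (M.un _ _ _ h1.1 h2.1 h3.1 h4 h5 h6 _ _ h7 h8 h9 h10 h11 h12)
  | em x y z =>
    by_contra hcon
    have h : ∀ l ∈ Ax.cl c (.em x y z), ¬ l.holds m C p := fun l hl h => hcon ⟨l, hl, h⟩
    simp only [Ax.cl, List.mem_cons, List.not_mem_nil, or_false, forall_eq_or_imp, forall_eq,
      Lit.holds, not_not] at h
    exact h.2.2 (h.1 ▸ h.2.1)
  | ef x y z =>
    by_contra hcon
    have h : ∀ l ∈ Ax.cl c (.ef x y z), ¬ l.holds m C p := fun l hl h => hcon ⟨l, hl, h⟩
    simp only [Ax.cl, List.mem_cons, List.not_mem_nil, or_false, forall_eq_or_imp, forall_eq,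
      Lit.holds, not_not] at h
    exact h.2.2 (h.1 ▸ h.2.1)
  | ec x y =>
    by_contra hcon
    have h : ∀ l ∈ Ax.cl c (.ec x y), ¬ l.holds m C p := fun l hl h => hcon ⟨l, hl, h⟩
    simp only [Ax.cl, List.mem_cons, List.not_mem_nil, or_false, forall_eq_or_imp, forall_eq,
      Lit.holds, not_not] at h
    exact h.2.2 ⟨h.1 ▸ h.2.1.1, h.1 ▸ h.2.1.1⟩
  | et x y z =>
    by_contra hcon
    have h : ∀ l ∈ Ax.cl c (.et x y z), ¬ l.holds m C p := fun l hl h => hcon ⟨l, hl, h⟩
    simp only [Ax.cl, List.mem_cons, List.not_mem_nil, or_false, forall_eq_or_imp, forall_eq,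
      Lit.holds, not_not] at h
    exact h.2.2 (h.1.trans h.2.1)
  | fact n =>
    show CHolds m C p (nth [.mk .ep 0 0] c.facts n)
    rcases nth_mem [Lit.mk .ep 0 0] c.facts n with h | h
    · rw [h]; exact ⟨.mk .ep 0 0, List.mem_cons_self, rfl⟩
    · exact M.facts _ h

lemma Hint.sound {c : Ctx} (M : Mod m C p c) {lems : List (List Lit)}
    (hl : ∀ cl ∈ lems, CHolds m C p cl) (h : Hint) : CHolds m C p (h.cl c lems) := by
  cases h with
  | ax a q => exact Ax.sound M a
  | lm n q =>
    show CHolds m C p (nth [.mk .ep 0 0] lems n)
    rcases nth_mem [Lit.mk .ep 0 0] lems n with h | h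
    · rw [h]; exact ⟨.mk .ep 0 0, List.mem_cons_self, rfl⟩
    · exact hl _ h

lemma run_sound {c : Ctx} (M : Mod m C p c) {lems : List (List Lit)}
    (hl : ∀ cl ∈ lems, CHolds m C p cl) (hs : List Hint) {s : Nat} (hsat : Sat m C p s)
    (h : run c lems hs s = true) : False := by
  induction hs generalizing s with
  | nil => exact Bool.false_ne_true h
  | cons a t ih =>
    have h1 : prop s (a.cl c lems) (fun l => force (FO.add s l) (run c lems t)) a.pos = true := h
    obtain ⟨l, hl1, hl2⟩ := prop_sound hsat h1 (Hint.sound M hl a)
    rw [force_eq] at hl2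
    exact ih (hsat.add M.symm hl1) hl2

lemma addNegs_sound (hsymm : ∀ x y, m x y → m y x) {cl : List Lit}
    (h : ∀ l ∈ cl, ¬ l.holds m C p) {s : Nat} (hs : Sat m C p s) : Sat m C p (addNegs s cl) := by
  induction cl generalizing s with
  | nil => exact hs
  | cons a t ih =>
    have h1 : addNegs s (a :: t) = addNegs (FO.add s a.neg) t := rfl
    rw [h1]
    apply ih (fun l hl => h l (List.mem_cons_of_mem _ hl))
    exact hs.add hsymm ((Lit.holds_neg a).2 (h a List.mem_cons_self))

lemma lem_sound {c : Ctx} (M : Mod m C p c) {lems : List (List Lit)}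
    (hl : ∀ cl ∈ lems, CHolds m C p cl) {cl : List Lit} {hs : List Hint} {s : Nat}
    (hsat : Sat m C p s) (h : force (addNegs s cl) (run c lems hs) = true) :
    CHolds m C p cl := by
  by_contra hcon
  rw [force_eq] at h
  exact run_sound M hl hs (addNegs_sound M.symm (fun l hl h => hcon ⟨l, hl, h⟩) hsat) h

theorem check_sound {c : Ctx} (M : Mod m C p c) (es : List Entry) {s : Nat}
    {lems : List (List Lit)} (hl : ∀ cl ∈ lems, CHolds m C p cl) (hsat : Sat m C p s)
    (h : check c es s lems = true) : False := by
  induction es generalizing s lems with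
  | nil => exact Bool.false_ne_true h
  | cons e t ih =>
    cases e with
    | root a =>
      have h1 : prop s (a.cl c lems) (fun l => force (FO.add s l) (fun s' => check c t s' lems))
        a.pos = true := h
      obtain ⟨l, hl1, hl2⟩ := prop_sound hsat h1 (Hint.sound M hl a)
      rw [force_eq] at hl2
      exact ih hl (hsat.add M.symm hl1) hl2
    | lem cl hs =>
      have h0 : (bif force (addNegs s cl) (run c lems hs) then
          after cl (fun l => force (FO.add s l) (fun s' => check c t s' lems))
            (check c t s (cl :: lems)) else false) = true := h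
      cases hc : force (addNegs s cl) (run c lems hs) with
      | false =>
        rw [hc] at h0
        exact Bool.false_ne_true h0
      | true =>
        rw [hc] at h0
        have hcl := lem_sound M hl hsat hc
        match cl, h0, hcl with
        | [], _, hcl => obtain ⟨l, hl, -⟩ := hcl; simp at hl
        | [l], h1, hcl =>
          have h2 : force (FO.add s l) (fun s' => check c t s' lems) = true := h1
          rw [force_eq] at h2
          obtain ⟨l', hl', hl2⟩ := hcl
          have : l' = l := by simpa using hl'
          subst this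
          exact ih hl (hsat.add M.symm hl2) h2
        | a :: b :: r, h1, hcl =>
          have h2 : check c t s ((a :: b :: r) :: lems) = true := h1
          refine ih (fun cl hcl' => ?_) hsat h2
          rcases List.mem_cons.1 hcl' with rfl | h3
          · exact hcl
          · exact hl _ h3

end sound

/-- The named points: base points, then choices of far centres. -/
noncomputable def pts {V : Type*} (base : Nat → V) (F : V → V → V) (c : Ctx) (k : Nat) : V :=
  if k < c.b then base k
  else if h : (c.par k).1 < k ∧ (c.par k).2 < k then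
    have := h.1
    have := h.2
    F (pts base F c (c.par k).1) (pts base F c (c.par k).2)
  else base k
termination_by k

/-- The pairs of the context point to earlier points. -/
noncomputable def okPs (b : Nat) (ps : List (Nat × Nat)) : Bool :=
  List.rec (motive := fun _ => Nat → Bool) (fun _ => true)
    (fun q _ ih n => bif Nat.blt q.1 n then (bif Nat.blt q.2 n then ih (Nat.succ n) else false)
      else false) ps b

lemma okPs_nth {b : Nat} {ps : List (Nat × Nat)} (hb : 0 < b) (h : okPs b ps = true) (n : Nat) :
    (nth (0, 0) ps n).1 < b + n ∧ (nth (0, 0) ps n).2 < b + n := by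
  induction ps generalizing b n with
  | nil => exact ⟨by show 0 < b + n; omega, by show 0 < b + n; omega⟩
  | cons q t ih =>
    have h1 : (bif Nat.blt q.1 b then (bif Nat.blt q.2 b then okPs (Nat.succ b) t else false)
      else false) = true := h
    cases h2 : Nat.blt q.1 b with
    | false => rw [h2] at h1; exact absurd h1 Bool.false_ne_true
    | true =>
      rw [h2] at h1
      have h1' : (bif Nat.blt q.2 b then okPs (Nat.succ b) t else false) = true := h1
      cases h3 : Nat.blt q.2 b with
      | false => rw [h3] at h1'; exact absurd h1' Bool.false_ne_true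
      | true =>
        rw [h3] at h1'
        have h4 : okPs (Nat.succ b) t = true := h1'
        have e2 : q.1 < b := Nat.le_of_ble_eq_true h2
        have e3 : q.2 < b := Nat.le_of_ble_eq_true h3
        cases n with
        | zero => exact ⟨by show q.1 < b + 0; omega, by show q.2 < b + 0; omega⟩
        | succ n =>
          obtain ⟨g1, g2⟩ := ih (Nat.succ_pos b) h4 n
          refine ⟨?_, ?_⟩
          · show (nth (0, 0) t n).1 < _
            omega
          · show (nth (0, 0) t n).2 < _
            omega

theorem refute {V : Type*} {m : V → V → Prop} {C : V → Prop} (c : Ctx) (es : List Entry)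
    (hcheck : (bif okPs c.b c.ps then (bif Nat.blt 0 c.b then check c es 0 [] else false)
      else false) = true)
    (hrefl : ∀ x, m x x) (hsymm : ∀ x y, m x y → m y x)
    (hT : ∀ x y, ∃ z, C z ∧ Far m z x ∧ Far m z y)
    (hU : ∀ a b d, C a → C b → C d → Far m a b → Far m a d → Far m b d → ∀ x y,
      ¬ m a x → ¬ m b x → ¬ m d x → ¬ m a y → ¬ m b y → ¬ m d y → x = y)
    (base : Nat → V)
    (hfacts : ∀ p : Nat → V, (∀ k, k < c.b → p k = base k) → ∀ cl ∈ c.facts, CHolds m C p cl) :
    False := by
  classical
  cases hok : okPs c.b c.ps with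
  | false => rw [hok] at hcheck; exact Bool.false_ne_true hcheck
  | true =>
    rw [hok] at hcheck
    cases hb : Nat.blt 0 c.b with
    | false => rw [hb] at hcheck; exact Bool.false_ne_true hcheck
    | true =>
      rw [hb] at hcheck
      have hcheck' : check c es 0 [] = true := hcheck
      have hb' : 0 < c.b := Nat.le_of_ble_eq_true hb
      choose F hF using hT
      let p := pts base F c
      have hp0 : ∀ k, k < c.b → p k = base k := by
        intro k hk
        show pts base F c k = base k
        rw [pts, if_pos hk]
      have hpar : ∀ k, c.b ≤ k → (c.par k).1 < k ∧ (c.par k).2 < k := by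
        intro k hk
        obtain ⟨g1, g2⟩ := okPs_nth hb' hok (k - c.b)
        have e : c.b + (k - c.b) = k := by omega
        rw [e] at g1 g2
        exact ⟨g1, g2⟩
      have hpk : ∀ k, c.b ≤ k → p k = F (p (c.par k).1) (p (c.par k).2) := by
        intro k hk
        show pts base F c k = _
        rw [pts, if_neg (by omega), dif_pos (hpar k hk)]
      have M : Mod m C p c :=
        { refl := hrefl
          symm := hsymm
          un := hU
          sk := by
            intro k hk
            rw [hpk k hk]
            exact hF _ _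
          facts := hfacts p hp0 }
      refine check_sound M es (s := 0) (lems := []) (by simp) ?_ hcheck'
      intro l hl
      exfalso
      unfold has at hl
      rw [tb_eq, Nat.zero_testBit] at hl
      exact Bool.false_ne_true hl

end Pool.Agent.Star.FO
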